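import Pool.Agent.Helper43.SP.Smith

/-!
Push-forward of chains along maps which are order embeddings on a given subset.
-/

set_option autoImplicit false

namespace Pool.Agent.Helper43.SP.FK

open scoped Classical

noncomputable section

variable {k : Type*} [Field k] {Q : Type*} [PartialOrder Q] {Q' : Type*} [PartialOrder Q']

/-- `e` is an order embedding on `Y` -/
def OE (e : Q → Q') (Y : Set Q) : Prop := ∀ x ∈ Y, ∀ y ∈ Y, (x ≤ y ↔ e x ≤ e y)

lemma OE.mono {e : Q → Q'} {Y Z : Set Q} (h : OE e Y) (hZ : Z ⊆ Y) : OE e Z :=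
  fun x hx y hy => h x (hZ hx) y (hZ hy)

lemma OE.injOn {e : Q → Q'} {Y : Set Q} (h : OE e Y) : Set.InjOn e Y := fun x hx y hy hxy =>
  le_antisymm ((h x hx y hy).mpr hxy.le) ((h y hy x hx).mpr hxy.ge)

lemma OE.lt_iff {e : Q → Q'} {Y : Set Q} (h : OE e Y) {x y : Q} (hx : x ∈ Y) (hy : y ∈ Y) :
    e x < e y ↔ x < y := by
  rw [lt_iff_le_not_ge, lt_iff_le_not_ge, h x hx y hy, h y hy x hx]

/-- image of a chain -/
def imCh (e : Q → Q') (S : Ch Q) (h : OE e (S.1 : Set Q)) : Ch Q' := ⟨S.1.image e, by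
  intro a ha b hb hab
  rw [Finset.mem_coe, Finset.mem_image] at ha hb
  obtain ⟨x, hx, rfl⟩ := ha
  obtain ⟨y, hy, rfl⟩ := hb
  have hxy : x ≠ y := by rintro rfl; exact hab rfl
  rcases S.2 hx hy hxy with h' | h'
  · exact Or.inl ((h x hx y hy).mp h')
  · exact Or.inr ((h y hy x hx).mp h')⟩

lemma imCh_coe (e : Q → Q') (S : Ch Q) (h : OE e (S.1 : Set Q)) :
    (imCh e S h).1 = S.1.image e := rfl

/-- push-forward -/
def push (k : Type*) [Field k] {Q : Type*} [PartialOrder Q] {Q' : Type*} [PartialOrder Q']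
    (e : Q → Q') : (Ch Q →₀ k) →ₗ[k] (Ch Q' →₀ k) :=
  opOf fun S => if h : OE e (S.1 : Set Q) then dl k (imCh e S h) else 0

lemma push_dl (e : Q → Q') (S : Ch Q) (h : OE e (S.1 : Set Q)) :
    push k e (dl k S) = dl k (imCh e S h) := by
  unfold push
  rw [opOf_dl, dif_pos h]

lemma sgn_imCh (e : Q → Q') (S : Ch Q) (h : OE e (S.1 : Set Q)) {x : Q} (hx : x ∈ S.1) :
    sgn k (imCh e S h) (e x) = sgn k S x := by
  unfold sgn
  congr 1
  have h1 : (imCh e S h).1.filter (· < e x) = (S.1.filter (· < x)).image e := by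
    ext y
    rw [imCh_coe, Finset.mem_filter, Finset.mem_image, Finset.mem_image]
    constructor
    · rintro ⟨⟨z, hz, rfl⟩, hlt⟩
      exact ⟨z, Finset.mem_filter.mpr ⟨hz, (h.lt_iff hz hx).mp hlt⟩, rfl⟩
    · rintro ⟨z, hz, rfl⟩
      rw [Finset.mem_filter] at hz
      exact ⟨⟨z, hz.1, rfl⟩, (h.lt_iff hz.1 hx).mpr hz.2⟩
  rw [h1]
  exact Finset.card_image_of_injOn (h.injOn.mono (by
    intro z hz
    exact (Finset.mem_filter.mp hz).1))

lemma er_imCh (e : Q → Q') (S : Ch Q) (h : OE e (S.1 : Set Q)) {x : Q} (hx : x ∈ S.1)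
    (h' : OE e ((er S x).1 : Set Q)) : er (imCh e S h) (e x) = imCh e (er S x) h' := by
  apply Subtype.ext
  rw [er_coe, imCh_coe, imCh_coe, er_coe]
  ext y
  rw [Finset.mem_erase, Finset.mem_image, Finset.mem_image]
  constructor
  · rintro ⟨hne, z, hz, rfl⟩
    refine ⟨z, Finset.mem_erase.mpr ⟨?_, hz⟩, rfl⟩
    rintro rfl
    exact hne rfl
  · rintro ⟨z, hz, rfl⟩
    rw [Finset.mem_erase] at hz
    refine ⟨fun he => hz.1 (h.injOn hz.2 hx he), z, hz.2, rfl⟩

lemma bd_push_dl (e : Q → Q') (S : Ch Q) (h : OE e (S.1 : Set Q)) :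
    bd k Q' (push k e (dl k S)) = push k e (bd k Q (dl k S)) := by
  rw [push_dl e S h, bd_dl, bd_dl, map_sum, imCh_coe, Finset.sum_image h.injOn]
  refine Finset.sum_congr rfl fun x hx => ?_
  have h' : OE e ((er S x).1 : Set Q) := h.mono (by
    intro y hy
    exact Finset.mem_of_mem_erase hy)
  rw [map_smul, push_dl e _ h', sgn_imCh e S h hx, er_imCh e S h hx h']

lemma bd_push {e : Q → Q'} {Y : Set Q} (h : OE e Y) {v : Ch Q →₀ k} (hv : Supp (InU Y) v) :
    bd k Q' (push k e v) = push k e (bd k Q v) := by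
  have := Supp.eq (A := (bd k Q').comp (push k e)) (B := (push k e).comp (bd k Q))
    (R := InU Y) (fun S hS => bd_push_dl e S (h.mono hS)) hv
  exact this

lemma supp_push {e : Q → Q'} {Y : Set Q} (h : OE e Y) {U : Set Q'} (hU : ∀ x ∈ Y, e x ∈ U)
    {v : Ch Q →₀ k} (hv : Supp (InU Y) v) : Supp (InU U) (push k e v) := by
  refine Supp.map (fun S hS => ?_) hv
  rw [push_dl e S (h.mono hS)]
  refine Supp.dl ?_
  intro y hy
  rw [imCh_coe, Finset.mem_coe, Finset.mem_image] at hy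
  obtain ⟨x, hx, rfl⟩ := hy
  exact hU x (hS hx)

lemma hom_push {e : Q → Q'} {Y : Set Q} (h : OE e Y) {v : Ch Q →₀ k} (hv : Supp (InU Y) v)
    {i : ℕ} (hvi : Hom i v) : Hom i (push k e v) := by
  have h1 : Supp (fun S : Ch Q => InU Y S ∧ S.1.card = i) v := by
    intro S hS
    by_cases h2 : InU Y S
    · exact hvi S fun h3 => hS ⟨h2, h3⟩
    · exact hv S h2
  refine Supp.map (R := fun S : Ch Q => InU Y S ∧ S.1.card = i) (fun S hS => ?_) h1
  rw [push_dl e S (h.mono hS.1)]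
  refine Supp.dl ?_
  rw [imCh_coe, Finset.card_image_of_injOn (h.mono hS.1).injOn]
  exact hS.2

lemma push_push {Q'' : Type*} [PartialOrder Q''] {e : Q → Q'} {e' : Q' → Q''} {e'' : Q → Q''}
    {Y : Set Q} {Y' : Set Q'} (h : OE e Y) (hY : ∀ x ∈ Y, e x ∈ Y') (h' : OE e' Y')
    (h'' : OE e'' Y) (he : ∀ x ∈ Y, e' (e x) = e'' x) {v : Ch Q →₀ k} (hv : Supp (InU Y) v) :
    push k e' (push k e v) = push k e'' v := by
  have := Supp.eq (A := (push k e').comp (push k e)) (B := push k e'')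
    (R := InU Y) (fun S hS => ?_) hv
  · exact this
  · rw [LinearMap.comp_apply, push_dl e S (h.mono hS), push_dl e'' S (h''.mono hS)]
    have h1 : OE e' ((imCh e S (h.mono hS)).1 : Set Q') := h'.mono (by
      intro y hy
      rw [imCh_coe, Finset.mem_coe, Finset.mem_image] at hy
      obtain ⟨x, hx, rfl⟩ := hy
      exact hY x (hS hx))
    rw [push_dl e' _ h1]
    congr 1
    apply Subtype.ext
    rw [imCh_coe, imCh_coe, imCh_coe, Finset.image_image]
    refine Finset.image_congr fun x hx => ?_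
    exact he x (hS hx)

lemma push_id {v : Ch Q →₀ k} : push k (fun x : Q => x) v = v := by
  have : push k (fun x : Q => x) = LinearMap.id := by
    refine ext_dl fun S => ?_
    have hS : OE (fun x : Q => x) (S.1 : Set Q) := fun x _ y _ => Iff.rfl
    rw [push_dl _ S hS, LinearMap.id_apply]
    congr 1
    apply Subtype.ext
    rw [imCh_coe]
    exact Finset.image_id'
  rw [this, LinearMap.id_apply]

lemma act_push {e : Q → Q'} {Y : Set Q} (h : OE e Y) (g : Q' ≃o Q')
    (hg : ∀ x ∈ Y, g (e x) = e x) {v : Ch Q →₀ k} (hv : Supp (InU Y) v) :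
    act (mapCh g) (push k e v) = push k e v := by
  have := Supp.eq (A := (act (mapCh g)).comp (push k e)) (B := push k e)
    (R := InU Y) (fun S hS => ?_) hv
  · exact this
  · rw [LinearMap.comp_apply, push_dl e S (h.mono hS), act_dl]
    congr 1
    apply Subtype.ext
    rw [mapCh_coe, imCh_coe]
    ext y
    rw [Finset.mem_map, Finset.mem_image]
    constructor
    · rintro ⟨z, hz, rfl⟩
      rw [Finset.mem_image] at hz
      obtain ⟨x, hx, rfl⟩ := hz
      exact ⟨x, hx, (hg x (hS hx)).symm⟩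
    · rintro ⟨x, hx, rfl⟩
      exact ⟨e x, Finset.mem_image_of_mem _ hx, hg x (hS hx)⟩

/-- vertices of a vector -/
def vts (v : Ch Q →₀ k) : Finset Q := v.support.biUnion fun S => S.1

lemma supp_vts (v : Ch Q →₀ k) : Supp (InU (vts v : Set Q)) v := by
  intro S hS
  by_contra hne
  apply hS
  intro x hx
  exact Finset.mem_biUnion.mpr ⟨S, Finsupp.mem_support_iff.mpr hne, hx⟩

lemma vts_sub {U : Set Q} {v : Ch Q →₀ k} (hv : Supp (InU U) v) : (vts v : Set Q) ⊆ U := by
  intro x hx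
  rw [vts, Finset.mem_coe, Finset.mem_biUnion] at hx
  obtain ⟨S, hS, hxS⟩ := hx
  exact hv.mem hS hxS

end

end Pool.Agent.Helper43.SP.FK
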