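import Pool.Agent.Helper43.SP.Ultra
import Pool.Agent.Helper43.SP.Push

/-!
The periodic points of an order automorphism of a poset of bounded length form an acyclic poset, if
the ultrapower is acyclic.
-/

set_option autoImplicit false

namespace Pool.Agent.Helper43.SP.FK

open Filter
open scoped Classical

noncomputable section

variable {k : Type*} [Field k] {Q : Type*} [PartialOrder Q] (F : Q ≃o Q)

/-- the poset of periodic points -/
abbrev PK := {y : Q // ∃ e, 0 < e ∧ F^[e] y = y}

/-- the diagonal embedding -/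
def dg (y : PK F) : UP Q := umk fun _ => y.1

lemma rp_dg (y : PK F) : ∀ᶠ i in UU, rp (dg F y) i = y.1 := rp_umk _

lemma OE_dg (Y : Set (PK F)) : OE (dg F) Y := by
  intro x _ y _
  unfold dg
  rw [umk_le, eventually_const]
  exact Iff.rfl

lemma finLen_sub {Q : Type*} [PartialOrder Q] (hn : FinLen Q) (p : Q → Prop) :
    FinLen {y : Q // p y} := by
  obtain ⟨n, hn⟩ := hn
  refine ⟨n, fun S => ?_⟩
  have h : OE (fun y : {y : Q // p y} => y.1) (S.1 : Set {y : Q // p y}) :=
    fun x _ y _ => Iff.rfl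
  have h1 := hn (imCh (fun y : {y : Q // p y} => y.1) S h)
  rw [imCh_coe, Finset.card_image_of_injOn h.injOn] at h1
  exact h1

lemma dl_ne_zero {ι : Type*} (i : ι) : dl k i ≠ 0 := by
  intro h
  have := congrArg (fun v : ι →₀ k => v i) h
  simp only [dl_self, Finsupp.coe_zero, Pi.zero_apply] at this
  exact one_ne_zero this

lemma common_period (Y : Finset (PK F)) : ∃ m, 0 < m ∧ ∀ y ∈ Y, F^[m] y.1 = y.1 := by
  induction Y using Finset.induction_on with
  | empty => exact ⟨1, one_pos, by simp⟩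
  | insert y Y _ ih =>
    obtain ⟨m, hm, h⟩ := ih
    obtain ⟨e, he, hy⟩ := y.2
    refine ⟨m * e, Nat.mul_pos hm he, fun x hx => ?_⟩
    rcases Finset.mem_insert.mp hx with rfl | hx
    · rw [mul_comm, Function.iterate_mul]
      exact Function.iterate_fixed hy m
    · rw [Function.iterate_mul]
      exact Function.iterate_fixed (h x hx) e

lemma tt_dg (m a : ℕ) (y : PK F) (hy : F^[m] y.1 = y.1) : tt F m a (dg F y) = dg F y := by
  apply uext
  unfold tt
  filter_upwards [rp_UT F (Nseq m a) (dg F y), rp_dg F y] with i h1 h2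
  rw [h1, h2]
  unfold Nseq
  rw [Function.iterate_mul]
  exact Function.iterate_fixed hy _

lemma rank_tt (hn : FinLen Q) (hex : Exact k (UP Q)) (m : ℕ) (hm : 0 < m) (z : Ch (UP Q) →₀ k)
    (hfixz : ∀ a, act (mapCh (tt F m a)) z = z) (i : ℕ) (hzi : Hom i z)
    (hdz : bd k (UP Q) z = 0) : ∃ w : Ch (UP Q) →₀ k, Supp (InU (X0 F)) w ∧ bd k (UP Q) w = z :=
  rank_theorem (tt F m) (X0 F) (tt_comm F m) (tt_st F m)
    (fun j S hS M hM g hg => tt_free F m hm j S hS M hM g hg) (finLen_UP hn) hex z hfixz i hzi hdz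

include F in
lemma nonempty_PK (k : Type*) [Field k] (hn : FinLen Q) (hex : Exact k (UP Q)) :
    Nonempty (PK F) := by
  have hemp : ∀ g : UP Q ≃o UP Q, mapCh g emp = emp := by
    intro g
    apply Subtype.ext
    rw [mapCh_coe]
    simp [emp]
  obtain ⟨w, hw, hbw⟩ := rank_tt (k := k) F hn hex 1 one_pos (dl k emp)
    (fun a => by rw [act_dl, hemp]) 0
    (Supp.dl (R := fun S : Ch (UP Q) => S.1.card = 0) (by simp [emp])) bd_emp
  have hne : (X0 F).Nonempty := by
    by_contra hne
    rw [Set.not_nonempty_iff_eq_empty] at hne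
    have h0 := Supp.eq (A := bd k (UP Q)) (B := 0) (R := InU (X0 F)) (fun S hS => by
      have : S = emp := by
        apply Subtype.ext
        change S.1 = ∅
        rw [Finset.eq_empty_iff_forall_notMem]
        intro x hx
        have := hS hx
        rw [hne] at this
        exact this
      rw [this, bd_emp]
      rfl) hw
    rw [hbw] at h0
    exact dl_ne_zero _ h0
  obtain ⟨y, hy⟩ := hne
  have hy' : ∀ᶠ i in UU, ∃ e, 0 < e ∧ F^[e] (rp y i) = rp y i := hy
  obtain ⟨i, hi⟩ := hy'.exists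
  exact ⟨⟨rp y i, hi⟩⟩

/-- The periodic part is acyclic. -/
theorem per_exact (hn : FinLen Q) (hex : Exact k (UP Q)) :
    GEx k (Set.univ : Set (PK F)) := by
  intro i z _ hzi hdz
  obtain ⟨k0⟩ := nonempty_PK F k hn hex
  obtain ⟨m, hm, hmz⟩ := common_period F (vts z)
  have hz' := supp_vts z
  set z' : Ch (UP Q) →₀ k := push k (dg F) z with hz'def
  have hbz' : bd k (UP Q) z' = 0 := by
    rw [hz'def, bd_push (OE_dg F _) hz', hdz, map_zero]
  obtain ⟨w, hw, hbw⟩ := rank_tt F hn hex m hm z'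
    (fun a => act_push (OE_dg F _) _ (fun y hy => tt_dg F m a y (hmz y hy)) hz') i
    (hom_push (OE_dg F _) hz' hzi) hbz'
  set Y : Finset (UP Q) := vts w ∪ (vts z).image (dg F) with hY
  have hev1 : ∀ᶠ i in UU, ∀ y ∈ Y, ∃ e, 0 < e ∧ F^[e] (rp y i) = rp y i := by
    rw [Filter.eventually_all_finset]
    intro y hy
    rcases Finset.mem_union.mp hy with hy | hy
    · exact vts_sub hw hy
    · obtain ⟨x, _, rfl⟩ := Finset.mem_image.mp hy
      filter_upwards [rp_dg F x] with i hi
      rw [hi]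
      exact x.2
  have hev2 : ∀ᶠ i in UU, ∀ x ∈ vts z, rp (dg F x) i = x.1 := by
    rw [Filter.eventually_all_finset]
    intro x _
    exact rp_dg F x
  obtain ⟨i0, ⟨h1, h2⟩, h3⟩ := ((hev1.and hev2).and (ufin Y)).exists
  set ev : UP Q → PK F := fun y =>
    if h : ∃ e, 0 < e ∧ F^[e] (rp y i0) = rp y i0 then ⟨rp y i0, h⟩ else k0 with hev
  have hevY : ∀ y ∈ Y, (ev y).1 = rp y i0 := by
    intro y hy
    rw [hev]
    dsimp only
    rw [dif_pos (h1 y hy)]
  have hOE : OE ev (Y : Set (UP Q)) := by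
    intro x hx y hy
    rw [← Subtype.coe_le_coe, hevY x hx, hevY y hy]
    exact h3 x hx y hy
  have hsub : (vts w : Set (UP Q)) ⊆ (Y : Set (UP Q)) := by
    intro y hy
    exact Finset.mem_union_left _ hy
  have hevd : ∀ x ∈ (vts z : Set (PK F)), ev (dg F x) = x := by
    intro x hx
    apply Subtype.ext
    rw [hevY _ (Finset.mem_union_right _ (Finset.mem_image_of_mem _ hx))]
    exact h2 x hx
  have hW : bd k (PK F) (push k ev w) = z := by
    rw [bd_push (hOE.mono hsub) (supp_vts w), hbw, hz'def,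
      push_push (e'' := fun x => x) (OE_dg F (vts z : Set (PK F)))
        (fun x hx => (Finset.mem_union_right _ (Finset.mem_image_of_mem _ hx) :
          dg F x ∈ Y)) hOE (fun x _ y _ => Iff.rfl) hevd hz', push_id]
  refine ⟨pr k (i + 1) (push k ev w), fun S hS => absurd (Set.subset_univ _) hS, hom_pr _ _, ?_⟩
  rw [bd_pr, hW, pr_of_hom hzi]

end

end Pool.Agent.Helper43.SP.FK
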