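import Pool.Agent.Helper43.SP.SmithLF
import Pool.Agent.Helper43.SP.Per

/-!
The `p`-adic part of the action of an order automorphism on its periodic points.
-/

set_option autoImplicit false

namespace Pool.Agent.Helper43.SP.FK

open scoped Classical

noncomputable section

/-- product of the numbers up to `i` prime to `p` -/
def BB (p i : ℕ) : ℕ := ∏ b ∈ (Finset.range (i + 1)).filter (fun b => ¬ p ∣ b), b

/-- exponents converging to the `p`-adic idempotent -/
def Nth (p i : ℕ) : ℕ := BB p i ^ Nat.totient (p ^ (i + 1))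

lemma dvd_Nth {p b i : ℕ} (hp : p.Prime) (hb : ¬ p ∣ b) (hbi : b ≤ i) : b ∣ Nth p i := by
  have h1 : b ∣ BB p i := by
    unfold BB
    exact Finset.dvd_prod_of_mem (fun b => b)
      (Finset.mem_filter.mpr ⟨Finset.mem_range.mpr (by omega), hb⟩)
  unfold Nth
  exact h1.trans (dvd_pow_self _ (Nat.totient_pos.mpr (pow_pos hp.pos _)).ne')

lemma coprime_BB {p : ℕ} (hp : p.Prime) (i : ℕ) : Nat.Coprime (BB p i) p := by
  unfold BB
  refine Nat.Coprime.prod_left fun b hb => ?_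
  exact ((Nat.Prime.coprime_iff_not_dvd hp).mpr (Finset.mem_filter.mp hb).2).symm

lemma Nth_modEq_one {p : ℕ} (hp : p.Prime) (i : ℕ) : Nth p i ≡ 1 [MOD p ^ (i + 1)] :=
  Nat.ModEq.pow_totient ((coprime_BB hp i).pow_right _)

lemma not_dvd_Nth {p : ℕ} (hp : p.Prime) (i : ℕ) : ¬ p ∣ Nth p i := by
  unfold Nth
  intro h
  have h1 := hp.dvd_of_dvd_pow h
  exact (Nat.Prime.coprime_iff_not_dvd hp).mp (coprime_BB hp i).symm h1

lemma Nth_congr {p : ℕ} (hp : p.Prime) {e : ℕ} (he : 0 < e) {i i' : ℕ} (hi : e ≤ i)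
    (hi' : e ≤ i') : Nth p i ≡ Nth p i' [MOD e] := by
  obtain ⟨a, b, hb, rfl⟩ := Nat.exists_eq_pow_mul_and_not_dvd he.ne' p hp.ne_one
  have hb0 : 0 < b := Nat.pos_of_ne_zero (by rintro rfl; simp at he)
  have hpa : 0 < p ^ a := pow_pos hp.pos _
  have hae : a ≤ p ^ a * b :=
    (Nat.lt_pow_self hp.one_lt).le.trans (Nat.le_mul_of_pos_right _ hb0)
  have hbe : b ≤ p ^ a * b := Nat.le_mul_of_pos_left _ hpa
  have hcop : Nat.Coprime (p ^ a) b :=
    Nat.Coprime.pow_left a ((Nat.Prime.coprime_iff_not_dvd hp).mpr hb)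
  rw [← Nat.modEq_and_modEq_iff_modEq_mul hcop]
  constructor
  · have h1 : ∀ j, a ≤ j → Nth p j ≡ 1 [MOD p ^ a] := fun j hj =>
      (Nth_modEq_one hp j).of_dvd (pow_dvd_pow p (by omega))
    exact (h1 i (by omega)).trans (h1 i' (by omega)).symm
  · have h1 : ∀ j, b ≤ j → Nth p j ≡ 0 [MOD b] := fun j hj =>
      (Nat.modEq_zero_iff_dvd).mpr (dvd_Nth hp hb hj)
    exact (h1 i (by omega)).trans (h1 i' (by omega)).symm

variable {Q : Type*} [PartialOrder Q] (F : Q ≃o Q) {p : ℕ} (hp : p.Prime)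

omit [PartialOrder Q] in
lemma iter_congr (F : Q → Q) {e N N' : ℕ} {y : Q} (hy : F^[e] y = y) (h : N ≡ N' [MOD e]) :
    F^[N] y = F^[N'] y := by
  have hy' : Function.IsPeriodicPt F e y := hy
  rw [← hy'.iterate_mod_apply N, ← hy'.iterate_mod_apply N', h]

lemma per_iter {e : ℕ} {y : Q} (hy : F^[e] y = y) (N : ℕ) : F^[e] (F^[N] y) = F^[N] y := by
  rw [← Function.iterate_add_apply, add_comm, Function.iterate_add_apply, hy]

/-- the `p`-adic part, as a map -/
def gg (p : ℕ) (y : PK F) : PK F :=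
  ⟨F^[Nth p y.2.choose] y.1, y.2.choose, y.2.choose_spec.1, per_iter F y.2.choose_spec.2 _⟩

include hp in
lemma gg_eq {y : PK F} {e : ℕ} (he : 0 < e) (hy : F^[e] y.1 = y.1) {i : ℕ} (hi : e ≤ i) :
    (gg F p y).1 = F^[Nth p i] y.1 := by
  change F^[Nth p y.2.choose] y.1 = F^[Nth p i] y.1
  obtain ⟨h1, h2⟩ := y.2.choose_spec
  rw [iter_congr F h2 (Nth_congr hp h1 le_rfl (le_max_left _ i)),
    iter_congr F hy (Nth_congr hp he (hi.trans (le_max_right _ i)) hi)]

include hp in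
lemma gg_le (y y' : PK F) : gg F p y ≤ gg F p y' ↔ y ≤ y' := by
  obtain ⟨e, he, hy⟩ := y.2
  obtain ⟨e', he', hy'⟩ := y'.2
  rw [← Subtype.coe_le_coe, ← Subtype.coe_le_coe,
    gg_eq F hp he hy (le_max_left e e'), gg_eq F hp he' hy' (le_max_right e e')]
  exact (itIso F _).le_iff_le

include hp in
lemma gg_surj : Function.Surjective (gg F p) := by
  intro y
  obtain ⟨e, he, hy⟩ := y.2
  set x : PK F := ⟨F^[(e - 1) * Nth p e] y.1, e, he, per_iter F hy _⟩ with hx
  refine ⟨x, ?_⟩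
  apply Subtype.ext
  rw [gg_eq F hp (y := x) he (per_iter F hy _) le_rfl]
  change F^[Nth p e] (F^[(e - 1) * Nth p e] y.1) = y.1
  rw [← Function.iterate_add_apply]
  have h1 : Nth p e + (e - 1) * Nth p e = e * Nth p e := by
    obtain ⟨c, rfl⟩ : ∃ c, e = c + 1 := ⟨e - 1, by omega⟩
    rw [Nat.add_sub_cancel]
    ring
  rw [h1, Function.iterate_mul]
  exact Function.iterate_fixed hy _

/-- the `p`-adic part, as an order automorphism -/
def gI : PK F ≃o PK F :=
  RelIso.ofSurjective (OrderEmbedding.ofMapLEIff (gg F p) (gg_le F hp)) (gg_surj F hp)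

lemma gI_apply (y : PK F) : gI F hp y = gg F p y := rfl

include hp in
lemma gg_iter {y : PK F} {e : ℕ} (he : 0 < e) (hy : F^[e] y.1 = y.1) {i : ℕ} (hi : e ≤ i)
    (m : ℕ) : ((gg F p)^[m] y).1 = F^[m * Nth p i] y.1 := by
  induction m with
  | zero => simp
  | succ m ih =>
    rw [Function.iterate_succ_apply']
    have h1 : F^[e] ((gg F p)^[m] y).1 = ((gg F p)^[m] y).1 := by
      rw [ih]
      exact per_iter F hy _
    rw [gg_eq F hp he h1 hi, ih, ← Function.iterate_add_apply]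
    congr 2
    ring

lemma gI_pper (y : PK F) : ∃ a, (gI F hp)^[p ^ a] y = y := by
  obtain ⟨e, he, hy⟩ := y.2
  obtain ⟨a, b, hb, hab⟩ := Nat.exists_eq_pow_mul_and_not_dvd he.ne' p hp.ne_one
  refine ⟨a, ?_⟩
  apply Subtype.ext
  have h1 := gg_iter F hp he hy le_rfl (p ^ a)
  refine Eq.trans h1 ?_
  have hbe : b ≤ e := by
    rw [hab]
    exact Nat.le_mul_of_pos_left _ (pow_pos hp.pos _)
  obtain ⟨c, hc⟩ := dvd_Nth hp hb hbe
  rw [hc, ← mul_assoc, ← hab, Function.iterate_mul]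
  exact Function.iterate_fixed hy _

lemma gI_fix (y : PK F) : gI F hp y = y ↔ ∃ j, ¬ p ∣ j ∧ F^[j] y.1 = y.1 := by
  rw [gI_apply]
  constructor
  · intro h
    obtain ⟨e, he, hy⟩ := y.2
    refine ⟨Nth p e, not_dvd_Nth hp e, ?_⟩
    rw [← gg_eq F hp he hy le_rfl, h]
  · rintro ⟨j, hj, hy⟩
    have hj0 : 0 < j := Nat.pos_of_ne_zero (by rintro rfl; exact hj (dvd_zero p))
    apply Subtype.ext
    rw [gg_eq F hp hj0 hy le_rfl]
    obtain ⟨c, hc⟩ := dvd_Nth hp hj (le_refl j)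
    rw [hc, Function.iterate_mul]
    exact Function.iterate_fixed hy _

/-- the automorphism on the periodic points -/
def FP : PK F ≃o PK F where
  toFun y := ⟨F y.1, by
    obtain ⟨e, he, hy⟩ := y.2
    exact ⟨e, he, per_iter F hy 1⟩⟩
  invFun y := ⟨F.symm y.1, by
    obtain ⟨e, he, hy⟩ := y.2
    refine ⟨e, he, F.injective ?_⟩
    have h : F (F^[e] (F.symm y.1)) = F^[e] (F (F.symm y.1)) := by
      rw [← Function.iterate_succ_apply' F e, Function.iterate_succ_apply]
    rw [h, F.apply_symm_apply, hy]⟩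
  left_inv y := Subtype.ext (F.symm_apply_apply y.1)
  right_inv y := Subtype.ext (F.apply_symm_apply y.1)
  map_rel_iff' := by
    intro y y'
    exact F.le_iff_le

lemma FP_coe (y : PK F) : (FP F y).1 = F y.1 := rfl

include hp in
/-- An order automorphism of a poset of bounded length with acyclic ultrapower has a fixed point, if
it has finitely many points of period prime to `p`. -/
theorem fixed_of_finite (k : Type*) [Field k] [CharP k p] (hn : FinLen Q) (hex : Exact k (UP Q))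
    (hfin : {y : Q | ∃ j, ¬ p ∣ j ∧ F^[j] y = y}.Finite) : ∃ y, F y = y := by
  have hnK : FinLen (PK F) := finLen_sub hn _
  have h1 : GEx k {x : PK F | gI F hp x = x} :=
    smithLF (gI F hp) hp (gI_pper F hp) hnK (per_exact F hn hex)
  obtain ⟨M, hM1, hM2⟩ := exists_contraction _ (h1.exOn hnK)
  have hU : {x : PK F | gI F hp x = x}.Finite := by
    refine Set.Finite.of_finite_image (f := Subtype.val) (hfin.subset ?_)
      Subtype.val_injective.injOn
    rintro _ ⟨x, hx, rfl⟩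
    exact (gI_fix F hp x).mp hx
  obtain ⟨x, _, hx⟩ := exists_fixed (FP F) {x : PK F | gI F hp x = x} hU
    (fun x hx => by
      rw [Set.mem_ofPred_eq, gI_fix] at hx ⊢
      obtain ⟨j, hj, hjx⟩ := hx
      exact ⟨j, hj, per_iter F hjx 1⟩) M hM1 hM2
  exact ⟨x.1, congrArg Subtype.val hx⟩

end

end Pool.Agent.Helper43.SP.FK
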