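import Pool.Agent.Helper43.SP.L1

/-!
Finite chains of a poset, the boundary operator, cones and the filling recursion.
-/

set_option autoImplicit false

namespace Pool.Agent.Helper43.SP

open Filter Topology
open scoped ENNReal Classical

noncomputable section

/-- finite chains (including the empty one) -/
abbrev Ch (Q : Type*) [PartialOrder Q] := {S : Finset Q // IsChain (· ≤ ·) (S : Set Q)}

/-- bounded length -/
def FinLen (Q : Type*) [PartialOrder Q] : Prop := ∃ n : ℕ, ∀ S : Ch Q, S.1.card ≤ n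

variable {Q : Type*} [PartialOrder Q]

/-- the empty chain -/
def emp : Ch Q := ⟨∅, by simp⟩

/-- erase an element -/
def er (S : Ch Q) (x : Q) : Ch Q :=
  ⟨S.1.erase x, S.2.mono (by rw [Finset.coe_erase]; exact Set.sdiff_subset)⟩

lemma er_coe (S : Ch Q) (x : Q) : (er S x).1 = S.1.erase x := rfl

lemma er_comm (S : Ch Q) (x y : Q) : er (er S x) y = er (er S y) x := by
  apply Subtype.ext
  simp only [er_coe]
  exact Finset.erase_right_comm

lemma ch_ind {P : Ch Q → Prop} (h : ∀ S, (∀ x ∈ S.1, P (er S x)) → P S) (S : Ch Q) : P S := by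
  induction hk : S.1.card using Nat.strong_induction_on generalizing S with
  | _ k ih =>
    refine h S fun x hx => ?_
    refine ih (er S x).1.card ?_ (er S x) rfl
    rw [← hk]
    exact Finset.card_erase_lt_of_mem hx

/-- sign of a face -/
def sgn (S : Ch Q) (x : Q) : ℝ := (-1) ^ (S.1.filter (· < x)).card

lemma abs_sgn (S : Ch Q) (x : Q) : |sgn S x| = 1 := by
  unfold sgn
  rw [abs_pow, abs_neg, abs_one, one_pow]

lemma sgn_er_of_lt (S : Ch Q) {x y : Q} (hx : x ∈ S.1) (hxy : x < y) :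
    sgn (er S x) y = - sgn S y := by
  unfold sgn
  have h1 : (er S x).1.filter (· < y) = (S.1.filter (· < y)).erase x := by
    ext z
    simp only [er_coe, Finset.mem_filter, Finset.mem_erase]
    tauto
  have h2 : x ∈ S.1.filter (· < y) := Finset.mem_filter.mpr ⟨hx, hxy⟩
  rw [h1]
  have h3 := Finset.card_erase_add_one h2
  rw [← h3, pow_succ]
  ring

lemma sgn_er_of_not_lt (S : Ch Q) {x y : Q} (hxy : ¬ x < y) :
    sgn (er S x) y = sgn S y := by
  unfold sgn
  have h1 : (er S x).1.filter (· < y) = S.1.filter (· < y) := by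
    ext z
    simp only [er_coe, Finset.mem_filter, Finset.mem_erase]
    constructor
    · rintro ⟨⟨_, h⟩, h'⟩
      exact ⟨h, h'⟩
    · rintro ⟨h, h'⟩
      refine ⟨⟨?_, h⟩, h'⟩
      rintro rfl
      exact hxy h'
  rw [h1]

lemma sum_sgn_sgn {W : Type*} [AddCommGroup W] [Module ℝ W] (S : Ch Q) (G : Ch Q → W) :
    ∑ x ∈ S.1, sgn S x • ∑ y ∈ (er S x).1, sgn (er S x) y • G (er (er S x) y) = 0 := by
  simp only [Finset.smul_sum, smul_smul]
  rw [Finset.sum_sigma']
  refine Finset.sum_involution (fun a _ => ⟨a.2, a.1⟩) ?_ ?_ ?_ ?_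
  · rintro ⟨x, y⟩ hxy
    simp only [Finset.mem_sigma, er_coe, Finset.mem_erase] at hxy
    obtain ⟨hx, hyx, hy⟩ := hxy
    dsimp only
    rw [er_comm S y x, ← add_smul]
    have key : sgn S x * sgn (er S x) y + sgn S y * sgn (er S y) x = 0 := by
      rcases S.2 hx hy (Ne.symm hyx) with h | h
      · have hlt : x < y := lt_of_le_of_ne h (Ne.symm hyx)
        rw [sgn_er_of_lt S hx hlt, sgn_er_of_not_lt S (not_lt_of_gt hlt)]
        ring
      · have hlt : y < x := lt_of_le_of_ne h hyx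
        rw [sgn_er_of_lt S hy hlt, sgn_er_of_not_lt S (not_lt_of_gt hlt)]
        ring
    rw [key, zero_smul]
  · rintro ⟨x, y⟩ hxy _ h
    simp only [Finset.mem_sigma, er_coe, Finset.mem_erase] at hxy
    simp only [Sigma.mk.injEq] at h
    exact hxy.2.1 h.1
  · rintro ⟨x, y⟩ hxy
    simp only [Finset.mem_sigma, er_coe, Finset.mem_erase] at hxy ⊢
    exact ⟨hxy.2.2, Ne.symm hxy.2.1, hxy.1⟩
  · rintro ⟨x, y⟩ _
    rfl

/-- boundary columns -/
def bdc (S : Ch Q) : L1 (Ch Q) := ∑ x ∈ S.1, sgn S x • dl (er S x)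

/-- boundary operator -/
def bd : L1 (Ch Q) →L[ℝ] L1 (Ch Q) := opOf bdc

lemma bdc_bounded (hn : FinLen Q) : ∃ C, ∀ S : Ch Q, ‖bdc S‖ ≤ C := by
  obtain ⟨n, hn⟩ := hn
  refine ⟨n, fun S => ?_⟩
  unfold bdc
  refine (norm_sum_le_of_le _ (f := fun x => sgn S x • dl (er S x)) (n := fun _ => (1 : ℝ))
    (fun x _ => ?_)).trans ?_
  · rw [norm_smul, norm_dl, Real.norm_eq_abs, abs_sgn, mul_one]
  · simp only [Finset.sum_const, nsmul_eq_mul, mul_one]
    exact_mod_cast hn S

lemma bd_dl (hn : FinLen Q) (S : Ch Q) : bd (dl S) = ∑ x ∈ S.1, sgn S x • dl (er S x) :=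
  opOf_dl _ (bdc_bounded hn) S

lemma bd_bd (hn : FinLen Q) (v : L1 (Ch Q)) : bd (bd v) = 0 := by
  have : (bd (Q := Q)).comp bd = 0 := by
    refine ext_dl fun S => ?_
    rw [ContinuousLinearMap.comp_apply, bd_dl hn, map_sum]
    simp only [map_smul, bd_dl hn]
    exact sum_sgn_sgn S (fun S => dl S)
  exact congrArg (fun A : L1 (Ch Q) →L[ℝ] L1 (Ch Q) => A v) this

/-- cone columns -/
def cnc (p : Q) (S : Ch Q) : L1 (Ch Q) :=
  if h : p ∉ S.1 ∧ IsChain (· ≤ ·) ((insert p S.1 : Finset Q) : Set Q) then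
    dl (⟨insert p S.1, h.2⟩ : Ch Q) else 0

lemma norm_cnc_le (p : Q) (S : Ch Q) : ‖cnc p S‖ ≤ 1 := by
  unfold cnc
  split_ifs
  · rw [norm_dl]
  · simp

/-- cone operator -/
def cn (p : Q) : L1 (Ch Q) →L[ℝ] L1 (Ch Q) := opOf (cnc p)

lemma cn_dl (p : Q) (S : Ch Q) : cn p (dl S) = cnc p S := opOf_dl _ ⟨1, norm_cnc_le p⟩ S

lemma norm_cn_le (p : Q) (v : L1 (Ch Q)) : ‖cn p v‖ ≤ ‖v‖ := by
  have := norm_opOf_le (cnc p) 1 (norm_cnc_le p) v
  rwa [one_mul] at this

/-- chains above `p` -/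
def Up (p : Q) (v : L1 (Ch Q)) : Prop := Supp (fun S : Ch Q => ∀ x ∈ S.1, p ≤ x) v

/-- chains with at least `d` elements -/
def Deg (d : ℕ) (v : L1 (Ch Q)) : Prop := Supp (fun S : Ch Q => d ≤ S.1.card) v

lemma Up.mono {p q : Q} (h : p ≤ q) {v : L1 (Ch Q)} (hv : Up q v) : Up p v :=
  Supp.mono (fun _ hS x hx => h.trans (hS x hx)) hv

lemma Deg.mono {d e : ℕ} (h : d ≤ e) {v : L1 (Ch Q)} (hv : Deg e v) : Deg d v :=
  Supp.mono (fun _ hS => h.trans hS) hv

lemma isChain_insert {p : Q} {S : Ch Q} (h : ∀ x ∈ S.1, p ≤ x) :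
    IsChain (· ≤ ·) ((insert p S.1 : Finset Q) : Set Q) := by
  rw [Finset.coe_insert]
  exact S.2.insert fun b hb _ => Or.inl (h b hb)

lemma up_cn {p : Q} {v : L1 (Ch Q)} (hv : Up p v) : Up p (cn p v) := by
  refine Supp.map (fun S hS => ?_) hv
  rw [cn_dl]
  unfold cnc
  split_ifs with h
  · refine Supp.dl fun x hx => ?_
    rcases Finset.mem_insert.mp hx with rfl | hx
    · exact le_rfl
    · exact hS x hx
  · exact Supp.zero _

lemma deg_cn (p : Q) {d : ℕ} {v : L1 (Ch Q)} (hv : Deg d v) : Deg (d + 1) (cn p v) := by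
  refine Supp.map (fun S hS => ?_) hv
  rw [cn_dl]
  unfold cnc
  split_ifs with h
  · refine Supp.dl ?_
    rw [Finset.card_insert_of_notMem h.1]
    omega
  · exact Supp.zero _

lemma deg_bd (hn : FinLen Q) {d : ℕ} {v : L1 (Ch Q)} (hv : Deg (d + 1) v) : Deg d (bd v) := by
  refine Supp.map (fun S hS => ?_) hv
  rw [bd_dl hn]
  refine Supp.sum _ _ fun x hx => Supp.smul _ (Supp.dl ?_)
  rw [er_coe, Finset.card_erase_of_mem hx]
  omega

lemma bd_cn_dl (hn : FinLen Q) (p : Q) (S : Ch Q) (hS : ∀ x ∈ S.1, p ≤ x) :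
    bd (cn p (dl S)) + cn p (bd (dl S)) = dl S := by
  have hsg : sgn S p = 1 := by
    unfold sgn
    have : S.1.filter (· < p) = ∅ := by
      rw [Finset.filter_eq_empty_iff]
      intro x hx h
      exact absurd (hS x hx) (not_le_of_gt h)
    rw [this]
    simp
  by_cases hp : p ∈ S.1
  · have h1 : cnc p S = 0 := by
      unfold cnc
      rw [dif_neg]
      rintro ⟨h, _⟩
      exact h hp
    rw [cn_dl, h1, map_zero, zero_add, bd_dl hn, map_sum]
    rw [Finset.sum_eq_single p]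
    · rw [map_smul, hsg, one_smul, cn_dl]
      unfold cnc
      have h2 : p ∉ (er S p).1 := by simp [er_coe]
      have h3 : insert p (er S p).1 = S.1 := by rw [er_coe, Finset.insert_erase hp]
      have h4 : IsChain (· ≤ ·) ((insert p (er S p).1 : Finset Q) : Set Q) := by
        rw [h3]; exact S.2
      rw [dif_pos ⟨h2, h4⟩]
      congr 1
      exact Subtype.ext h3
    · intro x hx hxp
      rw [map_smul, cn_dl]
      have : cnc p (er S x) = 0 := by
        unfold cnc
        rw [dif_neg]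
        rintro ⟨h, _⟩
        apply h
        rw [er_coe, Finset.mem_erase]
        exact ⟨Ne.symm hxp, hp⟩
      rw [this, smul_zero]
    · intro h
      exact absurd hp h
  · have hc := isChain_insert hS
    set T : Ch Q := ⟨insert p S.1, hc⟩ with hT
    have h1 : cnc p S = dl T := by
      unfold cnc
      rw [dif_pos ⟨hp, hc⟩]
    rw [cn_dl, h1, bd_dl hn, bd_dl hn, map_sum]
    have hTs : T.1 = insert p S.1 := rfl
    rw [hTs, Finset.sum_insert hp]
    have h2 : sgn T p = 1 := by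
      unfold sgn
      have : T.1.filter (· < p) = ∅ := by
        rw [Finset.filter_eq_empty_iff]
        intro x hx h
        rcases Finset.mem_insert.mp hx with rfl | hx
        · exact lt_irrefl _ h
        · exact absurd (hS x hx) (not_le_of_gt h)
      rw [this]
      simp
    have h3 : er T p = S := by
      apply Subtype.ext
      rw [er_coe, hTs, Finset.erase_insert hp]
    rw [h2, one_smul, h3, add_assoc, ← Finset.sum_add_distrib]
    have h4 : ∑ x ∈ S.1, (sgn T x • dl (er T x) + cn p (sgn S x • dl (er S x))) = 0 := by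
      refine Finset.sum_eq_zero fun x hx => ?_
      have hpx : p < x := lt_of_le_of_ne (hS x hx) (by rintro rfl; exact hp hx)
      have h5 : sgn S x = - sgn T x := by
        rw [← sgn_er_of_lt T (x := p) (Finset.mem_insert_self _ _) hpx, h3]
      rw [map_smul, cn_dl, h5, neg_smul]
      have h6 : cnc p (er S x) = dl (er T x) := by
        unfold cnc
        have h7 : p ∉ (er S x).1 := by
          rw [er_coe, Finset.mem_erase]
          rintro ⟨_, h⟩
          exact hp h
        have h8 : insert p (er S x).1 = (er T x).1 := by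
          rw [er_coe, er_coe, hTs, Finset.erase_insert_of_ne hpx.ne]
        have h9 : IsChain (· ≤ ·) ((insert p (er S x).1 : Finset Q) : Set Q) := by
          rw [h8]; exact (er T x).2
        rw [dif_pos ⟨h7, h9⟩]
        congr 1
        exact Subtype.ext h8
      rw [h6, add_neg_cancel]
    rw [h4, add_zero]

lemma bd_cn (hn : FinLen Q) (p : Q) {v : L1 (Ch Q)} (hv : Up p v) :
    bd (cn p v) + cn p (bd v) = v := by
  have := Supp.eq (A := bd.comp (cn p) + (cn p).comp bd) (B := ContinuousLinearMap.id ℝ _)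
    (R := fun S : Ch Q => ∀ x ∈ S.1, p ≤ x) (fun S hS => bd_cn_dl hn p S hS) hv
  exact this

/-! ### the filling recursion -/

/-- The filling recursion. -/
def fill (ε : ℝ) (φ : Ch Q → Q) (g : Ch Q → L1 (Ch Q)) (r0 : L1 (Ch Q)) (S : Ch Q) : L1 (Ch Q) :=
  if S.1 = ∅ then r0 else
    cn (φ S) (g S + ε • ∑ x ∈ S.1.attach, sgn S x.1 • fill ε φ g r0 (er S x.1))
termination_by S.1.card
decreasing_by exact Finset.card_erase_lt_of_mem x.2

variable (ε : ℝ) (φ : Ch Q → Q) (g : Ch Q → L1 (Ch Q)) (r0 : L1 (Ch Q))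

lemma fill_empty {S : Ch Q} (h : S.1 = ∅) : fill ε φ g r0 S = r0 := by
  rw [fill, if_pos h]

lemma fill_ne {S : Ch Q} (h : S.1.Nonempty) :
    fill ε φ g r0 S =
      cn (φ S) (g S + ε • ∑ x ∈ S.1, sgn S x • fill ε φ g r0 (er S x)) := by
  rw [fill, if_neg h.ne_empty]
  rw [Finset.sum_attach S.1 (fun x => sgn S x • fill ε φ g r0 (er S x))]

lemma fill_norm (Cg C0 : ℝ) (hε : |ε| ≤ 1) (k : ℕ) :
    ∃ B : ℝ, ∀ (φ : Ch Q → Q) (g : Ch Q → L1 (Ch Q)) (r0 : L1 (Ch Q)), (∀ T, ‖g T‖ ≤ Cg) →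
      ‖r0‖ ≤ C0 → ∀ S : Ch Q, S.1.card ≤ k → ‖fill ε φ g r0 S‖ ≤ B := by
  induction k with
  | zero =>
    refine ⟨C0, fun φ g r0 _ h0 S hS => ?_⟩
    rw [fill_empty _ _ _ _ (Finset.card_eq_zero.mp (Nat.le_zero.mp hS))]
    exact h0
  | succ k ih =>
    obtain ⟨B, hB⟩ := ih
    refine ⟨max C0 (Cg + (k + 1) * |B|), fun φ g r0 hg h0 S hS => ?_⟩
    rcases Finset.eq_empty_or_nonempty S.1 with he | hne
    · rw [fill_empty _ _ _ _ he]
      exact h0.trans (le_max_left _ _)
    · rw [fill_ne _ _ _ _ hne]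
      refine (norm_cn_le _ _).trans ((norm_add_le _ _).trans (le_trans ?_ (le_max_right _ _)))
      refine add_le_add (hg S) ?_
      rw [norm_smul, Real.norm_eq_abs]
      have h1 : ‖∑ x ∈ S.1, sgn S x • fill ε φ g r0 (er S x)‖ ≤ (k + 1) * |B| := by
        refine (norm_sum_le_of_le _ (n := fun _ => |B|) (fun x hx => ?_)).trans ?_
        · rw [norm_smul, Real.norm_eq_abs, abs_sgn, one_mul]
          refine (hB φ g r0 hg h0 (er S x) ?_).trans (le_abs_self _)
          rw [er_coe, Finset.card_erase_of_mem hx]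
          omega
        · rw [Finset.sum_const, nsmul_eq_mul]
          refine mul_le_mul_of_nonneg_right ?_ (abs_nonneg _)
          exact_mod_cast hS
      calc |ε| * ‖∑ x ∈ S.1, sgn S x • fill ε φ g r0 (er S x)‖
          ≤ 1 * ‖∑ x ∈ S.1, sgn S x • fill ε φ g r0 (er S x)‖ :=
            mul_le_mul_of_nonneg_right hε (norm_nonneg _)
        _ ≤ (k + 1) * |B| := by rw [one_mul]; exact h1

lemma fill_deg (c : ℕ) (hr : Deg c r0) (hg : ∀ T : Ch Q, Deg (T.1.card + c - 1) (g T)) (S : Ch Q) :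
    Deg (S.1.card + c) (fill ε φ g r0 S) := by
  induction S using ch_ind with
  | h S ih =>
    rcases Finset.eq_empty_or_nonempty S.1 with he | hne
    · rw [fill_empty _ _ _ _ he, he, Finset.card_empty, zero_add]
      exact hr
    · rw [fill_ne _ _ _ _ hne]
      have hpos := Finset.card_pos.mpr hne
      have h1 : S.1.card + c = (S.1.card + c - 1) + 1 := by omega
      rw [h1]
      refine deg_cn _ ?_
      refine Supp.add (hg S) (Supp.smul _ (Supp.sum _ _ fun x hx => Supp.smul _ ?_))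
      refine Deg.mono ?_ (ih x hx)
      rw [er_coe, Finset.card_erase_of_mem hx]
      omega

lemma fill_main (hn : FinLen Q) (S : Ch Q)
    (hφ : ∀ T : Ch Q, T.1 ⊆ S.1 → ∀ T' : Ch Q, T'.1 ⊆ T.1 → T'.1.Nonempty → φ T ≤ φ T')
    (hg : ∀ T : Ch Q, T.1 ⊆ S.1 → T.1.Nonempty → Up (φ T) (g T))
    (hr : ∀ T : Ch Q, T.1 ⊆ S.1 → T.1.Nonempty → Up (φ T) r0)
    (hbr : bd r0 = g emp)
    (hbg : ∀ T : Ch Q, T.1 ⊆ S.1 → T.1.Nonempty →
      bd (g T) + ε • ∑ x ∈ T.1, sgn T x • g (er T x) = 0) :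
    ∀ T : Ch Q, T.1 ⊆ S.1 → (T.1.Nonempty → Up (φ T) (fill ε φ g r0 T)) ∧
      bd (fill ε φ g r0 T) = g T + ε • ∑ x ∈ T.1, sgn T x • fill ε φ g r0 (er T x) := by
  intro T
  induction T using ch_ind with
  | h T ih =>
    intro hTS
    rcases Finset.eq_empty_or_nonempty T.1 with he | hne
    · have hTe : T = emp := Subtype.ext he
      refine ⟨fun h => absurd he h.ne_empty, ?_⟩
      rw [fill_empty _ _ _ _ he, he, Finset.sum_empty, smul_zero, add_zero, hTe]
      exact hbr
    · have herS : ∀ x, (er T x).1 ⊆ S.1 := fun x => (Finset.erase_subset _ _).trans hTS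
      have hup : Up (φ T) (g T + ε • ∑ x ∈ T.1, sgn T x • fill ε φ g r0 (er T x)) := by
        refine Supp.add (hg T hTS hne) (Supp.smul _ (Supp.sum _ _ fun x hx => Supp.smul _ ?_))
        rcases Finset.eq_empty_or_nonempty (er T x).1 with he' | hne'
        · rw [fill_empty _ _ _ _ he']
          exact hr T hTS hne
        · exact Up.mono (hφ T hTS (er T x) (Finset.erase_subset _ _) hne')
            ((ih x hx (herS x)).1 hne')
      refine ⟨fun _ => ?_, ?_⟩
      · rw [fill_ne _ _ _ _ hne]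
        exact up_cn hup
      · conv_lhs => rw [fill_ne _ _ _ _ hne]
        have h1 := bd_cn hn (φ T) hup
        have h2 : bd (g T + ε • ∑ x ∈ T.1, sgn T x • fill ε φ g r0 (er T x)) = 0 := by
          rw [map_add, map_smul, map_sum]
          have h3 : ∑ x ∈ T.1, bd (sgn T x • fill ε φ g r0 (er T x)) =
              ∑ x ∈ T.1, sgn T x • g (er T x) + ε • ∑ x ∈ T.1, sgn T x •
                ∑ y ∈ (er T x).1, sgn (er T x) y • fill ε φ g r0 (er (er T x) y) := by
            rw [Finset.smul_sum, ← Finset.sum_add_distrib]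
            refine Finset.sum_congr rfl fun x hx => ?_
            rw [map_smul, (ih x hx (herS x)).2, smul_add, smul_comm ε]
          rw [h3, sum_sgn_sgn T (fun U => fill ε φ g r0 U), smul_zero, add_zero]
          exact hbg T hTS hne
        rw [h2, map_zero, add_zero] at h1
        exact h1

/-! ### order automorphisms -/

/-- action of an order automorphism on chains -/
def mapCh (G : Q ≃o Q) : Ch Q ≃ Ch Q where
  toFun S := ⟨S.1.map G.toEquiv.toEmbedding, by
    rw [Finset.coe_map]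
    intro a ha b hb hab
    obtain ⟨x, hx, rfl⟩ := ha
    obtain ⟨y, hy, rfl⟩ := hb
    have hxy : x ≠ y := by rintro rfl; exact hab rfl
    rcases S.2 hx hy hxy with h | h
    · exact Or.inl (G.monotone h)
    · exact Or.inr (G.monotone h)⟩
  invFun S := ⟨S.1.map G.symm.toEquiv.toEmbedding, by
    rw [Finset.coe_map]
    intro a ha b hb hab
    obtain ⟨x, hx, rfl⟩ := ha
    obtain ⟨y, hy, rfl⟩ := hb
    have hxy : x ≠ y := by rintro rfl; exact hab rfl
    rcases S.2 hx hy hxy with h | h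
    · exact Or.inl (G.symm.monotone h)
    · exact Or.inr (G.symm.monotone h)⟩
  left_inv S := by
    apply Subtype.ext
    ext x
    simp
  right_inv S := by
    apply Subtype.ext
    ext x
    simp

variable (G : Q ≃o Q)

lemma mapCh_coe (S : Ch Q) : (mapCh G S).1 = S.1.map G.toEquiv.toEmbedding := rfl

lemma mem_mapCh (S : Ch Q) (x : Q) : G x ∈ (mapCh G S).1 ↔ x ∈ S.1 := by
  rw [mapCh_coe, Finset.mem_map]
  constructor
  · rintro ⟨y, hy, h⟩
    have : y = x := G.injective h
    rwa [← this]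
  · intro h
    exact ⟨x, h, rfl⟩

lemma mapCh_card (S : Ch Q) : (mapCh G S).1.card = S.1.card := by
  rw [mapCh_coe, Finset.card_map]

lemma sgn_mapCh (S : Ch Q) (x : Q) : sgn (mapCh G S) (G x) = sgn S x := by
  unfold sgn
  have : (mapCh G S).1.filter (· < G x) = (S.1.filter (· < x)).map G.toEquiv.toEmbedding := by
    ext y
    simp only [mapCh_coe, Finset.mem_filter, Finset.mem_map]
    constructor
    · rintro ⟨⟨z, hz, rfl⟩, h⟩
      exact ⟨z, ⟨hz, G.lt_iff_lt.mp h⟩, rfl⟩
    · rintro ⟨z, ⟨hz, h⟩, rfl⟩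
      exact ⟨⟨z, hz, rfl⟩, G.lt_iff_lt.mpr h⟩
  rw [this, Finset.card_map]

lemma er_mapCh (S : Ch Q) (x : Q) : er (mapCh G S) (G x) = mapCh G (er S x) := by
  apply Subtype.ext
  rw [er_coe, mapCh_coe, mapCh_coe, er_coe]
  ext y
  simp only [Finset.mem_erase, Finset.mem_map]
  constructor
  · rintro ⟨h, z, hz, rfl⟩
    refine ⟨z, ⟨?_, hz⟩, rfl⟩
    rintro rfl
    exact h rfl
  · rintro ⟨z, ⟨h, hz⟩, rfl⟩
    refine ⟨?_, z, hz, rfl⟩
    intro h'
    exact h (G.injective h')

lemma sum_mapCh {W : Type*} [AddCommMonoid W] (S : Ch Q) (f : Q → W) :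
    ∑ x ∈ (mapCh G S).1, f x = ∑ x ∈ S.1, f (G x) := by
  rw [mapCh_coe, Finset.sum_map]
  rfl

lemma act_bd (hn : FinLen Q) (v : L1 (Ch Q)) : act (mapCh G) (bd v) = bd (act (mapCh G) v) := by
  have : (act (mapCh G)).comp bd = bd.comp (act (mapCh G)) := by
    refine ext_dl fun S => ?_
    rw [ContinuousLinearMap.comp_apply, ContinuousLinearMap.comp_apply, act_dl, bd_dl hn,
      bd_dl hn, map_sum, sum_mapCh]
    refine Finset.sum_congr rfl fun x _ => ?_
    rw [map_smul, act_dl, sgn_mapCh, er_mapCh]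
  exact congrArg (fun A : L1 (Ch Q) →L[ℝ] L1 (Ch Q) => A v) this

lemma act_cn (p : Q) (v : L1 (Ch Q)) :
    act (mapCh G) (cn p v) = cn (G p) (act (mapCh G) v) := by
  have : (act (mapCh G)).comp (cn p) = (cn (G p)).comp (act (mapCh G)) := by
    refine ext_dl fun S => ?_
    rw [ContinuousLinearMap.comp_apply, ContinuousLinearMap.comp_apply, act_dl, cn_dl, cn_dl]
    have h1 : (insert (G p) (mapCh G S).1 : Finset Q) =
        (insert p S.1 : Finset Q).map G.toEquiv.toEmbedding := by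
      rw [mapCh_coe, Finset.map_insert]
      rfl
    by_cases h : p ∉ S.1 ∧ IsChain (· ≤ ·) ((insert p S.1 : Finset Q) : Set Q)
    · have h2 : IsChain (· ≤ ·) ((insert (G p) (mapCh G S).1 : Finset Q) : Set Q) := by
        rw [h1]
        exact (mapCh G ⟨insert p S.1, h.2⟩).2
      have h3 : G p ∉ (mapCh G S).1 := by rw [mem_mapCh]; exact h.1
      unfold cnc
      rw [dif_pos h, dif_pos ⟨h3, h2⟩, act_dl]
      congr 1
      exact Subtype.ext h1.symm
    · have h2 : ¬ (G p ∉ (mapCh G S).1 ∧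
          IsChain (· ≤ ·) ((insert (G p) (mapCh G S).1 : Finset Q) : Set Q)) := by
        rintro ⟨h3, h4⟩
        apply h
        rw [mem_mapCh] at h3
        refine ⟨h3, ?_⟩
        rw [h1, Finset.coe_map] at h4
        intro a ha b hb hab
        have := h4 (Set.mem_image_of_mem _ ha) (Set.mem_image_of_mem _ hb)
          (fun h => hab (G.injective h))
        rcases this with h | h
        · exact Or.inl (G.le_iff_le.mp h)
        · exact Or.inr (G.le_iff_le.mp h)
      unfold cnc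
      rw [dif_neg h, dif_neg h2, map_zero]
  exact congrArg (fun A : L1 (Ch Q) →L[ℝ] L1 (Ch Q) => A v) this

lemma mapCh_ne {S : Ch Q} : (mapCh G S).1.Nonempty ↔ S.1.Nonempty := by
  rw [mapCh_coe, Finset.map_nonempty]

lemma fill_act (S : Ch Q) (φ' : Ch Q → Q) (g' : Ch Q → L1 (Ch Q)) (r0' : L1 (Ch Q))
    (hφ : ∀ T : Ch Q, T.1 ⊆ S.1 → T.1.Nonempty → φ' (mapCh G T) = G (φ T))
    (hg : ∀ T : Ch Q, T.1 ⊆ S.1 → T.1.Nonempty → g' (mapCh G T) = act (mapCh G) (g T))
    (hr : r0' = act (mapCh G) r0) :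
    ∀ T : Ch Q, T.1 ⊆ S.1 →
      fill ε φ' g' r0' (mapCh G T) = act (mapCh G) (fill ε φ g r0 T) := by
  intro T
  induction T using ch_ind with
  | h T ih =>
    intro hTS
    rcases Finset.eq_empty_or_nonempty T.1 with he | hne
    · have he' : (mapCh G T).1 = ∅ := by rw [mapCh_coe, he, Finset.map_empty]
      rw [fill_empty _ _ _ _ he, fill_empty _ _ _ _ he', hr]
    · rw [fill_ne _ _ _ _ hne, fill_ne _ _ _ _ ((mapCh_ne G).mpr hne), act_cn, hφ T hTS hne]
      congr 1
      rw [map_add, map_smul, map_sum, hg T hTS hne, sum_mapCh]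
      congr 2
      refine Finset.sum_congr rfl fun x hx => ?_
      rw [map_smul, sgn_mapCh, er_mapCh, ih x hx ((Finset.erase_subset _ _).trans hTS)]

end

end Pool.Agent.Helper43.SP
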