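import Pool.Agent.Helper43.SP.Chain

/-!
Descending through the dimension: an equivariant bounded contraction of the l1 chain complex.
-/

set_option autoImplicit false

namespace Pool.Agent.Helper43.SP

open Filter Topology
open scoped ENNReal Classical

noncomputable section

variable {Q : Type*} [PartialOrder Q]

/-- Approximately equivariant uniformly bounded contractions. -/
structure Appr (F : Q ≃o Q) (h : ℕ → Ch Q → L1 (Ch Q)) : Prop where
  bdd : ∃ C, ∀ i S, ‖h i S‖ ≤ C
  deg : ∀ i S, Deg (S.1.card + 1) (h i S)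
  idn : ∀ S : Ch Q, ∀ᶠ i in atTop, bd (h i S) + ∑ x ∈ S.1, sgn S x • h i (er S x) = dl S
  eqv : ∀ S : Ch Q, ∀ᶠ i in atTop, act (mapCh F) (h (i + 1) S) = h i (mapCh F S)

/-- The inductive statement. -/
def PP (F : Q ≃o Q) (d : ℕ) : Prop :=
  ∃ M : L1 (Ch Q) →L[ℝ] L1 (Ch Q),
    (∀ S : Ch Q, d ≤ S.1.card → Deg (S.1.card + 1) (M (dl S))) ∧
    (∀ S : Ch Q, d + 1 ≤ S.1.card → bd (M (dl S)) + M (bd (dl S)) = dl S) ∧
    (∀ S : Ch Q, act (mapCh F) (M (dl S)) = M (dl (mapCh F S)))

lemma act_comm_of_dl (F : Q ≃o Q) (M : L1 (Ch Q) →L[ℝ] L1 (Ch Q))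
    (h : ∀ S : Ch Q, act (mapCh F) (M (dl S)) = M (dl (mapCh F S))) (v : L1 (Ch Q)) :
    act (mapCh F) (M v) = M (act (mapCh F) v) := by
  have : (act (mapCh F)).comp M = M.comp (act (mapCh F)) := by
    refine ext_dl fun S => ?_
    rw [ContinuousLinearMap.comp_apply, ContinuousLinearMap.comp_apply, act_dl, h]
  exact congrArg (fun A : L1 (Ch Q) →L[ℝ] L1 (Ch Q) => A v) this

lemma step (hn : FinLen Q) (F : Q ≃o Q) (h : ℕ → Ch Q → L1 (Ch Q)) (hA : Appr F h) (d : ℕ)
    (hP : PP F (d + 1)) : PP F d := by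
  obtain ⟨M, hM1, hM2, hM3⟩ := hP
  obtain ⟨C, hC⟩ := hA.bdd
  -- the operator `E = 1 - bd M`
  set E : L1 (Ch Q) →L[ℝ] L1 (Ch Q) := ContinuousLinearMap.id ℝ _ - bd.comp M with hE
  have hEa : ∀ v, E v = v - bd (M v) := fun v => rfl
  have hMdeg : ∀ v : L1 (Ch Q), Deg (d + 1) v → Deg (d + 2) (M v) := by
    intro v hv
    refine Supp.map (fun S hS => ?_) hv
    exact Deg.mono (by omega) (hM1 S hS)
  have hMid : ∀ v : L1 (Ch Q), Deg (d + 2) v → bd (M v) + M (bd v) = v := by
    intro v hv
    have := Supp.eq (A := bd.comp M + M.comp bd) (B := ContinuousLinearMap.id ℝ _)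
      (R := fun S : Ch Q => d + 2 ≤ S.1.card) (fun S hS => hM2 S hS) hv
    exact this
  have hEbd : ∀ v : L1 (Ch Q), Deg (d + 2) v → E (bd v) = 0 := by
    intro v hv
    have h1 := hMid v hv
    have h2 : M (bd v) = v - bd (M v) := by rw [eq_sub_iff_add_eq, add_comm]; exact h1
    rw [hEa, h2, map_sub, bd_bd hn, sub_zero, sub_self]
  have hEdeg : ∀ v : L1 (Ch Q), Deg (d + 1) v → Deg (d + 1) (E v) := by
    intro v hv
    rw [hEa]
    exact Supp.sub hv (deg_bd hn (hMdeg v hv))
  have hEE : ∀ v : L1 (Ch Q), Deg (d + 1) v → E (E v) = E v := by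
    intro v hv
    conv_lhs => rw [hEa v, map_sub, hEbd _ (hMdeg v hv), sub_zero]
  have hMact : ∀ v, act (mapCh F) (M v) = M (act (mapCh F) v) := act_comm_of_dl F M hM3
  have hEact : ∀ v, act (mapCh F) (E v) = E (act (mapCh F) v) := by
    intro v
    rw [hEa, hEa, map_sub, act_bd F hn, hMact]
  have hwb : ∀ T, Bdd (fun i => h i T) := fun T => ⟨C, fun i => hC i T⟩
  have hEb : ∀ T, Bdd (fun i => E (h i T)) := fun T => (hwb T).map E
  -- new columns
  set m : Ch Q → L1 (Ch Q) := fun T => E (LIM fun i => E (h i T)) with hm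
  set c : Ch Q → L1 (Ch Q) := fun T => if d + 1 ≤ T.1.card then M (dl T) else m T with hc
  have hcb : ∃ C', ∀ T, ‖c T‖ ≤ C' := by
    refine ⟨max ‖M‖ (‖E‖ * (‖E‖ * C)), fun T => ?_⟩
    simp only [hc]
    split_ifs with hT
    · refine le_trans ?_ (le_max_left _ _)
      have := M.le_opNorm (dl T)
      rwa [norm_dl, mul_one] at this
    · refine le_trans ?_ (le_max_right _ _)
      refine (E.le_opNorm _).trans (mul_le_mul_of_nonneg_left ?_ (norm_nonneg _))
      refine norm_LIM_le _ _ fun i => ?_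
      exact (E.le_opNorm _).trans (mul_le_mul_of_nonneg_left (hC i T) (norm_nonneg _))
  set M' : L1 (Ch Q) →L[ℝ] L1 (Ch Q) := opOf c with hM'
  have hM'dl : ∀ T, M' (dl T) = c T := fun T => opOf_dl c hcb T
  have hM'big : ∀ T : Ch Q, d + 1 ≤ T.1.card → M' (dl T) = M (dl T) := by
    intro T hT
    rw [hM'dl]
    simp only [hc]
    rw [if_pos hT]
  have hM'small : ∀ T : Ch Q, ¬ d + 1 ≤ T.1.card → M' (dl T) = m T := by
    intro T hT
    rw [hM'dl]
    simp only [hc]
    rw [if_neg hT]
  refine ⟨M', ?_, ?_, ?_⟩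
  · intro S hS
    by_cases hS' : d + 1 ≤ S.1.card
    · rw [hM'big S hS']
      exact hM1 S hS'
    · rw [hM'small S hS']
      have hSd : S.1.card = d := by omega
      rw [hSd]
      refine hEdeg _ (Supp.LIM (hEb S) fun i => hEdeg _ ?_)
      have := hA.deg i S
      rwa [hSd] at this
  · intro S hS
    rw [hM'big S hS]
    by_cases hS2 : d + 2 ≤ S.1.card
    · have h1 : M' (bd (dl S)) = M (bd (dl S)) := by
        rw [bd_dl hn, map_sum, map_sum]
        refine Finset.sum_congr rfl fun x hx => ?_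
        rw [map_smul, map_smul, hM'big]
        rw [er_coe, Finset.card_erase_of_mem hx]
        omega
      rw [h1]
      exact hM2 S hS2
    · have hSd : S.1.card = d + 1 := by omega
      have hSdeg : Deg (d + 1) (dl S) := Supp.dl (R := fun S : Ch Q => d + 1 ≤ S.1.card) hS
      have h1 : M' (bd (dl S)) = E (LIM fun i => E (∑ x ∈ S.1, sgn S x • h i (er S x))) := by
        rw [bd_dl hn, map_sum]
        have h2 : ∀ x ∈ S.1, M' (sgn S x • dl (er S x)) =
            E (LIM fun i => sgn S x • E (h i (er S x))) := by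
          intro x hx
          rw [map_smul, hM'small, LIM_smul _ (hEb _), map_smul]
          rw [er_coe, Finset.card_erase_of_mem hx]
          omega
        rw [Finset.sum_congr rfl h2, ← map_sum, ← LIM_sum S.1 (fun x i => sgn S x • E (h i (er S x)))
          (fun x _ => (hEb _).smul _)]
        congr 2
        funext i
        rw [map_sum]
        refine Finset.sum_congr rfl fun x _ => ?_
        rw [map_smul]
      have h3 : (LIM fun i => E (∑ x ∈ S.1, sgn S x • h i (er S x))) = E (dl S) := by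
        refine LIM_of_eventually ?_ ?_
        · exact Bdd.map E (Bdd.sum S.1 (fun x i => sgn S x • h i (er S x))
            fun x _ => (hwb _).smul _)
        · filter_upwards [hA.idn S] with i hi
          have h4 : ∑ x ∈ S.1, sgn S x • h i (er S x) = dl S - bd (h i S) := by
            rw [eq_sub_iff_add_eq, add_comm]
            exact hi
          rw [h4, map_sub, hEbd, sub_zero]
          have := hA.deg i S
          rwa [hSd] at this
      rw [h1, h3, hEE _ hSdeg, hEa]
      abel
  · intro S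
    by_cases hS : d + 1 ≤ S.1.card
    · rw [hM'big S hS, hM'big _ (by rw [mapCh_card]; exact hS)]
      exact hM3 S
    · rw [hM'small S hS, hM'small _ (by rw [mapCh_card]; exact hS)]
      simp only [hm]
      rw [hEact, act_LIM _ (hEb S)]
      have hb1 : Bdd (fun i => act (mapCh F) (E (h i S))) := (hEb S).map (act (mapCh F))
      have hs1 := LIM_shift hb1
      have hs2 : LIM (fun i => act (mapCh F) (E (h (i + 1) S))) =
          LIM (fun i => E (h i (mapCh F S))) := by
        refine LIM_congr hb1.shift (hEb _) ?_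
        filter_upwards [hA.eqv S] with i hi
        rw [hEact, hi]
      rw [← hs1, hs2]

theorem contraction (hn : FinLen Q) (F : Q ≃o Q) (hQ : Nonempty Q)
    (h : ℕ → Ch Q → L1 (Ch Q)) (hA : Appr F h) :
    ∃ M : L1 (Ch Q) →L[ℝ] L1 (Ch Q),
      (∀ S : Ch Q, bd (M (dl S)) + M (bd (dl S)) = dl S) ∧
      (∀ v, act (mapCh F) (M v) = M (act (mapCh F) v)) := by
  obtain ⟨n, hn'⟩ := id hn
  have hPn : PP F n := by
    refine ⟨0, fun S _ => ?_, fun S hS => ?_, fun S => ?_⟩
    · exact Supp.zero _
    · have := hn' S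
      omega
    · simp
  have hP : ∀ k, k ≤ n → PP F (n - k) := by
    intro k
    induction k with
    | zero => intro _; exact hPn
    | succ k ih =>
      intro hk
      refine step hn F h hA _ ?_
      have h1 : n - (k + 1) + 1 = n - k := by omega
      rw [h1]
      exact ih (by omega)
  have h0 := hP n le_rfl
  rw [Nat.sub_self] at h0
  obtain ⟨M, _, hM2, hM3⟩ := h0
  refine ⟨M, fun S => ?_, act_comm_of_dl F M hM3⟩
  rcases Finset.eq_empty_or_nonempty S.1 with he | hne
  · obtain ⟨x⟩ := hQ
    have hS : S = emp := Subtype.ext he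
    subst hS
    set T : Ch Q := ⟨{x}, by simp⟩ with hT
    have h1 := hM2 T (by simp [hT])
    have h2 : bd (dl T) = dl (emp : Ch Q) := by
      rw [bd_dl hn]
      change ∑ y ∈ {x}, sgn T y • dl (er T y) = _
      rw [Finset.sum_singleton]
      have h3 : sgn T x = 1 := by
        unfold sgn
        have : T.1.filter (· < x) = ∅ := by
          rw [Finset.filter_eq_empty_iff]
          intro y hy
          have : y = x := by simpa [hT] using hy
          rw [this]
          exact lt_irrefl x
        rw [this]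
        simp
      have h4 : er T x = emp := by
        apply Subtype.ext
        rw [er_coe]
        simp [hT, emp]
      rw [h3, h4, one_smul]
    rw [h2] at h1
    have h5 : M (dl (emp : Ch Q)) = dl T - bd (M (dl T)) := by
      rw [eq_sub_iff_add_eq, add_comm]
      exact h1
    have h6 : bd (dl (emp : Ch Q)) = 0 := by
      rw [bd_dl hn]
      simp [emp]
    rw [h5, h6, map_zero, add_zero, map_sub, bd_bd hn, sub_zero, h2]
  · exact hM2 S (Finset.card_pos.mpr hne)

end

end Pool.Agent.Helper43.SP
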