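import Pool.Agent.Helper43.SP.Trace

/-!
The direct limit of a monotone self-map of a poset, with its automorphism.
-/

set_option autoImplicit false

namespace Pool.Agent.Helper43.SP

open Filter Topology
open scoped Classical

noncomputable section

variable {P : Type*} [PartialOrder P]

/-- sequences which eventually follow `f` -/
def Sq (f : P → P) := {a : ℕ → P // ∀ᶠ i in atTop, a (i + 1) = f (a i)}

instance (f : P → P) : Preorder (Sq f) where
  le a b := ∀ᶠ i in atTop, a.1 i ≤ b.1 i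
  le_refl a := Eventually.of_forall fun _ => le_rfl
  le_trans a b c h h' := by
    filter_upwards [h, h'] with i h1 h2
    exact h1.trans h2

/-- direct limit -/
abbrev DL (f : P → P) := Antisymmetrization (Sq f) (· ≤ ·)

variable {f : P → P}

/-- class of a sequence -/
def mk (a : Sq f) : DL f := toAntisymmetrization (· ≤ ·) a

/-- representative -/
def rep (y : DL f) (i : ℕ) : P := (ofAntisymmetrization (· ≤ ·) y).1 i

lemma mk_le_mk (a b : Sq f) : mk a ≤ mk b ↔ ∀ᶠ i in atTop, a.1 i ≤ b.1 i := Iff.rfl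

lemma mk_eq_mk {a b : Sq f} (h : ∀ᶠ i in atTop, a.1 i = b.1 i) : mk a = mk b := by
  apply le_antisymm
  · rw [mk_le_mk]
    filter_upwards [h] with i hi
    exact hi.le
  · rw [mk_le_mk]
    filter_upwards [h] with i hi
    exact hi.ge

lemma mk_of (y : DL f) : mk (ofAntisymmetrization (· ≤ ·) y) = y :=
  toAntisymmetrization_ofAntisymmetrization _ _

lemma rep_mk (a : Sq f) : ∀ᶠ i in atTop, rep (mk a) i = a.1 i := by
  have h := mk_of (mk a)
  have h1 : mk (ofAntisymmetrization (· ≤ ·) (mk a)) ≤ mk a := h.le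
  have h2 : mk a ≤ mk (ofAntisymmetrization (· ≤ ·) (mk a)) := h.ge
  rw [mk_le_mk] at h1 h2
  filter_upwards [h1, h2] with i h3 h4
  exact le_antisymm h3 h4

lemma le_iff (y z : DL f) : y ≤ z ↔ ∀ᶠ i in atTop, rep y i ≤ rep z i := by
  conv_lhs => rw [← mk_of y, ← mk_of z]
  exact mk_le_mk _ _

lemma eq_mk {y : DL f} {a : Sq f} (h : ∀ᶠ i in atTop, rep y i = a.1 i) : y = mk a := by
  conv_lhs => rw [← mk_of y]
  exact mk_eq_mk h

lemma ext_rep {y z : DL f} (h : ∀ᶠ i in atTop, rep y i = rep z i) : y = z := by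
  rw [← mk_of z]
  exact eq_mk h

lemma rep_succ (y : DL f) : ∀ᶠ i in atTop, rep y (i + 1) = f (rep y i) :=
  (ofAntisymmetrization (· ≤ ·) y).2

lemma ev_shift {p : ℕ → Prop} (h : ∀ᶠ i in atTop, p i) : ∀ᶠ i in atTop, p (i + 1) :=
  (tendsto_add_atTop_nat 1).eventually h

/-- the shift -/
def shf (y : DL f) : DL f := mk ⟨fun i => rep y (i + 1), ev_shift (rep_succ y)⟩

lemma rep_shf (y : DL f) : ∀ᶠ i in atTop, rep (shf y) i = rep y (i + 1) := rep_mk _

/-- the inverse shift -/
def ush (y : DL f) : DL f := mk ⟨fun i => rep y (i - 1), by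
  obtain ⟨n, hn⟩ := eventually_atTop.mp (rep_succ y)
  refine eventually_atTop.mpr ⟨n + 1, fun i hi => ?_⟩
  have h := hn (i - 1) (by omega)
  have h2 : i - 1 + 1 = i + 1 - 1 := by omega
  rw [h2] at h
  exact h⟩

lemma rep_ush (y : DL f) : ∀ᶠ i in atTop, rep (ush y) (i + 1) = rep y i := by
  have := ev_shift (rep_mk (f := f) ⟨fun i => rep y (i - 1), by
    obtain ⟨n, hn⟩ := eventually_atTop.mp (rep_succ y)
    refine eventually_atTop.mpr ⟨n + 1, fun i hi => ?_⟩
    have h := hn (i - 1) (by omega)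
    have h2 : i - 1 + 1 = i + 1 - 1 := by omega
    rw [h2] at h
    exact h⟩)
  exact this

/-- persistence of inequalities -/
lemma le_persist (hf : Monotone f) (y z : DL f) :
    ∃ n, ∀ i, n ≤ i → rep y i ≤ rep z i → ∀ j, i ≤ j → rep y j ≤ rep z j := by
  obtain ⟨n, hn⟩ := eventually_atTop.mp ((rep_succ y).and (rep_succ z))
  refine ⟨n, fun i hi h j hj => ?_⟩
  induction j, hj using Nat.le_induction with
  | base => exact h
  | succ j hj ih =>
    rw [(hn j (hi.trans hj)).1, (hn j (hi.trans hj)).2]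
    exact hf ih

lemma le_iff_ev (hf : Monotone f) (y z : DL f) :
    ∀ᶠ i in atTop, (y ≤ z ↔ rep y i ≤ rep z i) := by
  by_cases h : y ≤ z
  · have := (le_iff y z).mp h
    filter_upwards [this] with i hi
    exact ⟨fun _ => hi, fun _ => h⟩
  · obtain ⟨n, hn⟩ := le_persist hf y z
    filter_upwards [eventually_ge_atTop n] with i hi
    refine ⟨fun h' => absurd h' h, fun h' => ?_⟩
    rw [le_iff]
    exact eventually_atTop.mpr ⟨i, fun j hj => hn i hi h' j hj⟩

lemma le_iff_shift (y z : DL f) : y ≤ z ↔ ∀ᶠ i in atTop, rep y (i + 1) ≤ rep z (i + 1) := by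
  rw [le_iff]
  constructor
  · intro h
    exact ev_shift h
  · intro h
    obtain ⟨n, hn⟩ := eventually_atTop.mp h
    refine eventually_atTop.mpr ⟨n + 1, fun i hi => ?_⟩
    have := hn (i - 1) (by omega)
    have h2 : i - 1 + 1 = i := by omega
    rwa [h2] at this

lemma shf_ush (y : DL f) : shf (ush y) = y := by
  apply ext_rep
  filter_upwards [rep_shf (ush y), rep_ush y] with i h1 h2
  rw [h1, h2]

lemma ush_shf (y : DL f) : ush (shf y) = y := by
  have h : ∀ᶠ i in atTop, rep (ush (shf y)) (i + 1) = rep y (i + 1) := by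
    filter_upwards [rep_shf y, rep_ush (shf y)] with i h1 h2
    rw [h2, h1]
  apply le_antisymm
  · rw [le_iff_shift]
    filter_upwards [h] with i hi
    exact hi.le
  · rw [le_iff_shift]
    filter_upwards [h] with i hi
    exact hi.ge

/-- the automorphism -/
def FF (f : P → P) : DL f ≃o DL f where
  toFun := shf
  invFun := ush
  left_inv := ush_shf
  right_inv := shf_ush
  map_rel_iff' := by
    intro y z
    change shf y ≤ shf z ↔ y ≤ z
    rw [le_iff, le_iff_shift y z]
    have h := (rep_shf y).and (rep_shf z)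
    constructor
    · intro h'
      filter_upwards [h, h'] with i h1 h2
      rw [← h1.1, ← h1.2]
      exact h2
    · intro h'
      filter_upwards [h, h'] with i h1 h2
      rw [h1.1, h1.2]
      exact h2

lemma rep_FF (y : DL f) : ∀ᶠ i in atTop, rep (FF f y) i = rep y (i + 1) := rep_shf y

omit [PartialOrder P] in
lemma iter_sub (f : P → P) {i j : ℕ} (hj : i ≤ j) (x : P) :
    f^[j + 1 - i] x = f (f^[j - i] x) := by
  rw [show j + 1 - i = (j - i) + 1 by omega, Function.iterate_succ_apply']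

/-- the sequence starting at `x` in position `i` -/
def emS (f : P → P) (i : ℕ) (x : P) : Sq f :=
  ⟨fun j => f^[j - i] x, eventually_atTop.mpr ⟨i, fun _ hj => iter_sub f hj x⟩⟩

/-- embeddings of `P` -/
def em (f : P → P) (i : ℕ) (x : P) : DL f := mk (emS f i x)

lemma em_mono (hf : Monotone f) (i : ℕ) : Monotone (em f i) := by
  intro x y hxy
  unfold em
  rw [mk_le_mk]
  exact Eventually.of_forall fun j => hf.iterate _ hxy

lemma em_rep (y : DL f) : ∀ᶠ i in atTop, em f i (rep y i) = y := by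
  obtain ⟨n, hn⟩ := eventually_atTop.mp (rep_succ y)
  refine eventually_atTop.mpr ⟨n, fun i hi => ?_⟩
  symm
  apply eq_mk
  refine eventually_atTop.mpr ⟨i, fun j hj => ?_⟩
  change rep y j = f^[j - i] (rep y i)
  induction j, hj using Nat.le_induction with
  | base => rw [Nat.sub_self]; rfl
  | succ j hj ih =>
    rw [hn j (hi.trans hj), ih, iter_sub f hj]

lemma FF_em (i : ℕ) (x : P) : FF f (em f (i + 1) x) = em f i x := by
  apply eq_mk
  filter_upwards [rep_FF (em f (i + 1) x), ev_shift (rep_mk (emS f (i + 1) x))] with j h1 h2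
  rw [h1]
  unfold em
  rw [h2]
  change f^[j + 1 - (i + 1)] x = f^[j - i] x
  rw [Nat.succ_sub_succ]

/-- chain of representatives -/
def repS (i : ℕ) (S : Finset (DL f)) : Finset P := S.image (fun y => rep y i)

/-- the index `i` is good for the chain `S` -/
def Good (i : ℕ) (S : Ch (DL f)) : Prop :=
  (∀ x ∈ S.1, ∀ y ∈ S.1, (x ≤ y ↔ rep x i ≤ rep y i)) ∧ (∀ x ∈ S.1, em f i (rep x i) = x)

lemma good_ev (hf : Monotone f) (S : Ch (DL f)) : ∀ᶠ i in atTop, Good i S := by
  unfold Good
  refine Filter.Eventually.and ?_ ?_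
  · rw [Filter.eventually_all_finset]
    intro x _
    rw [Filter.eventually_all_finset]
    intro y _
    exact le_iff_ev hf x y
  · rw [Filter.eventually_all_finset]
    intro x _
    exact em_rep x

lemma Good.mono {i : ℕ} {S T : Ch (DL f)} (h : Good i S) (hTS : T.1 ⊆ S.1) : Good i T :=
  ⟨fun x hx y hy => h.1 x (hTS hx) y (hTS hy), fun x hx => h.2 x (hTS hx)⟩

lemma Good.chain {i : ℕ} {S : Ch (DL f)} (h : Good i S) :
    IsChain (· ≤ ·) ((repS i S.1 : Finset P) : Set P) := by
  intro a ha b hb hab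
  rw [Finset.mem_coe, repS, Finset.mem_image] at ha hb
  obtain ⟨x, hx, rfl⟩ := ha
  obtain ⟨y, hy, rfl⟩ := hb
  have hxy : x ≠ y := by rintro rfl; exact hab rfl
  rcases S.2 hx hy hxy with h' | h'
  · exact Or.inl ((h.1 x hx y hy).mp h')
  · exact Or.inr ((h.1 y hy x hx).mp h')

lemma Good.card {i : ℕ} {S : Ch (DL f)} (h : Good i S) : (repS i S.1).card = S.1.card := by
  unfold repS
  refine Finset.card_image_of_injOn ?_
  intro x hx y hy hxy
  dsimp only at hxy
  rw [← h.2 x hx, ← h.2 y hy, hxy]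

lemma finLen_DL (hf : Monotone f)
    (hn : ∃ n : ℕ, ∀ c : Finset P, IsChain (· ≤ ·) (c : Set P) → c.card ≤ n) :
    FinLen (DL f) := by
  obtain ⟨n, hn⟩ := hn
  refine ⟨n, fun S => ?_⟩
  obtain ⟨i, hi⟩ := (good_ev hf S).exists
  rw [← hi.card]
  exact hn _ hi.chain

lemma rep_FF_iter (y : DL f) (k : ℕ) :
    ∀ᶠ i in atTop, rep ((FF f)^[k] y) i = rep y (i + k) := by
  induction k with
  | zero => exact Eventually.of_forall fun i => rfl
  | succ k ih =>
    rw [Function.iterate_succ', Function.comp]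
    filter_upwards [rep_FF ((FF f)^[k] y), ev_shift ih] with i h1 h2
    rw [h1, h2]
    congr 1
    omega

lemma rep_add (y : DL f) (k : ℕ) : ∀ᶠ i in atTop, rep y (i + k) = f^[k] (rep y i) := by
  induction k with
  | zero => exact Eventually.of_forall fun i => rfl
  | succ k ih =>
    have h : ∀ᶠ i in atTop, rep y (i + k + 1) = f (rep y (i + k)) :=
      (tendsto_add_atTop_nat k).eventually (rep_succ y)
    filter_upwards [ih, h] with i h1 h2
    rw [← add_assoc, h2, h1, Function.iterate_succ_apply']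

lemma periodic_finite (hf : {x : P | ∃ k, 0 < k ∧ f^[k] x = x}.Finite) :
    {y : DL f | ∃ k, 0 < k ∧ (FF f)^[k] y = y}.Finite := by
  refine (hf.image (em f 0)).subset ?_
  rintro y ⟨k, hk0, hk⟩
  obtain ⟨n, hn⟩ := eventually_atTop.mp (((rep_FF_iter y k).and (rep_add y k)).and (em_rep y))
  -- choose a large multiple of `k`
  have hi : n ≤ k * n := Nat.le_mul_of_pos_left n hk0
  obtain ⟨⟨h1, h2⟩, h3⟩ := hn (k * n) hi
  rw [hk] at h1
  have h4 : f^[k] (rep y (k * n)) = rep y (k * n) := by rw [← h2, ← h1]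
  refine ⟨rep y (k * n), ⟨k, hk0, h4⟩, Eq.trans ?_ h3⟩
  unfold em
  apply mk_eq_mk
  refine eventually_atTop.mpr ⟨k * n, fun j hj => ?_⟩
  change f^[j - 0] _ = f^[j - k * n] _
  have h5 : f^[k * n] (rep y (k * n)) = rep y (k * n) := by
    rw [Function.iterate_mul]
    exact Function.iterate_fixed h4 n
  have h6 : j - 0 = (j - k * n) + k * n := by omega
  rw [h6, Function.iterate_add_apply, h5]

lemma fixed_of_fixed {y : DL f} (h : FF f y = y) : ∃ x, f x = x := by
  have h1 := rep_FF y
  rw [h] at h1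
  obtain ⟨i, hi1, hi2⟩ := (h1.and (rep_succ y)).exists
  exact ⟨rep y i, by rw [← hi2, ← hi1]⟩

end

end Pool.Agent.Helper43.SP
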