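import Pool.Agent.Helper43.SP.DirLim

/-!
The carriers given by a special element, and the main theorem.
-/

set_option autoImplicit false

namespace Pool.Agent.Helper43.SP

open Filter Topology
open scoped Classical

noncomputable section

section comb

variable {P : Type*} [PartialOrder P] (s : P)

/-- `s` has a meet with `x` -/
def HasM (x : P) : Prop := ∃ z, IsGLB ({s, x} : Set P) z

/-- the meet with `s` (junk value `s`) -/
def mt (x : P) : P := if h : HasM s x then h.choose else s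

lemma mt_spec {x : P} (h : HasM s x) : IsGLB ({s, x} : Set P) (mt s x) := by
  unfold mt
  rw [dif_pos h]
  exact h.choose_spec

/-- the join of two elements (junk value `a`) -/
def jn (a b : P) : P := if h : ∃ z, IsLUB ({a, b} : Set P) z then h.choose else a

lemma jn_spec {a b : P} (h : ∃ z, IsLUB ({a, b} : Set P) z) : IsLUB ({a, b} : Set P) (jn a b) := by
  unfold jn
  rw [dif_pos h]
  exact h.choose_spec

/-- least element of a finset (junk value `s`) -/
def lst (T : Finset P) : P := if h : ∃ m ∈ T, ∀ x ∈ T, m ≤ x then h.choose else s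

lemma lst_spec {T : Finset P} (hc : IsChain (· ≤ ·) (T : Set P)) (hT : T.Nonempty) :
    lst s T ∈ T ∧ ∀ x ∈ T, lst s T ≤ x := by
  have h := exists_least ⟨T, hc⟩ hT
  unfold lst
  rw [dif_pos h]
  exact h.choose_spec

/-- the retraction -/
def rr (T : Finset P) : P :=
  if HasM s (lst s T) then lst s T else
    if (T.filter (HasM s)).Nonempty then jn (mt s (lst s (T.filter (HasM s)))) (lst s T)
    else jn s (lst s T)

lemma mt_le_self {x : P} (h : HasM s x) : mt s x ≤ x := (mt_spec s h).1 (by simp)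

lemma mt_le_s {x : P} (h : HasM s x) : mt s x ≤ s := (mt_spec s h).1 (by simp)

lemma le_mt {x z : P} (h : HasM s x) (h1 : z ≤ s) (h2 : z ≤ x) : z ≤ mt s x := by
  refine (mt_spec s h).2 ?_
  rintro w (rfl | rfl)
  · exact h1
  · exact h2

lemma mt_mono {x y : P} (hx : HasM s x) (hy : HasM s y) (h : x ≤ y) : mt s x ≤ mt s y :=
  le_mt s hy (mt_le_s s hx) ((mt_le_self s hx).trans h)

lemma le_jn_left {a b : P} (h : ∃ z, IsLUB ({a, b} : Set P) z) : a ≤ jn a b :=
  (jn_spec h).1 (by simp)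

lemma le_jn_right {a b : P} (h : ∃ z, IsLUB ({a, b} : Set P) z) : b ≤ jn a b :=
  (jn_spec h).1 (by simp)

lemma jn_le {a b z : P} (h : ∃ z, IsLUB ({a, b} : Set P) z) (h1 : a ≤ z) (h2 : b ≤ z) :
    jn a b ≤ z := by
  refine (jn_spec h).2 ?_
  rintro w (rfl | rfl)
  · exact h1
  · exact h2

variable (h1 : ∀ x : P, (∃ z : P, IsLUB ({s, x} : Set P) z) ∨ (∃ z : P, IsGLB ({s, x} : Set P) z))
  (h2 : ∀ x y : P, x < y → (¬ ∃ z : P, IsGLB ({s, x} : Set P) z) →
    ∀ m : P, IsGLB ({s, y} : Set P) m → ∃ z : P, IsLUB ({m, x} : Set P) z)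

include h1 h2

/-- the three cases of the retraction -/
lemma rr_cases {T : Finset P} (hc : IsChain (· ≤ ·) (T : Set P)) (hT : T.Nonempty) :
    (HasM s (lst s T) ∧ rr s T = lst s T) ∨
    (¬ HasM s (lst s T) ∧ ∃ a, a ∈ T ∧ HasM s a ∧ (∀ x ∈ T, HasM s x → a ≤ x) ∧
      (∃ z, IsLUB ({mt s a, lst s T} : Set P) z) ∧ rr s T = jn (mt s a) (lst s T)) ∨
    (¬ HasM s (lst s T) ∧ (∀ x ∈ T, ¬ HasM s x) ∧
      (∃ z, IsLUB ({s, lst s T} : Set P) z) ∧ rr s T = jn s (lst s T)) := by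
  obtain ⟨hm, hl⟩ := lst_spec s hc hT
  by_cases hA : HasM s (lst s T)
  · left
    refine ⟨hA, ?_⟩
    unfold rr
    rw [if_pos hA]
  · by_cases hne : (T.filter (HasM s)).Nonempty
    · right; left
      have hc' : IsChain (· ≤ ·) ((T.filter (HasM s) : Finset P) : Set P) :=
        hc.mono (by
          intro x hx
          exact (Finset.mem_filter.mp hx).1)
      obtain ⟨ha, hal⟩ := lst_spec s hc' hne
      rw [Finset.mem_filter] at ha
      refine ⟨hA, lst s (T.filter (HasM s)), ha.1, ha.2, ?_, ?_, ?_⟩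
      · intro x hx hx'
        exact hal x (Finset.mem_filter.mpr ⟨hx, hx'⟩)
      · have hlt : lst s T < lst s (T.filter (HasM s)) := by
          refine lt_of_le_of_ne (hl _ ha.1) ?_
          intro h
          exact hA (h ▸ ha.2)
        exact h2 _ _ hlt hA _ (mt_spec s ha.2)
      · unfold rr
        rw [if_neg hA, if_pos hne]
    · right; right
      refine ⟨hA, ?_, ?_, ?_⟩
      · intro x hx hx'
        exact hne ⟨x, Finset.mem_filter.mpr ⟨hx, hx'⟩⟩
      · rcases h1 (lst s T) with h | h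
        · exact h
        · exact absurd h hA
      · unfold rr
        rw [if_neg hA, if_neg hne]

lemma lst_le_rr {T : Finset P} (hc : IsChain (· ≤ ·) (T : Set P)) (hT : T.Nonempty) :
    lst s T ≤ rr s T := by
  rcases rr_cases s h1 h2 hc hT with ⟨_, h⟩ | ⟨_, a, _, _, _, hj, h⟩ | ⟨_, _, hj, h⟩
  · rw [h]
  · rw [h]; exact le_jn_right hj
  · rw [h]; exact le_jn_right hj

lemma hasM_rr {T : Finset P} (hc : IsChain (· ≤ ·) (T : Set P)) (hT : T.Nonempty) :
    HasM s (rr s T) := by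
  obtain ⟨hm, hl⟩ := lst_spec s hc hT
  rcases rr_cases s h1 h2 hc hT with ⟨hA, h⟩ | ⟨_, a, ha, haM, _, hj, h⟩ | ⟨_, _, hj, h⟩
  · rw [h]; exact hA
  · rw [h]
    refine ⟨mt s a, ?_, ?_⟩
    · rintro w (rfl | rfl)
      · exact mt_le_s _ haM
      · exact le_jn_left hj
    · intro w hw
      have hw1 : w ≤ s := hw (by simp)
      have hw2 : w ≤ jn (mt s a) (lst s T) := hw (by simp)
      refine le_mt s haM hw1 (hw2.trans ?_)
      exact jn_le hj (mt_le_self s haM) (hl a ha)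
  · rw [h]
    refine ⟨s, ?_, ?_⟩
    · rintro w (rfl | rfl)
      · exact le_rfl
      · exact le_jn_left hj
    · intro w hw
      exact hw (by simp)

lemma rr_anti {T T' : Finset P} (hc : IsChain (· ≤ ·) (T : Set P)) (hT' : T'.Nonempty)
    (hsub : T' ⊆ T) : rr s T ≤ rr s T' := by
  have hT : T.Nonempty := hT'.mono hsub
  have hc' : IsChain (· ≤ ·) (T' : Set P) := hc.mono (by exact_mod_cast hsub)
  obtain ⟨hm, hl⟩ := lst_spec s hc hT
  obtain ⟨hm', hl'⟩ := lst_spec s hc' hT'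
  have hmm : lst s T ≤ lst s T' := hl _ (hsub hm')
  have hle' := lst_le_rr s h1 h2 hc' hT'
  rcases rr_cases s h1 h2 hc hT with ⟨_, h⟩ | ⟨hnA, a, ha, haM, hal, hj, h⟩ | ⟨hnA, hno, hj, h⟩
  · rw [h]
    exact hmm.trans hle'
  · rw [h]
    refine jn_le hj ?_ (hmm.trans hle')
    rcases rr_cases s h1 h2 hc' hT' with ⟨hA', h'⟩ | ⟨_, a', ha', haM', _, hj', h'⟩ |
      ⟨_, hno', hj', h'⟩
    · rw [h']
      exact (mt_le_self s haM).trans (hal _ (hsub hm') hA')
    · rw [h']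
      exact (mt_mono s haM haM' (hal _ (hsub ha') haM')).trans (le_jn_left hj')
    · rw [h']
      exact (mt_le_s s haM).trans (le_jn_left hj')
  · rw [h]
    refine jn_le hj ?_ (hmm.trans hle')
    rcases rr_cases s h1 h2 hc' hT' with ⟨hA', _⟩ | ⟨_, a', ha', haM', _, _, _⟩ |
      ⟨_, _, hj', h'⟩
    · exact absurd hA' (hno _ (hsub hm'))
    · exact absurd haM' (hno _ (hsub ha'))
    · rw [h']
      exact le_jn_left hj'

end comb

section main

variable {P : Type*} [PartialOrder P] (s : P) (f : P → P)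

/-- carriers on the direct limit -/
def Rc (i : ℕ) (T : Ch (DL f)) : DL f := em f i (rr s (repS i T.1))

/-- lower carriers on the direct limit -/
def Pc (i : ℕ) (T : Ch (DL f)) : DL f := em f i (mt s (rr s (repS i T.1)))

/-- least element of a chain in the direct limit -/
def Mc (T : Ch (DL f)) : DL f := lst (em f 0 s) T.1

/-- the vertex of an element -/
def sg {Q : Type*} [PartialOrder Q] (x : Q) : Ch Q := ⟨{x}, by simp⟩

/-- subdivision -/
def Su (i : ℕ) : Ch (DL f) → L1 (Ch (DL f)) := fill 1 (Rc s f i) (fun _ => 0) (dl emp)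

/-- first homotopy -/
def E1 (i : ℕ) : Ch (DL f) → L1 (Ch (DL f)) :=
  fill (-1) (Pc s f i) (Su s f i) (dl (sg (em f i s)))

/-- second homotopy -/
def E2 (i : ℕ) : Ch (DL f) → L1 (Ch (DL f)) :=
  fill (-1) (Mc s f) (fun T => Su s f i T - dl T) 0

/-- approximately equivariant contraction -/
def hh (i : ℕ) (T : Ch (DL f)) : L1 (Ch (DL f)) := E1 s f i T - E2 s f i T

lemma hh_bdd (hn : FinLen (DL f)) : ∃ C, ∀ i S, ‖hh s f i S‖ ≤ C := by
  obtain ⟨n, hn⟩ := hn
  obtain ⟨B1, hB1⟩ := fill_norm (Q := DL f) 1 0 1 (by norm_num) n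
  obtain ⟨B2, hB2⟩ := fill_norm (Q := DL f) (-1) B1 1 (by norm_num) n
  obtain ⟨B3, hB3⟩ := fill_norm (Q := DL f) (-1) (B1 + 1) 0 (by norm_num) n
  have hS : ∀ i T, ‖Su s f i T‖ ≤ B1 := fun i T =>
    hB1 _ _ _ (fun _ => by simp) (norm_dl _).le T (hn T)
  refine ⟨B2 + B3, fun i S => ?_⟩
  unfold hh
  refine (norm_sub_le _ _).trans (add_le_add ?_ ?_)
  · exact hB2 _ _ _ (hS i) (norm_dl _).le S (hn S)
  · refine hB3 _ _ _ (fun T => ?_) (by simp) S (hn S)
    refine (norm_sub_le _ _).trans (add_le_add (hS i T) (norm_dl _).le)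

lemma Su_deg (i : ℕ) (T : Ch (DL f)) : Deg T.1.card (Su s f i T) := by
  have := fill_deg 1 (Rc s f i) (fun _ => 0) (dl emp) 0
    (Supp.dl (R := fun S : Ch (DL f) => 0 ≤ S.1.card) (Nat.zero_le _)) (fun T => Supp.zero _) T
  exact this

lemma hh_deg (i : ℕ) (S : Ch (DL f)) : Deg (S.1.card + 1) (hh s f i S) := by
  unfold hh
  refine Supp.sub ?_ ?_
  · refine fill_deg (-1) _ _ _ 1 ?_ ?_ S
    · refine Supp.dl ?_
      simp [sg]
    · intro T
      exact Su_deg s f i T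
  · refine fill_deg (-1) _ _ _ 1 (Supp.zero _) ?_ S
    intro T
    exact Supp.sub (Su_deg s f i T) (Supp.dl (R := fun S : Ch (DL f) => T.1.card ≤ S.1.card) le_rfl)

lemma bd_sg (hn : FinLen (DL f)) (x : DL f) : bd (dl (sg x)) = dl (emp : Ch (DL f)) := by
  rw [bd_dl hn]
  change ∑ y ∈ {x}, sgn (sg x) y • dl (er (sg x) y) = _
  rw [Finset.sum_singleton]
  have h3 : sgn (sg x) x = 1 := by
    unfold sgn
    have : (sg x).1.filter (· < x) = ∅ := by
      rw [Finset.filter_eq_empty_iff]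
      intro y hy
      have : y = x := by simpa [sg] using hy
      rw [this]
      exact lt_irrefl x
    rw [this]
    simp
  have h4 : er (sg x) x = emp := by
    apply Subtype.ext
    rw [er_coe]
    simp [sg, emp]
  rw [h3, h4, one_smul]

lemma bd_emp (hn : FinLen (DL f)) : bd (dl (emp : Ch (DL f))) = 0 := by
  rw [bd_dl hn]
  simp [emp]

variable (h1 : ∀ x : P, (∃ z : P, IsLUB ({s, x} : Set P) z) ∨ (∃ z : P, IsGLB ({s, x} : Set P) z))
  (h2 : ∀ x y : P, x < y → (¬ ∃ z : P, IsGLB ({s, x} : Set P) z) →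
    ∀ m : P, IsGLB ({s, y} : Set P) m → ∃ z : P, IsLUB ({m, x} : Set P) z)

include h1 h2

lemma hh_idn (hf : Monotone f) (hn : FinLen (DL f)) (S : Ch (DL f)) : ∀ᶠ i in atTop,
    bd (hh s f i S) + ∑ x ∈ S.1, sgn S x • hh s f i (er S x) = dl S := by
  filter_upwards [good_ev hf S] with i hi
  have hch : ∀ T : Ch (DL f), T.1 ⊆ S.1 → IsChain (· ≤ ·) ((repS i T.1 : Finset P) : Set P) :=
    fun T hT => (hi.mono hT).chain
  have hne : ∀ T : Ch (DL f), T.1.Nonempty → (repS i T.1).Nonempty :=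
    fun T hT => hT.image _
  have hRR : ∀ T : Ch (DL f), T.1 ⊆ S.1 → ∀ T' : Ch (DL f), T'.1 ⊆ T.1 → T'.1.Nonempty →
      rr s (repS i T.1) ≤ rr s (repS i T'.1) := by
    intro T hT T' hT' hne'
    exact rr_anti s h1 h2 (hch T hT) (hne T' hne') (Finset.image_subset_image hT')
  have hHM : ∀ T : Ch (DL f), T.1 ⊆ S.1 → T.1.Nonempty → HasM s (rr s (repS i T.1)) :=
    fun T hT hne' => hasM_rr s h1 h2 (hch T hT) (hne T hne')
  have hR : ∀ T : Ch (DL f), T.1 ⊆ S.1 → ∀ T' : Ch (DL f), T'.1 ⊆ T.1 → T'.1.Nonempty →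
      Rc s f i T ≤ Rc s f i T' := fun T hT T' hT' hne' => em_mono hf i (hRR T hT T' hT' hne')
  have hPi : ∀ T : Ch (DL f), T.1 ⊆ S.1 → ∀ T' : Ch (DL f), T'.1 ⊆ T.1 → T'.1.Nonempty →
      Pc s f i T ≤ Pc s f i T' := fun T hT T' hT' hne' =>
    em_mono hf i (mt_mono s (hHM T hT (hne'.mono hT')) (hHM T' (hT'.trans hT) hne')
      (hRR T hT T' hT' hne'))
  have hPR : ∀ T : Ch (DL f), T.1 ⊆ S.1 → T.1.Nonempty → Pc s f i T ≤ Rc s f i T :=
    fun T hT hne' => em_mono hf i (mt_le_self s (hHM T hT hne'))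
  have hPs : ∀ T : Ch (DL f), T.1 ⊆ S.1 → T.1.Nonempty → Pc s f i T ≤ em f i s :=
    fun T hT hne' => em_mono hf i (mt_le_s s (hHM T hT hne'))
  have hML : ∀ T : Ch (DL f), T.1.Nonempty → Mc s f T ∈ T.1 ∧ ∀ x ∈ T.1, Mc s f T ≤ x :=
    fun T hne' => lst_spec _ T.2 hne'
  have hMR : ∀ T : Ch (DL f), T.1 ⊆ S.1 → T.1.Nonempty → Mc s f T ≤ Rc s f i T := by
    intro T hT hne'
    have h3 := lst_le_rr s h1 h2 (hch T hT) (hne T hne')
    obtain ⟨h4, _⟩ := lst_spec s (hch T hT) (hne T hne')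
    rw [repS, Finset.mem_image] at h4
    obtain ⟨x, hx, hxe⟩ := h4
    have h5 : em f i (rep x i) = x := hi.2 x (hT hx)
    calc Mc s f T ≤ x := (hML T hne').2 x hx
      _ = em f i (lst s (repS i T.1)) := by rw [← h5, hxe]; rfl
      _ ≤ Rc s f i T := em_mono hf i h3
  -- subdivision
  have hSu := fill_main 1 (Rc s f i) (fun _ => 0) (dl emp) hn S hR
    (fun T _ _ => Supp.zero _)
    (fun T _ _ => Supp.dl (R := fun S : Ch (DL f) => ∀ x ∈ S.1, Rc s f i T ≤ x)
      (by intro x hx; simp [emp] at hx))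
    (bd_emp f hn) (fun T _ _ => by simp)
  change ∀ T : Ch (DL f), T.1 ⊆ S.1 → (T.1.Nonempty → Up (Rc s f i T) (Su s f i T)) ∧
      bd (Su s f i T) = 0 + (1 : ℝ) • ∑ x ∈ T.1, sgn T x • Su s f i (er T x) at hSu
  have hSu2 : ∀ T : Ch (DL f), T.1 ⊆ S.1 →
      bd (Su s f i T) = ∑ x ∈ T.1, sgn T x • Su s f i (er T x) := by
    intro T hT
    rw [(hSu T hT).2, zero_add, one_smul]
  have hSuE : Su s f i emp = dl emp := fill_empty _ _ _ _ rfl
  -- first homotopy
  have hE1 := fill_main (-1) (Pc s f i) (Su s f i) (dl (sg (em f i s))) hn S hPi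
    (fun T hT hne' => Up.mono (hPR T hT hne') ((hSu T hT).1 hne'))
    (fun T hT hne' => Supp.dl (R := fun S : Ch (DL f) => ∀ x ∈ S.1, Pc s f i T ≤ x)
      (by
        intro x hx
        have : x = em f i s := by simpa [sg] using hx
        rw [this]
        exact hPs T hT hne'))
    (by rw [bd_sg f hn, hSuE])
    (fun T hT _ => by rw [hSu2 T hT, neg_smul, one_smul, add_neg_cancel])
  -- second homotopy
  have hE2 := fill_main (-1) (Mc s f) (fun T => Su s f i T - dl T) 0 hn S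
    (fun T _ T' hT' hne' => (hML T (hne'.mono hT')).2 _ (hT' (hML T' hne').1))
    (fun T hT hne' => Supp.sub (Up.mono (hMR T hT hne') ((hSu T hT).1 hne'))
      (Supp.dl (R := fun S : Ch (DL f) => ∀ x ∈ S.1, Mc s f T ≤ x) (hML T hne').2))
    (fun T _ _ => Supp.zero _)
    (by rw [hSuE, sub_self, map_zero])
    (fun T hT _ => by
      rw [map_sub, hSu2 T hT, bd_dl hn, neg_smul, one_smul]
      simp only [smul_sub, Finset.sum_sub_distrib]
      exact add_neg_cancel _)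
  have e1 := (hE1 S (Finset.Subset.refl _)).2
  have e2 := (hE2 S (Finset.Subset.refl _)).2
  change bd (E1 s f i S) = Su s f i S + (-1 : ℝ) • ∑ x ∈ S.1, sgn S x • E1 s f i (er S x) at e1
  change bd (E2 s f i S) =
    Su s f i S - dl S + (-1 : ℝ) • ∑ x ∈ S.1, sgn S x • E2 s f i (er S x) at e2
  unfold hh
  rw [map_sub, e1, e2]
  simp only [smul_sub, Finset.sum_sub_distrib]
  rw [neg_smul, neg_smul, one_smul, one_smul]
  abel

omit h1 h2 in
lemma hh_eqv (S : Ch (DL f)) : ∀ᶠ i in atTop,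
    act (mapCh (FF f)) (hh s f (i + 1) S) = hh s f i (mapCh (FF f) S) := by
  have hrep : ∀ᶠ i in atTop, ∀ x ∈ S.1, rep (FF f x) i = rep x (i + 1) := by
    rw [Filter.eventually_all_finset]
    intro x _
    exact rep_FF x
  filter_upwards [hrep] with i hi
  have hS : ∀ T : Ch (DL f), T.1 ⊆ S.1 → repS i (mapCh (FF f) T).1 = repS (i + 1) T.1 := by
    intro T hT
    ext z
    rw [repS, repS, Finset.mem_image, Finset.mem_image]
    constructor
    · rintro ⟨y, hy, rfl⟩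
      rw [mapCh_coe, Finset.mem_map] at hy
      obtain ⟨x, hx, rfl⟩ := hy
      exact ⟨x, hx, (hi x (hT hx)).symm⟩
    · rintro ⟨x, hx, rfl⟩
      exact ⟨FF f x, (mem_mapCh _ _ _).mpr hx, hi x (hT hx)⟩
  have hR : ∀ T : Ch (DL f), T.1 ⊆ S.1 → T.1.Nonempty →
      Rc s f i (mapCh (FF f) T) = FF f (Rc s f (i + 1) T) := by
    intro T hT _
    unfold Rc
    rw [FF_em, hS T hT]
  have hP : ∀ T : Ch (DL f), T.1 ⊆ S.1 → T.1.Nonempty →
      Pc s f i (mapCh (FF f) T) = FF f (Pc s f (i + 1) T) := by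
    intro T hT _
    unfold Pc
    rw [FF_em, hS T hT]
  have hM : ∀ T : Ch (DL f), T.1 ⊆ S.1 → T.1.Nonempty →
      Mc s f (mapCh (FF f) T) = FF f (Mc s f T) := by
    intro T _ hne
    obtain ⟨h3, h4⟩ := lst_spec (em f 0 s) T.2 hne
    obtain ⟨h5, h6⟩ := lst_spec (em f 0 s) (mapCh (FF f) T).2 ((mapCh_ne _).mpr hne)
    unfold Mc
    apply le_antisymm
    · exact h6 _ ((mem_mapCh _ _ _).mpr h3)
    · rw [mapCh_coe, Finset.mem_map] at h5
      obtain ⟨x, hx, hxe⟩ := h5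
      rw [← mapCh_coe] at hxe
      rw [← hxe]
      exact (FF f).monotone (h4 x hx)
  have hSu : ∀ T : Ch (DL f), T.1 ⊆ S.1 →
      Su s f i (mapCh (FF f) T) = act (mapCh (FF f)) (Su s f (i + 1) T) := by
    refine fill_act 1 (Rc s f (i + 1)) (fun _ => 0) (dl emp) (FF f) S (Rc s f i) (fun _ => 0)
      (dl emp) hR (fun T _ _ => by rw [map_zero]) ?_
    rw [act_dl]
    congr 1
  have hE1 : E1 s f i (mapCh (FF f) S) = act (mapCh (FF f)) (E1 s f (i + 1) S) := by
    refine fill_act (-1) (Pc s f (i + 1)) (Su s f (i + 1)) (dl (sg (em f (i + 1) s))) (FF f) S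
      (Pc s f i) (Su s f i) (dl (sg (em f i s))) hP (fun T hT _ => hSu T hT) ?_ S
      (Finset.Subset.refl _)
    rw [act_dl]
    congr 1
    apply Subtype.ext
    rw [mapCh_coe]
    simp only [sg, Finset.map_singleton]
    congr 1
    exact (FF_em i s).symm
  have hE2 : E2 s f i (mapCh (FF f) S) = act (mapCh (FF f)) (E2 s f (i + 1) S) := by
    refine fill_act (-1) (Mc s f) (fun T => Su s f (i + 1) T - dl T) 0 (FF f) S
      (Mc s f) (fun T => Su s f i T - dl T) 0 hM (fun T hT _ => ?_) (by rw [map_zero]) S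
      (Finset.Subset.refl _)
    rw [hSu T hT, map_sub, act_dl]
  unfold hh
  rw [map_sub, hE1, hE2]

/-- Main theorem. -/
theorem main (hn : ∃ n : ℕ, ∀ c : Finset P, IsChain (· ≤ ·) (c : Set P) → c.card ≤ n)
    (hf : Monotone f) (hper : {x : P | ∃ k, 0 < k ∧ f^[k] x = x}.Finite) : ∃ x, f x = x := by
  have hnQ := finLen_DL hf hn
  have hA : Appr (FF f) (hh s f) :=
    ⟨hh_bdd s f hnQ, hh_deg s f, hh_idn s f h1 h2 hf hnQ, hh_eqv s f⟩
  obtain ⟨M, hM1, hM2⟩ := contraction hnQ (FF f) ⟨em f 0 s⟩ (hh s f) hA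
  obtain ⟨y, hy⟩ := exists_fixed hnQ (FF f) M hM1 hM2 (periodic_finite hper)
  exact fixed_of_fixed hy

end main

end

end Pool.Agent.Helper43.SP
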