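import Pool.Agent.Helper43.SP.KMod
import Pool.Agent.Helper43.SP.Special

/-!
Chain complexes of posets over a field: boundary operator, cones and the filling recursion
(finitely supported version of `Chain.lean`).
-/

set_option autoImplicit false

namespace Pool.Agent.Helper43.SP.FK

open scoped Classical

noncomputable section

variable {k : Type*} [Field k] {Q : Type*} [PartialOrder Q]

/-- sign of a face -/
def sgn (k : Type*) [Field k] {Q : Type*} [PartialOrder Q] (S : Ch Q) (x : Q) : k :=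
  (-1) ^ (S.1.filter (· < x)).card

lemma sgn_er_of_lt (S : Ch Q) {x y : Q} (hx : x ∈ S.1) (hxy : x < y) :
    sgn k (er S x) y = - sgn k S y := by
  unfold sgn
  have h1 : (er S x).1.filter (· < y) = (S.1.filter (· < y)).erase x := by
    ext z
    simp only [er_coe, Finset.mem_filter, Finset.mem_erase]
    tauto
  have h2 : x ∈ S.1.filter (· < y) := Finset.mem_filter.mpr ⟨hx, hxy⟩
  rw [h1]
  have h3 := Finset.card_erase_add_one h2
  rw [← h3, pow_succ]
  ring

lemma sgn_er_of_not_lt (S : Ch Q) {x y : Q} (hxy : ¬ x < y) :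
    sgn k (er S x) y = sgn k S y := by
  unfold sgn
  have h1 : (er S x).1.filter (· < y) = S.1.filter (· < y) := by
    ext z
    simp only [er_coe, Finset.mem_filter, Finset.mem_erase]
    constructor
    · rintro ⟨⟨_, h⟩, h'⟩
      exact ⟨h, h'⟩
    · rintro ⟨h, h'⟩
      refine ⟨⟨?_, h⟩, h'⟩
      rintro rfl
      exact hxy h'
  rw [h1]

lemma sum_sgn_sgn {W : Type*} [AddCommGroup W] [Module k W] (S : Ch Q) (G : Ch Q → W) :
    ∑ x ∈ S.1, sgn k S x • ∑ y ∈ (er S x).1, sgn k (er S x) y • G (er (er S x) y) = 0 := by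
  simp only [Finset.smul_sum, smul_smul]
  rw [Finset.sum_sigma']
  refine Finset.sum_involution (fun a _ => ⟨a.2, a.1⟩) ?_ ?_ ?_ ?_
  · rintro ⟨x, y⟩ hxy
    simp only [Finset.mem_sigma, er_coe, Finset.mem_erase] at hxy
    obtain ⟨hx, hyx, hy⟩ := hxy
    dsimp only
    rw [er_comm S y x, ← add_smul]
    have key : sgn k S x * sgn k (er S x) y + sgn k S y * sgn k (er S y) x = 0 := by
      rcases S.2 hx hy (Ne.symm hyx) with h | h
      · have hlt : x < y := lt_of_le_of_ne h (Ne.symm hyx)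
        rw [sgn_er_of_lt S hx hlt, sgn_er_of_not_lt S (not_lt_of_gt hlt)]
        ring
      · have hlt : y < x := lt_of_le_of_ne h hyx
        rw [sgn_er_of_lt S hy hlt, sgn_er_of_not_lt S (not_lt_of_gt hlt)]
        ring
    rw [key, zero_smul]
  · rintro ⟨x, y⟩ hxy _ h
    simp only [Finset.mem_sigma, er_coe, Finset.mem_erase] at hxy
    simp only [Sigma.mk.injEq] at h
    exact hxy.2.1 h.1
  · rintro ⟨x, y⟩ hxy
    simp only [Finset.mem_sigma, er_coe, Finset.mem_erase] at hxy ⊢
    exact ⟨hxy.2.2, Ne.symm hxy.2.1, hxy.1⟩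
  · rintro ⟨x, y⟩ _
    rfl

/-- boundary operator -/
def bd (k : Type*) [Field k] (Q : Type*) [PartialOrder Q] : (Ch Q →₀ k) →ₗ[k] (Ch Q →₀ k) :=
  opOf fun S => ∑ x ∈ S.1, sgn k S x • dl k (er S x)

lemma bd_dl (S : Ch Q) : bd k Q (dl k S) = ∑ x ∈ S.1, sgn k S x • dl k (er S x) :=
  opOf_dl _ S

lemma bd_bd (v : Ch Q →₀ k) : bd k Q (bd k Q v) = 0 := by
  have : (bd k Q).comp (bd k Q) = 0 := by
    refine ext_dl fun S => ?_
    rw [LinearMap.comp_apply, bd_dl, map_sum]
    simp only [map_smul, bd_dl]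
    exact sum_sgn_sgn S (fun S => dl k S)
  exact congrArg (fun A : (Ch Q →₀ k) →ₗ[k] (Ch Q →₀ k) => A v) this

/-- cone columns -/
def cnc (k : Type*) [Field k] {Q : Type*} [PartialOrder Q] (p : Q) (S : Ch Q) : Ch Q →₀ k :=
  if h : p ∉ S.1 ∧ IsChain (· ≤ ·) ((insert p S.1 : Finset Q) : Set Q) then
    dl k (⟨insert p S.1, h.2⟩ : Ch Q) else 0

/-- cone operator -/
def cn (k : Type*) [Field k] {Q : Type*} [PartialOrder Q] (p : Q) :
    (Ch Q →₀ k) →ₗ[k] (Ch Q →₀ k) := opOf (cnc k p)

lemma cn_dl (p : Q) (S : Ch Q) : cn k p (dl k S) = cnc k p S := opOf_dl _ S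

/-- chains above `p` -/
def Up (p : Q) (v : Ch Q →₀ k) : Prop := Supp (fun S : Ch Q => ∀ x ∈ S.1, p ≤ x) v

/-- chains with exactly `d` elements -/
def Hom (d : ℕ) (v : Ch Q →₀ k) : Prop := Supp (fun S : Ch Q => S.1.card = d) v

lemma Up.mono {p q : Q} (h : p ≤ q) {v : Ch Q →₀ k} (hv : Up q v) : Up p v :=
  Supp.mono (fun _ hS x hx => h.trans (hS x hx)) hv

lemma up_cn {p : Q} {v : Ch Q →₀ k} (hv : Up p v) : Up p (cn k p v) := by
  refine Supp.map (fun S hS => ?_) hv
  rw [cn_dl]
  unfold cnc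
  split_ifs with h
  · refine Supp.dl fun x hx => ?_
    rcases Finset.mem_insert.mp hx with rfl | hx
    · exact le_rfl
    · exact hS x hx
  · exact Supp.zero _

lemma hom_bd {d : ℕ} {v : Ch Q →₀ k} (hv : Hom (d + 1) v) : Hom d (bd k Q v) := by
  refine Supp.map (fun S hS => ?_) hv
  rw [bd_dl]
  refine Supp.sum _ _ fun x hx => Supp.smul _ (Supp.dl ?_)
  rw [er_coe, Finset.card_erase_of_mem hx, hS]
  rfl

lemma bd_cn_dl (p : Q) (S : Ch Q) (hS : ∀ x ∈ S.1, p ≤ x) :
    bd k Q (cn k p (dl k S)) + cn k p (bd k Q (dl k S)) = dl k S := by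
  have hsg : sgn k S p = 1 := by
    unfold sgn
    have : S.1.filter (· < p) = ∅ := by
      rw [Finset.filter_eq_empty_iff]
      intro x hx h
      exact absurd (hS x hx) (not_le_of_gt h)
    rw [this]
    simp
  by_cases hp : p ∈ S.1
  · have h1 : cnc k p S = 0 := by
      unfold cnc
      rw [dif_neg]
      rintro ⟨h, _⟩
      exact h hp
    rw [cn_dl, h1, map_zero, zero_add, bd_dl, map_sum]
    rw [Finset.sum_eq_single p]
    · rw [map_smul, hsg, one_smul, cn_dl]
      unfold cnc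
      have h2 : p ∉ (er S p).1 := by simp [er_coe]
      have h3 : insert p (er S p).1 = S.1 := by rw [er_coe, Finset.insert_erase hp]
      have h4 : IsChain (· ≤ ·) ((insert p (er S p).1 : Finset Q) : Set Q) := by
        rw [h3]; exact S.2
      rw [dif_pos ⟨h2, h4⟩]
      congr 1
      exact Subtype.ext h3
    · intro x hx hxp
      rw [map_smul, cn_dl]
      have : cnc k p (er S x) = 0 := by
        unfold cnc
        rw [dif_neg]
        rintro ⟨h, _⟩
        apply h
        rw [er_coe, Finset.mem_erase]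
        exact ⟨Ne.symm hxp, hp⟩
      rw [this, smul_zero]
    · intro h
      exact absurd hp h
  · have hc := isChain_insert hS
    set T : Ch Q := ⟨insert p S.1, hc⟩ with hT
    have h1 : cnc k p S = dl k T := by
      unfold cnc
      rw [dif_pos ⟨hp, hc⟩]
    rw [cn_dl, h1, bd_dl, bd_dl, map_sum]
    have hTs : T.1 = insert p S.1 := rfl
    rw [hTs, Finset.sum_insert hp]
    have h2 : sgn k T p = 1 := by
      unfold sgn
      have : T.1.filter (· < p) = ∅ := by
        rw [Finset.filter_eq_empty_iff]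
        intro x hx h
        rcases Finset.mem_insert.mp hx with rfl | hx
        · exact lt_irrefl _ h
        · exact absurd (hS x hx) (not_le_of_gt h)
      rw [this]
      simp
    have h3 : er T p = S := by
      apply Subtype.ext
      rw [er_coe, hTs, Finset.erase_insert hp]
    rw [h2, one_smul, h3, add_assoc, ← Finset.sum_add_distrib]
    have h4 : ∑ x ∈ S.1, (sgn k T x • dl k (er T x) + cn k p (sgn k S x • dl k (er S x))) = 0 := by
      refine Finset.sum_eq_zero fun x hx => ?_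
      have hpx : p < x := lt_of_le_of_ne (hS x hx) (by rintro rfl; exact hp hx)
      have h5 : sgn k S x = - sgn k T x := by
        rw [← sgn_er_of_lt T (x := p) (Finset.mem_insert_self _ _) hpx, h3]
      rw [map_smul, cn_dl, h5, neg_smul]
      have h6 : cnc k p (er S x) = dl k (er T x) := by
        unfold cnc
        have h7 : p ∉ (er S x).1 := by
          rw [er_coe, Finset.mem_erase]
          rintro ⟨_, h⟩
          exact hp h
        have h8 : insert p (er S x).1 = (er T x).1 := by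
          rw [er_coe, er_coe, hTs, Finset.erase_insert_of_ne hpx.ne]
        have h9 : IsChain (· ≤ ·) ((insert p (er S x).1 : Finset Q) : Set Q) := by
          rw [h8]; exact (er T x).2
        rw [dif_pos ⟨h7, h9⟩]
        congr 1
        exact Subtype.ext h8
      rw [h6, add_neg_cancel]
    rw [h4, add_zero]

lemma bd_cn (p : Q) {v : Ch Q →₀ k} (hv : Up p v) :
    bd k Q (cn k p v) + cn k p (bd k Q v) = v := by
  have := Supp.eq (A := (bd k Q).comp (cn k p) + (cn k p).comp (bd k Q)) (B := LinearMap.id)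
    (R := fun S : Ch Q => ∀ x ∈ S.1, p ≤ x) (fun S hS => bd_cn_dl p S hS) hv
  exact this

/-! ### the filling recursion -/

/-- The filling recursion. -/
def fill (ε : k) (φ : Ch Q → Q) (g : Ch Q → Ch Q →₀ k) (r0 : Ch Q →₀ k) (S : Ch Q) :
    Ch Q →₀ k :=
  if S.1 = ∅ then r0 else
    cn k (φ S) (g S + ε • ∑ x ∈ S.1.attach, sgn k S x.1 • fill ε φ g r0 (er S x.1))
termination_by S.1.card
decreasing_by exact Finset.card_erase_lt_of_mem x.2

variable (ε : k) (φ : Ch Q → Q) (g : Ch Q → Ch Q →₀ k) (r0 : Ch Q →₀ k)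

lemma fill_empty {S : Ch Q} (h : S.1 = ∅) : fill ε φ g r0 S = r0 := by
  rw [fill, if_pos h]

lemma fill_ne {S : Ch Q} (h : S.1.Nonempty) :
    fill ε φ g r0 S =
      cn k (φ S) (g S + ε • ∑ x ∈ S.1, sgn k S x • fill ε φ g r0 (er S x)) := by
  rw [fill, if_neg h.ne_empty]
  rw [Finset.sum_attach S.1 (fun x => sgn k S x • fill ε φ g r0 (er S x))]

lemma fill_main (S : Ch Q)
    (hφ : ∀ T : Ch Q, T.1 ⊆ S.1 → ∀ T' : Ch Q, T'.1 ⊆ T.1 → T'.1.Nonempty → φ T ≤ φ T')
    (hg : ∀ T : Ch Q, T.1 ⊆ S.1 → T.1.Nonempty → Up (φ T) (g T))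
    (hr : ∀ T : Ch Q, T.1 ⊆ S.1 → T.1.Nonempty → Up (φ T) r0)
    (hbr : bd k Q r0 = g emp)
    (hbg : ∀ T : Ch Q, T.1 ⊆ S.1 → T.1.Nonempty →
      bd k Q (g T) + ε • ∑ x ∈ T.1, sgn k T x • g (er T x) = 0) :
    ∀ T : Ch Q, T.1 ⊆ S.1 → (T.1.Nonempty → Up (φ T) (fill ε φ g r0 T)) ∧
      bd k Q (fill ε φ g r0 T) = g T + ε • ∑ x ∈ T.1, sgn k T x • fill ε φ g r0 (er T x) := by
  intro T
  induction T using ch_ind with
  | h T ih =>
    intro hTS
    rcases Finset.eq_empty_or_nonempty T.1 with he | hne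
    · have hTe : T = emp := Subtype.ext he
      refine ⟨fun h => absurd he h.ne_empty, ?_⟩
      rw [fill_empty _ _ _ _ he, he, Finset.sum_empty, smul_zero, add_zero, hTe]
      exact hbr
    · have herS : ∀ x, (er T x).1 ⊆ S.1 := fun x => (Finset.erase_subset _ _).trans hTS
      have hup : Up (φ T) (g T + ε • ∑ x ∈ T.1, sgn k T x • fill ε φ g r0 (er T x)) := by
        refine Supp.add (hg T hTS hne) (Supp.smul _ (Supp.sum _ _ fun x hx => Supp.smul _ ?_))
        rcases Finset.eq_empty_or_nonempty (er T x).1 with he' | hne'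
        · rw [fill_empty _ _ _ _ he']
          exact hr T hTS hne
        · exact Up.mono (hφ T hTS (er T x) (Finset.erase_subset _ _) hne')
            ((ih x hx (herS x)).1 hne')
      refine ⟨fun _ => ?_, ?_⟩
      · rw [fill_ne _ _ _ _ hne]
        exact up_cn hup
      · conv_lhs => rw [fill_ne _ _ _ _ hne]
        have h1 := bd_cn (φ T) hup
        have h2 : bd k Q (g T + ε • ∑ x ∈ T.1, sgn k T x • fill ε φ g r0 (er T x)) = 0 := by
          rw [map_add, map_smul, map_sum]
          have h3 : ∑ x ∈ T.1, bd k Q (sgn k T x • fill ε φ g r0 (er T x)) =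
              ∑ x ∈ T.1, sgn k T x • g (er T x) + ε • ∑ x ∈ T.1, sgn k T x •
                ∑ y ∈ (er T x).1, sgn k (er T x) y • fill ε φ g r0 (er (er T x) y) := by
            rw [Finset.smul_sum, ← Finset.sum_add_distrib]
            refine Finset.sum_congr rfl fun x hx => ?_
            rw [map_smul, (ih x hx (herS x)).2, smul_add, smul_comm ε]
          rw [h3, sum_sgn_sgn T (fun U => fill ε φ g r0 U), smul_zero, add_zero]
          exact hbg T hTS hne
        rw [h2, map_zero, add_zero] at h1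
        exact h1

/-! ### exactness -/

/-- every cycle bounds -/
def Exact (k : Type*) [Field k] (Q : Type*) [PartialOrder Q] : Prop :=
  ∀ v : Ch Q →₀ k, bd k Q v = 0 → ∃ w : Ch Q →₀ k, bd k Q w = v

lemma bd_emp : bd k Q (dl k (emp : Ch Q)) = 0 := by
  rw [bd_dl]
  simp [emp]

lemma bd_sg (x : Q) : bd k Q (dl k (sg x)) = dl k (emp : Ch Q) := by
  rw [bd_dl]
  change ∑ y ∈ {x}, sgn k (sg x) y • dl k (er (sg x) y) = _
  rw [Finset.sum_singleton]
  have h3 : sgn k (sg x) x = 1 := by
    unfold sgn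
    have : (sg x).1.filter (· < x) = ∅ := by
      rw [Finset.filter_eq_empty_iff]
      intro y hy
      have : y = x := by simpa [sg] using hy
      rw [this]
      exact lt_irrefl x
    rw [this]
    simp
  have h4 : er (sg x) x = emp := by
    apply Subtype.ext
    rw [er_coe]
    simp [sg, emp]
  rw [h3, h4, one_smul]

/-- Carriers on the finite chains of a poset give acyclicity. -/
theorem exact_of_carriers (s : Q) (R Pi : Ch Q → Q)
    (hR : ∀ T T' : Ch Q, T'.1 ⊆ T.1 → T'.1.Nonempty → R T ≤ R T')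
    (hPi : ∀ T T' : Ch Q, T'.1 ⊆ T.1 → T'.1.Nonempty → Pi T ≤ Pi T')
    (hPR : ∀ T : Ch Q, T.1.Nonempty → Pi T ≤ R T)
    (hPs : ∀ T : Ch Q, T.1.Nonempty → Pi T ≤ s)
    (hM : ∀ T : Ch Q, T.1.Nonempty → ∀ m ∈ T.1, (∀ x ∈ T.1, m ≤ x) → m ≤ R T) :
    Exact k Q := by
  -- least elements
  have hML : ∀ T : Ch Q, T.1.Nonempty → lst s T.1 ∈ T.1 ∧ ∀ x ∈ T.1, lst s T.1 ≤ x :=
    fun T hne' => lst_spec s T.2 hne'
  set Su : Ch Q → Ch Q →₀ k := fill 1 R (fun _ => 0) (dl k emp) with hSudef
  set E1 : Ch Q → Ch Q →₀ k := fill (-1) Pi Su (dl k (sg s)) with hE1def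
  set E2 : Ch Q → Ch Q →₀ k := fill (-1) (fun T => lst s T.1) (fun T => Su T - dl k T) 0
    with hE2def
  have hSuE : Su emp = dl k emp := fill_empty _ _ _ _ rfl
  have key : ∀ S : Ch Q, bd k Q (E1 S - E2 S) + ∑ x ∈ S.1, sgn k S x • (E1 (er S x) - E2 (er S x))
      = dl k S := by
    intro S
    have hSu := fill_main 1 R (fun _ => 0) (dl k emp) S
      (fun T _ T' hT' hne' => hR T T' hT' hne')
      (fun T _ _ => Supp.zero _)
      (fun T _ _ => Supp.dl (R := fun S : Ch Q => ∀ x ∈ S.1, R T ≤ x)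
        (by intro x hx; simp [emp] at hx))
      bd_emp (fun T _ _ => by simp)
    change ∀ T : Ch Q, T.1 ⊆ S.1 → (T.1.Nonempty → Up (R T) (Su T)) ∧
        bd k Q (Su T) = 0 + (1 : k) • ∑ x ∈ T.1, sgn k T x • Su (er T x) at hSu
    have hSu2 : ∀ T : Ch Q, T.1 ⊆ S.1 →
        bd k Q (Su T) = ∑ x ∈ T.1, sgn k T x • Su (er T x) := by
      intro T hT
      rw [(hSu T hT).2, zero_add, one_smul]
    have hE1 := fill_main (-1) Pi Su (dl k (sg s)) S
      (fun T _ T' hT' hne' => hPi T T' hT' hne')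
      (fun T hT hne' => Up.mono (hPR T hne') ((hSu T hT).1 hne'))
      (fun T hT hne' => Supp.dl (R := fun S : Ch Q => ∀ x ∈ S.1, Pi T ≤ x)
        (by
          intro x hx
          have : x = s := by simpa [sg] using hx
          rw [this]
          exact hPs T hne'))
      (by rw [bd_sg, hSuE])
      (fun T hT _ => by rw [hSu2 T hT, neg_smul, one_smul, add_neg_cancel])
    have hE2 := fill_main (-1) (fun T => lst s T.1) (fun T => Su T - dl k T) 0 S
      (fun T _ T' hT' hne' => (hML T (hne'.mono hT')).2 _ (hT' (hML T' hne').1))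
      (fun T hT hne' => Supp.sub
        (Up.mono (hM T hne' _ (hML T hne').1 (hML T hne').2) ((hSu T hT).1 hne'))
        (Supp.dl (R := fun S : Ch Q => ∀ x ∈ S.1, lst s T.1 ≤ x) (hML T hne').2))
      (fun T _ _ => Supp.zero _)
      (by rw [hSuE, sub_self, map_zero])
      (fun T hT _ => by
        rw [map_sub, hSu2 T hT, bd_dl, neg_smul, one_smul]
        simp only [smul_sub, Finset.sum_sub_distrib]
        exact add_neg_cancel _)
    have e1 := (hE1 S (Finset.Subset.refl _)).2
    have e2 := (hE2 S (Finset.Subset.refl _)).2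
    change bd k Q (E1 S) = Su S + (-1 : k) • ∑ x ∈ S.1, sgn k S x • E1 (er S x) at e1
    change bd k Q (E2 S) =
      Su S - dl k S + (-1 : k) • ∑ x ∈ S.1, sgn k S x • E2 (er S x) at e2
    rw [map_sub, e1, e2]
    simp only [smul_sub, Finset.sum_sub_distrib]
    rw [neg_smul, neg_smul, one_smul, one_smul]
    abel
  set H : (Ch Q →₀ k) →ₗ[k] (Ch Q →₀ k) := opOf fun S => E1 S - E2 S with hH
  have hid : (bd k Q).comp H + H.comp (bd k Q) = LinearMap.id := by
    refine ext_dl fun S => ?_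
    rw [LinearMap.add_apply, LinearMap.comp_apply, LinearMap.comp_apply, LinearMap.id_apply,
      bd_dl, map_sum]
    simp only [hH, opOf_dl, map_smul]
    exact key S
  intro v hv
  refine ⟨H v, ?_⟩
  have := congrArg (fun A : (Ch Q →₀ k) →ₗ[k] (Ch Q →₀ k) => A v) hid
  simp only [LinearMap.add_apply, LinearMap.comp_apply, LinearMap.id_apply, hv, map_zero,
    add_zero] at this
  exact this

end

end Pool.Agent.Helper43.SP.FK
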