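import Mathlib

/-!
Finitely supported functions: supports of images of linear maps.
-/

set_option autoImplicit false

namespace Pool.Agent.Helper43.SP.FK

open scoped Classical

noncomputable section

variable {k : Type*} [Field k] {ι κ : Type*}

/-- basis vector -/
def dl (k : Type*) [Field k] {ι : Type*} (i : ι) : ι →₀ k := Finsupp.single i 1

lemma dl_self (i : ι) : dl k i i = 1 := by simp [dl]

lemma dl_ne {i j : ι} (h : j ≠ i) : dl k i j = 0 := by
  simp [dl, Ne.symm h]

lemma dl_apply (i j : ι) : dl k i j = if j = i then 1 else 0 := by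
  by_cases h : j = i
  · rw [if_pos h, h, dl_self]
  · rw [if_neg h, dl_ne h]

variable {W : Type*} [AddCommGroup W] [Module k W]

/-- The operator with given columns. -/
def opOf (c : ι → W) : (ι →₀ k) →ₗ[k] W := Finsupp.linearCombination k c

lemma opOf_dl (c : ι → W) (i : ι) : opOf (k := k) c (dl k i) = c i := by
  simp [opOf, dl]

lemma eq_sum_dl (v : ι →₀ k) : v = ∑ i ∈ v.support, v i • dl k i := by
  conv_lhs => rw [← Finsupp.sum_single v]
  unfold Finsupp.sum dl
  refine Finset.sum_congr rfl fun i _ => ?_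
  rw [Finsupp.smul_single, smul_eq_mul, mul_one]

lemma map_eq_sum (A : (ι →₀ k) →ₗ[k] W) (v : ι →₀ k) :
    A v = ∑ i ∈ v.support, v i • A (dl k i) := by
  conv_lhs => rw [eq_sum_dl v, map_sum]
  simp only [map_smul]

/-- `v` is supported on the indices satisfying `R`. -/
def Supp (R : ι → Prop) (v : ι →₀ k) : Prop := ∀ i, ¬ R i → v i = 0

lemma Supp.zero (R : ι → Prop) : Supp R (0 : ι →₀ k) := fun _ _ => rfl

lemma Supp.add {R : ι → Prop} {v w : ι →₀ k} (hv : Supp R v) (hw : Supp R w) :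
    Supp R (v + w) := by
  intro i hi
  rw [Finsupp.add_apply, hv i hi, hw i hi, add_zero]

lemma Supp.smul {R : ι → Prop} {v : ι →₀ k} (r : k) (hv : Supp R v) : Supp R (r • v) := by
  intro i hi
  rw [Finsupp.smul_apply, hv i hi, smul_zero]

lemma Supp.neg {R : ι → Prop} {v : ι →₀ k} (hv : Supp R v) : Supp R (-v) := by
  intro i hi
  rw [Finsupp.neg_apply, hv i hi, neg_zero]

lemma Supp.sub {R : ι → Prop} {v w : ι →₀ k} (hv : Supp R v) (hw : Supp R w) :
    Supp R (v - w) := by
  rw [sub_eq_add_neg]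
  exact hv.add hw.neg

lemma Supp.sum {R : ι → Prop} {α : Type*} (s : Finset α) (f : α → ι →₀ k)
    (h : ∀ a ∈ s, Supp R (f a)) : Supp R (∑ a ∈ s, f a) := by
  induction s using Finset.induction_on with
  | empty => simpa using Supp.zero R
  | insert a s ha ih =>
    rw [Finset.sum_insert ha]
    exact (h a (Finset.mem_insert_self _ _)).add (ih fun b hb => h b (Finset.mem_insert_of_mem hb))

lemma Supp.mono {R R' : ι → Prop} (hR : ∀ i, R i → R' i) {v : ι →₀ k} (hv : Supp R v) :
    Supp R' v := fun i hi => hv i fun h => hi (hR i h)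

lemma Supp.dl {R : ι → Prop} {i : ι} (hi : R i) : Supp R (FK.dl k i) := by
  intro j hj
  refine dl_ne ?_
  rintro rfl
  exact hj hi

lemma Supp.mem {R : ι → Prop} {v : ι →₀ k} (hv : Supp R v) {i : ι} (hi : i ∈ v.support) :
    R i := by
  by_contra h
  exact (Finsupp.mem_support_iff.mp hi) (hv i h)

lemma Supp.map {R : ι → Prop} {R' : κ → Prop} {A : (ι →₀ k) →ₗ[k] (κ →₀ k)}
    (h : ∀ i, R i → Supp R' (A (FK.dl k i))) {v : ι →₀ k} (hv : Supp R v) : Supp R' (A v) := by
  rw [map_eq_sum]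
  exact Supp.sum _ _ fun i hi => Supp.smul _ (h i (hv.mem hi))

lemma Supp.eq {R : ι → Prop} {A B : (ι →₀ k) →ₗ[k] W}
    (h : ∀ i, R i → A (FK.dl k i) = B (FK.dl k i)) {v : ι →₀ k} (hv : Supp R v) : A v = B v := by
  rw [map_eq_sum A, map_eq_sum B]
  refine Finset.sum_congr rfl fun i hi => ?_
  rw [h i (hv.mem hi)]

lemma ext_dl {A B : (ι →₀ k) →ₗ[k] W} (h : ∀ i, A (dl k i) = B (dl k i)) : A = B := by
  ext1 v
  refine LinearMap.ext fun r => ?_
  have h1 : Finsupp.single v r = r • dl k v := by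
    unfold dl
    rw [Finsupp.smul_single, smul_eq_mul, mul_one]
  simp only [LinearMap.comp_apply, Finsupp.lsingle_apply]
  rw [h1, map_smul, map_smul, h]

/-- permutation operator -/
def act (g : ι ≃ ι) : (ι →₀ k) →ₗ[k] (ι →₀ k) := opOf fun i => dl k (g i)

lemma act_dl (g : ι ≃ ι) (i : ι) : act g (dl k i) = dl k (g i) := opOf_dl _ i

lemma act_apply (g : ι ≃ ι) (v : ι →₀ k) (i : ι) : act g v (g i) = v i := by
  have : (Finsupp.lapply (g i)).comp (act g) = (Finsupp.lapply i : (ι →₀ k) →ₗ[k] k) := by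
    refine ext_dl fun j => ?_
    rw [LinearMap.comp_apply, act_dl, Finsupp.lapply_apply, Finsupp.lapply_apply, dl_apply,
      dl_apply]
    simp [g.injective.eq_iff]
  exact congrArg (fun A : (ι →₀ k) →ₗ[k] k => A v) this

lemma act_apply' (g : ι ≃ ι) (v : ι →₀ k) (i : ι) : act g v i = v (g.symm i) := by
  conv_lhs => rw [← g.apply_symm_apply i]
  exact act_apply g v _

end

end Pool.Agent.Helper43.SP.FK
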