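import Mathlib

/-!
A regular sequence of commuting operators on a quotient complex: cycles of the subcomplex killed by
all the operators bound in the subcomplex, if the whole complex is exact.
-/

set_option autoImplicit false

namespace Pool.Agent.Helper43.SP.FK

universe u

/-- Abstract data: an exact complex `V` with commuting operators `x a` which form a regular
sequence modulo `N 0`, where `N (j + 1) = N j + x j V`. -/
structure KD {k : Type*} [Field k] {V : Type u} [AddCommGroup V] [Module k V] (d : V →ₗ[k] V)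
    (x : ℕ → V →ₗ[k] V) (N : ℕ → Submodule k V) : Prop where
  dd : ∀ v, d (d v) = 0
  dx : ∀ a v, d (x a v) = x a (d v)
  xx : ∀ a b v, x a (x b v) = x b (x a v)
  dN : ∀ j, ∀ v ∈ N j, d v ∈ N j
  le : ∀ j, N j ≤ N (j + 1)
  xm : ∀ j v, x j v ∈ N (j + 1)
  dec : ∀ j, ∀ v ∈ N (j + 1), ∃ m ∈ N j, ∃ y, v = m + x j y
  reg : ∀ j v, x j v ∈ N j → v ∈ N j
  ex : ∀ v, d v = 0 → ∃ w, d w = v

variable {k : Type*} [Field k]

/-- the differential of the cone -/
def coneD {V : Type u} [AddCommGroup V] [Module k V] (d x0 : V →ₗ[k] V) :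
    (V × V) →ₗ[k] (V × V) :=
  (d.comp (LinearMap.fst k V V)).prod
    (x0.comp (LinearMap.fst k V V) - d.comp (LinearMap.snd k V V))

lemma coneD_apply {V : Type u} [AddCommGroup V] [Module k V] (d x0 : V →ₗ[k] V) (w : V × V) :
    coneD d x0 w = (d w.1, x0 w.1 - d w.2) := rfl

lemma KD.one_le {V : Type u} [AddCommGroup V] [Module k V] {d : V →ₗ[k] V}
    {x : ℕ → V →ₗ[k] V} {N : ℕ → Submodule k V} (h : KD d x N) (j : ℕ) : N 1 ≤ N (j + 1) := by
  induction j with
  | zero => exact le_rfl
  | succ j ih => exact ih.trans (h.le (j + 1))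

lemma KD.cone {V : Type u} [AddCommGroup V] [Module k V] {d : V →ₗ[k] V}
    {x : ℕ → V →ₗ[k] V} {N : ℕ → Submodule k V} (h : KD d x N) :
    KD (coneD d (x 0)) (fun a => (x (a + 1)).prodMap (x (a + 1)))
      (fun j => Submodule.prod ⊤ (N (j + 1))) where
  dd := by
    intro v
    rw [coneD_apply, coneD_apply]
    dsimp only
    rw [h.dd, map_sub, h.dd, h.dx]
    simp
  dx := by
    intro a v
    rw [coneD_apply, LinearMap.prodMap_apply, coneD_apply, LinearMap.prodMap_apply]
    dsimp only
    rw [h.dx, h.dx, h.xx 0 (a + 1), map_sub]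
  xx := by
    intro a b v
    simp only [LinearMap.prodMap_apply]
    rw [h.xx (a + 1) (b + 1), h.xx (a + 1) (b + 1)]
  dN := by
    intro j v hv
    rw [Submodule.mem_prod] at hv ⊢
    refine ⟨trivial, ?_⟩
    rw [coneD_apply]
    exact (N (j + 1)).sub_mem (h.one_le j (h.xm 0 _)) (h.dN _ _ hv.2)
  le := by
    intro j v hv
    rw [Submodule.mem_prod] at hv ⊢
    exact ⟨trivial, h.le _ hv.2⟩
  xm := by
    intro j v
    rw [Submodule.mem_prod]
    exact ⟨trivial, h.xm _ _⟩
  dec := by
    intro j v hv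
    rw [Submodule.mem_prod] at hv
    obtain ⟨m, hm, y, hy⟩ := h.dec _ _ hv.2
    refine ⟨(v.1, m), ?_, (0, y), ?_⟩
    · rw [Submodule.mem_prod]
      exact ⟨trivial, hm⟩
    · rw [LinearMap.prodMap_apply, map_zero]
      ext
      · simp
      · simpa using hy
  reg := by
    intro j v hv
    rw [Submodule.mem_prod] at hv ⊢
    exact ⟨trivial, h.reg _ _ hv.2⟩
  ex := by
    intro v hv
    rw [coneD_apply, Prod.mk_eq_zero] at hv
    obtain ⟨u', hu'⟩ := h.ex v.1 hv.1
    have h1 : d (x 0 u' - v.2) = 0 := by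
      rw [map_sub, h.dx, hu']
      exact hv.2
    obtain ⟨v', hv'⟩ := h.ex _ h1
    refine ⟨(u', v'), ?_⟩
    rw [coneD_apply]
    dsimp only
    rw [hu', hv', sub_sub_cancel]

theorem KD.main (c : ℕ) : ∀ {V : Type u} [AddCommGroup V] [Module k V] {d : V →ₗ[k] V}
    {x : ℕ → V →ₗ[k] V} {N : ℕ → Submodule k V} (_ : KD d x N) (pr : ℕ → V →ₗ[k] V) (i : ℕ)
    (z : V) (_ : ∀ t v, pr t (d v) = d (pr (t + 1) v)) (_ : ∀ a t v, pr t (x a v) = x a (pr t v))
    (_ : ∀ v, pr (i + 1 + c) v ∈ N c) (_ : pr i z = z) (_ : d z = 0) (_ : ∀ a, x a z = 0),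
    ∃ u ∈ N 0, d u = z := by
  induction c with
  | zero =>
    intro V _ _ d x N h pr i z prd _ top hz dz _
    obtain ⟨w, hw⟩ := h.ex z dz
    refine ⟨pr (i + 1) w, top w, ?_⟩
    rw [← prd, hw, hz]
  | succ c ih =>
    intro V _ _ d x N h pr i z prd prx top hz dz xz
    obtain ⟨w, hw, hdw⟩ := ih h.cone (fun t => (pr t).prodMap (pr (t + 1))) i (z, 0)
      (by
        intro t v
        rw [LinearMap.prodMap_apply, coneD_apply, coneD_apply, LinearMap.prodMap_apply]
        dsimp only
        rw [prd, map_sub, prx, prd])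
      (by
        intro a t v
        simp only [LinearMap.prodMap_apply]
        rw [prx, prx])
      (by
        intro v
        rw [Submodule.mem_prod]
        refine ⟨trivial, ?_⟩
        have := top v.2
        rwa [show i + 1 + (c + 1) = i + 1 + c + 1 by ring] at this)
      (by rw [LinearMap.prodMap_apply, hz, map_zero])
      (by
        rw [coneD_apply]
        dsimp only
        rw [dz, xz, map_zero, sub_zero]
        rfl)
      (by
        intro a
        rw [LinearMap.prodMap_apply, xz, map_zero]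
        rfl)
    rw [Submodule.mem_prod] at hw
    rw [coneD_apply, Prod.mk.injEq] at hdw
    obtain ⟨m, hm, y, hy⟩ := h.dec 0 w.2 hw.2
    have h1 : x 0 (w.1 - d y) = d m := by
      have h2 := hdw.2
      rw [sub_eq_zero, hy, map_add, h.dx] at h2
      rw [map_sub, h2, add_sub_cancel_right]
    refine ⟨w.1 - d y, h.reg 0 _ ?_, ?_⟩
    · rw [h1]
      exact h.dN 0 m hm
    · rw [map_sub, h.dd, sub_zero, hdw.1]

end Pool.Agent.Helper43.SP.FK
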