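import Mathlib

/-!
Basic operator theory on real l1 spaces of functions on a set, and generalised limits
(ultrafilter limits of Cesaro means), taken coordinatewise.
-/

set_option autoImplicit false

namespace Pool.Agent.Helper43.SP

open Filter Topology
open scoped ENNReal Classical

noncomputable section

/-- Real l1 space over an index set. -/
abbrev L1 (ι : Type*) := lp (fun _ : ι => ℝ) 1

variable {ι κ : Type*}

/-- The basis vector. -/
def dl (i : ι) : L1 ι := lp.single 1 i (1 : ℝ)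

lemma dl_apply (i j : ι) : dl i j = if j = i then 1 else 0 := by
  unfold dl
  rw [lp.coeFn_single]
  simp [Pi.single_apply]

lemma dl_self (i : ι) : dl i i = 1 := by simp [dl_apply]

lemma dl_ne {i j : ι} (h : j ≠ i) : dl i j = 0 := by simp [dl_apply, h]

lemma norm_dl (i : ι) : ‖dl i‖ = 1 := by
  unfold dl
  rw [lp.norm_single (by norm_num)]
  simp

lemma hasSum_dl (v : L1 ι) : HasSum (fun i => v i • dl i) v := by
  have h := lp.hasSum_single (p := 1) (by simp) v
  refine h.congr_fun ?_ |> fun h => h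
  intro i
  unfold dl
  rw [← lp.single_smul]
  simp

lemma summable_abs (v : L1 ι) : Summable (fun i => |v i|) := by
  have := (lp.memℓp v).summable (by simp)
  simpa using this

lemma norm_eq (v : L1 ι) : ‖v‖ = ∑' i, |v i| := by
  rw [lp.norm_eq_tsum_rpow (by simp)]
  simp

variable {W : Type*} [NormedAddCommGroup W] [NormedSpace ℝ W] [CompleteSpace W]

lemma summable_cols (c : ι → W) (C : ℝ) (h : ∀ i, ‖c i‖ ≤ C) (v : L1 ι) :
    Summable (fun i => v i • c i) := by
  refine Summable.of_norm_bounded (g := fun i => |v i| * C) ((summable_abs v).mul_right C) ?_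
  intro i
  rw [norm_smul, Real.norm_eq_abs]
  exact mul_le_mul_of_nonneg_left (h i) (abs_nonneg _)

/-- The bounded operator with given (uniformly bounded) columns. -/
def opOf (c : ι → W) : L1 ι →L[ℝ] W :=
  if h : ∃ C, ∀ i, ‖c i‖ ≤ C then
    LinearMap.mkContinuous
      { toFun := fun v => ∑' i, v i • c i
        map_add' := by
          obtain ⟨C, hC⟩ := h
          intro v w
          rw [← (summable_cols c C hC v).tsum_add (summable_cols c C hC w)]
          refine tsum_congr fun i => ?_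
          rw [lp.coeFn_add, Pi.add_apply, add_smul]
        map_smul' := by
          intro r v
          rw [RingHom.id_apply, ← tsum_const_smul'']
          refine tsum_congr fun i => ?_
          rw [lp.coeFn_smul, Pi.smul_apply, smul_eq_mul, mul_smul] }
      h.choose (by
        intro v
        have hC := h.choose_spec
        have h1 : ∀ i, ‖v i • c i‖ ≤ |v i| * h.choose := by
          intro i
          rw [norm_smul, Real.norm_eq_abs]
          exact mul_le_mul_of_nonneg_left (hC i) (abs_nonneg _)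
        have h2 := tsum_of_norm_bounded ((summable_abs v).mul_right h.choose).hasSum h1
        rw [tsum_mul_right] at h2
        rw [norm_eq v, mul_comm]
        exact h2)
  else 0

lemma opOf_dl (c : ι → W) (h : ∃ C, ∀ i, ‖c i‖ ≤ C) (i : ι) : opOf c (dl i) = c i := by
  unfold opOf
  rw [dif_pos h]
  change ∑' j, dl i j • c j = c i
  rw [tsum_eq_single i]
  · simp [dl_self]
  · intro j hj
    simp [dl_ne hj]

lemma norm_opOf_le (c : ι → W) (C : ℝ) (h : ∀ i, ‖c i‖ ≤ C) (v : L1 ι) :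
    ‖opOf c v‖ ≤ C * ‖v‖ := by
  unfold opOf
  rw [dif_pos ⟨C, h⟩]
  change ‖∑' j, v j • c j‖ ≤ _
  have h1 : ∀ i, ‖v i • c i‖ ≤ |v i| * C := by
    intro i
    rw [norm_smul, Real.norm_eq_abs]
    exact mul_le_mul_of_nonneg_left (h i) (abs_nonneg _)
  have h2 := tsum_of_norm_bounded ((summable_abs v).mul_right C).hasSum h1
  rw [tsum_mul_right] at h2
  rw [norm_eq v, mul_comm]
  exact h2

/-- `v` is supported on the indices satisfying `R`. -/
def Supp (R : ι → Prop) (v : L1 ι) : Prop := ∀ i, ¬ R i → v i = 0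

lemma Supp.zero (R : ι → Prop) : Supp R (0 : L1 ι) := fun _ _ => rfl

lemma Supp.add {R : ι → Prop} {v w : L1 ι} (hv : Supp R v) (hw : Supp R w) : Supp R (v + w) := by
  intro i hi
  rw [lp.coeFn_add, Pi.add_apply, hv i hi, hw i hi, add_zero]

lemma Supp.smul {R : ι → Prop} {v : L1 ι} (r : ℝ) (hv : Supp R v) : Supp R (r • v) := by
  intro i hi
  rw [lp.coeFn_smul, Pi.smul_apply, hv i hi, smul_zero]

lemma Supp.neg {R : ι → Prop} {v : L1 ι} (hv : Supp R v) : Supp R (-v) := by
  intro i hi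
  rw [lp.coeFn_neg, Pi.neg_apply, hv i hi, neg_zero]

lemma Supp.sub {R : ι → Prop} {v w : L1 ι} (hv : Supp R v) (hw : Supp R w) : Supp R (v - w) := by
  rw [sub_eq_add_neg]
  exact hv.add hw.neg

lemma Supp.sum {R : ι → Prop} {α : Type*} (s : Finset α) (f : α → L1 ι)
    (h : ∀ a ∈ s, Supp R (f a)) : Supp R (∑ a ∈ s, f a) := by
  induction s using Finset.induction_on with
  | empty => simpa using Supp.zero R
  | insert a s ha ih =>
    rw [Finset.sum_insert ha]
    exact (h a (Finset.mem_insert_self _ _)).add (ih fun b hb => h b (Finset.mem_insert_of_mem hb))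

lemma Supp.mono {R R' : ι → Prop} (hR : ∀ i, R i → R' i) {v : L1 ι} (hv : Supp R v) :
    Supp R' v := fun i hi => hv i fun h => hi (hR i h)

lemma Supp.dl {R : ι → Prop} {i : ι} (hi : R i) : Supp R (dl i) := by
  intro j hj
  refine dl_ne ?_
  rintro rfl
  exact hj hi

omit [CompleteSpace W] in
lemma clm_eq_tsum (A : L1 ι →L[ℝ] W) (v : L1 ι) : HasSum (fun i => v i • A (dl i)) (A v) := by
  have h := (hasSum_dl v).mapL A
  simpa using h

omit [CompleteSpace W] in
lemma Supp.eq {R : ι → Prop} {A B : L1 ι →L[ℝ] W} (h : ∀ i, R i → A (SP.dl i) = B (SP.dl i))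
    {v : L1 ι} (hv : Supp R v) : A v = B v := by
  have h1 := clm_eq_tsum A v
  have h2 := clm_eq_tsum B v
  refine h1.unique ?_
  convert h2 using 1
  funext i
  by_cases hi : R i
  · rw [h i hi]
  · rw [hv i hi, zero_smul, zero_smul]

lemma ext_dl {A B : L1 ι →L[ℝ] W} (h : ∀ i, A (dl i) = B (dl i)) : A = B := by
  ext1 v
  exact Supp.eq (R := fun _ => True) (fun i _ => h i) (fun i hi => absurd trivial hi)

/-- evaluation at a coordinate -/
def ev (i : ι) : L1 ι →L[ℝ] ℝ := lp.evalCLM ℝ (fun _ : ι => ℝ) 1 i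

lemma ev_apply (i : ι) (v : L1 ι) : ev i v = v i := rfl

lemma Supp.map {R : ι → Prop} {R' : κ → Prop} {A : L1 ι →L[ℝ] L1 κ}
    (h : ∀ i, R i → Supp R' (A (SP.dl i))) {v : L1 ι} (hv : Supp R v) : Supp R' (A v) := by
  intro k hk
  have h1 := (clm_eq_tsum A v).mapL (ev k)
  simp only [map_smul, ev_apply] at h1
  refine h1.unique ?_
  have h2 : (fun i => v i • A (SP.dl i) k) = fun _ => 0 := by
    funext i
    by_cases hi : R i
    · rw [h i hi k hk, smul_zero]
    · rw [hv i hi, zero_smul]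
  rw [h2]
  exact hasSum_zero

lemma apply_eq_tsum (A : L1 ι →L[ℝ] L1 κ) (v : L1 ι) (k : κ) :
    HasSum (fun i => v i * A (dl i) k) (A v k) := by
  have h1 := (clm_eq_tsum A v).mapL (ev k)
  simpa only [map_smul, ev_apply, smul_eq_mul] using h1

lemma abs_le_norm (v : L1 ι) (i : ι) : |v i| ≤ ‖v‖ := by
  have := lp.norm_apply_le_norm (p := 1) (by simp) v i
  simpa using this

/-! ### generalised limits -/

/-- boundedness of a sequence of vectors -/
def Bdd (w : ℕ → L1 ι) : Prop := ∃ C, ∀ i, ‖w i‖ ≤ C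

/-- Cesaro mean -/
def ces (w : ℕ → L1 ι) (N : ℕ) : L1 ι := (N : ℝ)⁻¹ • ∑ i ∈ Finset.range N, w i

lemma norm_ces_le (w : ℕ → L1 ι) (C : ℝ) (h : ∀ i, ‖w i‖ ≤ C) (N : ℕ) : ‖ces w N‖ ≤ C := by
  have hC : 0 ≤ C := (norm_nonneg _).trans (h 0)
  unfold ces
  rw [norm_smul]
  have h1 : ‖∑ i ∈ Finset.range N, w i‖ ≤ N * C := by
    refine (norm_sum_le_of_le _ (fun i _ => h i)).trans ?_
    simp
  rcases Nat.eq_zero_or_pos N with rfl | hN
  · simpa using hC
  · have hN' : (0 : ℝ) < N := by exact_mod_cast hN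
    rw [norm_inv, Real.norm_natCast]
    calc (N : ℝ)⁻¹ * ‖∑ i ∈ Finset.range N, w i‖ ≤ (N : ℝ)⁻¹ * (N * C) := by
          exact mul_le_mul_of_nonneg_left h1 (by positivity)
      _ = C := by field_simp

/-- scalar ultrafilter limit -/
def ulim (a : ℕ → ℝ) : ℝ := limUnder ((hyperfilter ℕ : Ultrafilter ℕ) : Filter ℕ) a

lemma tendsto_ulim (a : ℕ → ℝ) (C : ℝ) (h : ∀ i, |a i| ≤ C) :
    Tendsto a ((hyperfilter ℕ : Ultrafilter ℕ) : Filter ℕ) (𝓝 (ulim a)) := by
  apply tendsto_nhds_limUnder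
  have hc : IsCompact (Set.Icc (-C) C) := isCompact_Icc
  have hm : Set.Icc (-C) C ∈ (hyperfilter ℕ : Ultrafilter ℕ).map a := by
    rw [Ultrafilter.mem_map]
    refine Filter.mem_of_superset Filter.univ_mem ?_
    intro i _
    exact abs_le.mp (h i)
  obtain ⟨x, _, hx⟩ := hc.ultrafilter_le_nhds _ (le_principal_iff.mpr hm)
  exact ⟨x, hx⟩

/-- the generalised limit of a sequence in l1 -/
def LIM (w : ℕ → L1 ι) : L1 ι :=
  if h : Memℓp (fun i => ulim (fun N => ces w N i)) 1 then ⟨_, h⟩ else 0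

lemma tendsto_coord (w : ℕ → L1 ι) (h : Bdd w) (i : ι) :
    Tendsto (fun N => ces w N i) ((hyperfilter ℕ : Ultrafilter ℕ) : Filter ℕ)
      (𝓝 (ulim (fun N => ces w N i))) := by
  obtain ⟨C, hC⟩ := h
  exact tendsto_ulim _ C fun N => (abs_le_norm _ i).trans (norm_ces_le w C hC N)

lemma memℓp_LIM (w : ℕ → L1 ι) (h : Bdd w) : Memℓp (fun i => ulim (fun N => ces w N i)) 1 := by
  obtain ⟨C, hC⟩ := h
  refine lp.memℓp_of_tendsto (F := fun N => ces w N)
    (l := ((hyperfilter ℕ : Ultrafilter ℕ) : Filter ℕ)) ?_ ?_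
  · rw [isBounded_iff_forall_norm_le]
    refine ⟨C, ?_⟩
    rintro _ ⟨N, rfl⟩
    exact norm_ces_le w C hC N
  · rw [tendsto_pi_nhds]
    intro i
    exact tendsto_coord w ⟨C, hC⟩ i

lemma LIM_apply (w : ℕ → L1 ι) (h : Bdd w) (i : ι) :
    LIM w i = ulim (fun N => ces w N i) := by
  unfold LIM
  rw [dif_pos (memℓp_LIM w h)]

lemma LIM_tendsto (w : ℕ → L1 ι) (h : Bdd w) (i : ι) :
    Tendsto (fun N => ces w N i) ((hyperfilter ℕ : Ultrafilter ℕ) : Filter ℕ) (𝓝 (LIM w i)) := by
  rw [LIM_apply w h]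
  exact tendsto_coord w h i

lemma norm_LIM_le (w : ℕ → L1 ι) (C : ℝ) (hC : ∀ i, ‖w i‖ ≤ C) : ‖LIM w‖ ≤ C := by
  refine lp.norm_le_of_tendsto (F := fun N => ces w N)
    (l := ((hyperfilter ℕ : Ultrafilter ℕ) : Filter ℕ)) ?_ ?_
  · exact Eventually.of_forall (norm_ces_le w C hC)
  · rw [tendsto_pi_nhds]
    intro i
    exact LIM_tendsto w ⟨C, hC⟩ i

/-- Characterisation of the generalised limit. -/
lemma LIM_eq (w : ℕ → L1 ι) (h : Bdd w) (u : L1 ι)
    (hu : ∀ i, Tendsto (fun N => ces w N i) ((hyperfilter ℕ : Ultrafilter ℕ) : Filter ℕ)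
      (𝓝 (u i))) : LIM w = u := by
  ext i
  exact tendsto_nhds_unique (LIM_tendsto w h i) (hu i)

lemma ces_add (w w' : ℕ → L1 ι) (N : ℕ) : ces (fun i => w i + w' i) N = ces w N + ces w' N := by
  unfold ces
  rw [Finset.sum_add_distrib, smul_add]

lemma ces_smul (r : ℝ) (w : ℕ → L1 ι) (N : ℕ) : ces (fun i => r • w i) N = r • ces w N := by
  unfold ces
  rw [← Finset.smul_sum, smul_comm]

lemma Bdd.add {w w' : ℕ → L1 ι} (h : Bdd w) (h' : Bdd w') : Bdd (fun i => w i + w' i) := by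
  obtain ⟨C, hC⟩ := h
  obtain ⟨C', hC'⟩ := h'
  exact ⟨C + C', fun i => (norm_add_le _ _).trans (add_le_add (hC i) (hC' i))⟩

lemma Bdd.smul {w : ℕ → L1 ι} (r : ℝ) (h : Bdd w) : Bdd (fun i => r • w i) := by
  obtain ⟨C, hC⟩ := h
  refine ⟨|r| * C, fun i => ?_⟩
  rw [norm_smul, Real.norm_eq_abs]
  exact mul_le_mul_of_nonneg_left (hC i) (abs_nonneg _)

lemma Bdd.map {w : ℕ → L1 ι} (A : L1 ι →L[ℝ] L1 κ) (h : Bdd w) : Bdd (fun i => A (w i)) := by
  obtain ⟨C, hC⟩ := h
  refine ⟨‖A‖ * C, fun i => ?_⟩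
  exact (A.le_opNorm _).trans (mul_le_mul_of_nonneg_left (hC i) (norm_nonneg _))

lemma Bdd.shift {w : ℕ → L1 ι} (h : Bdd w) : Bdd (fun i => w (i + 1)) := by
  obtain ⟨C, hC⟩ := h
  exact ⟨C, fun i => hC (i + 1)⟩

lemma Bdd.zero : Bdd (fun _ => (0 : L1 ι)) := ⟨0, fun _ => by simp⟩

lemma LIM_add {w w' : ℕ → L1 ι} (h : Bdd w) (h' : Bdd w') :
    LIM (fun i => w i + w' i) = LIM w + LIM w' := by
  refine LIM_eq _ (h.add h') _ fun i => ?_
  simp only [ces_add, lp.coeFn_add, Pi.add_apply]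
  exact (LIM_tendsto w h i).add (LIM_tendsto w' h' i)

lemma LIM_smul (r : ℝ) {w : ℕ → L1 ι} (h : Bdd w) : LIM (fun i => r • w i) = r • LIM w := by
  refine LIM_eq _ (h.smul r) _ fun i => ?_
  simp only [ces_smul, lp.coeFn_smul, Pi.smul_apply, smul_eq_mul]
  exact (LIM_tendsto w h i).const_mul r

lemma LIM_zero : LIM (fun _ => (0 : L1 ι)) = 0 := by
  refine LIM_eq _ Bdd.zero _ fun i => ?_
  simp [ces]

lemma Bdd.sum {α : Type*} (s : Finset α) (w : α → ℕ → L1 ι) (h : ∀ a ∈ s, Bdd (w a)) :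
    Bdd (fun i => ∑ a ∈ s, w a i) := by
  induction s using Finset.induction_on with
  | empty => simpa using Bdd.zero
  | insert a s ha ih =>
    simp only [Finset.sum_insert ha]
    exact (h a (Finset.mem_insert_self _ _)).add (ih fun b hb => h b (Finset.mem_insert_of_mem hb))

lemma LIM_sum {α : Type*} (s : Finset α) (w : α → ℕ → L1 ι) (h : ∀ a ∈ s, Bdd (w a)) :
    LIM (fun i => ∑ a ∈ s, w a i) = ∑ a ∈ s, LIM (w a) := by
  induction s using Finset.induction_on with
  | empty => simpa using LIM_zero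
  | insert a s ha ih =>
    simp only [Finset.sum_insert ha]
    rw [LIM_add (h a (Finset.mem_insert_self _ _))
      (Bdd.sum s w fun b hb => h b (Finset.mem_insert_of_mem hb)),
      ih fun b hb => h b (Finset.mem_insert_of_mem hb)]

lemma hyper_le : ((hyperfilter ℕ : Ultrafilter ℕ) : Filter ℕ) ≤ atTop := by
  have := hyperfilter_le_cofinite (α := ℕ)
  rwa [Nat.cofinite_eq_atTop] at this

/-- two sequences which differ by a summable-type bounded total amount have the same limit -/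
lemma LIM_congr_of_bounded {w w' : ℕ → L1 ι} (h : Bdd w) (h' : Bdd w') (B : ℝ)
    (hB : ∀ N, ‖∑ i ∈ Finset.range N, w i - ∑ i ∈ Finset.range N, w' i‖ ≤ B) :
    LIM w = LIM w' := by
  refine LIM_eq _ h _ fun i => ?_
  have h1 := LIM_tendsto w' h' i
  have h2 : Tendsto (fun N : ℕ => ces w N i - ces w' N i)
      ((hyperfilter ℕ : Ultrafilter ℕ) : Filter ℕ) (𝓝 0) := by
    have h3 : Tendsto (fun N : ℕ => B * (N : ℝ)⁻¹) atTop (𝓝 0) := by
      have := (tendsto_inv_atTop_nhds_zero_nat (𝕜 := ℝ)).const_mul B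
      simpa using this
    refine squeeze_zero_norm' (Eventually.of_forall fun N => ?_) (h3.mono_left hyper_le)
    have h4 : ces w N i - ces w' N i = (N : ℝ)⁻¹ *
        (∑ i ∈ Finset.range N, w i - ∑ i ∈ Finset.range N, w' i : L1 ι) i := by
      simp only [ces, lp.coeFn_smul, Pi.smul_apply, smul_eq_mul, lp.coeFn_sub, Pi.sub_apply]
      ring
    rw [h4, norm_mul, norm_inv, Real.norm_natCast, mul_comm]
    refine mul_le_mul_of_nonneg_right ?_ (by positivity)
    exact (abs_le_norm _ i).trans (hB N)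
  have h3 := h2.add h1
  simpa using h3

lemma LIM_congr {w w' : ℕ → L1 ι} (h : Bdd w) (h' : Bdd w') (he : ∀ᶠ i in atTop, w i = w' i) :
    LIM w = LIM w' := by
  obtain ⟨n0, hn0⟩ := eventually_atTop.mp he
  obtain ⟨C, hC⟩ := h
  obtain ⟨C', hC'⟩ := h'
  refine LIM_congr_of_bounded ⟨C, hC⟩ ⟨C', hC'⟩ (n0 * (C + C')) fun N => ?_
  rw [← Finset.sum_sub_distrib]
  have hnn : 0 ≤ C + C' := add_nonneg ((norm_nonneg _).trans (hC 0)) ((norm_nonneg _).trans (hC' 0))
  calc ‖∑ i ∈ Finset.range N, (w i - w' i)‖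
      ≤ ∑ i ∈ Finset.range N, ‖w i - w' i‖ := norm_sum_le _ _
    _ ≤ ∑ i ∈ Finset.range N, (if i < n0 then C + C' else 0) := by
        refine Finset.sum_le_sum fun i _ => ?_
        split_ifs with hi
        · exact (norm_sub_le _ _).trans (add_le_add (hC i) (hC' i))
        · rw [hn0 i (not_lt.mp hi), sub_self, norm_zero]
    _ = ((Finset.range N).filter (fun i => i < n0)).card * (C + C') := by
        rw [← Finset.sum_filter, Finset.sum_const, nsmul_eq_mul]
    _ ≤ n0 * (C + C') := by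
        refine mul_le_mul_of_nonneg_right ?_ hnn
        have : ((Finset.range N).filter (fun i => i < n0)).card ≤ (Finset.range n0).card := by
          refine Finset.card_le_card ?_
          intro i hi
          simp only [Finset.mem_filter, Finset.mem_range] at hi ⊢
          exact hi.2
        rw [Finset.card_range] at this
        exact_mod_cast this

lemma LIM_const (v : L1 ι) : LIM (fun _ => v) = v := by
  refine LIM_eq _ ⟨‖v‖, fun _ => le_rfl⟩ _ fun i => ?_
  refine Tendsto.congr' ?_ tendsto_const_nhds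
  have : ∀ᶠ N : ℕ in ((hyperfilter ℕ : Ultrafilter ℕ) : Filter ℕ), 1 ≤ N :=
    hyper_le (eventually_ge_atTop 1)
  filter_upwards [this] with N hN
  have hN' : (N : ℝ) ≠ 0 := by positivity
  have h1 : ces (fun _ => v) N = v := by
    unfold ces
    rw [Finset.sum_const, Finset.card_range, ← Nat.cast_smul_eq_nsmul ℝ, smul_smul,
      inv_mul_cancel₀ hN', one_smul]
  rw [h1]

lemma LIM_of_eventually {w : ℕ → L1 ι} (h : Bdd w) {v : L1 ι} (he : ∀ᶠ i in atTop, w i = v) :
    LIM w = v := by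
  rw [LIM_congr h ⟨‖v‖, fun _ => le_rfl⟩ he, LIM_const]

lemma LIM_shift {w : ℕ → L1 ι} (h : Bdd w) : LIM (fun i => w (i + 1)) = LIM w := by
  obtain ⟨C, hC⟩ := h
  refine LIM_congr_of_bounded ⟨C, fun i => hC (i + 1)⟩ ⟨C, hC⟩ (2 * C) fun N => ?_
  have : ∑ i ∈ Finset.range N, w (i + 1) - ∑ i ∈ Finset.range N, w i = w N - w 0 := by
    rw [← Finset.sum_sub_distrib]
    exact Finset.sum_range_sub w N
  rw [this]
  have := norm_sub_le (w N) (w 0)
  linarith [hC N, hC 0]

lemma Supp.LIM {R : ι → Prop} {w : ℕ → L1 ι} (h : Bdd w) (hw : ∀ i, Supp R (w i)) :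
    Supp R (SP.LIM w) := by
  intro i hi
  refine tendsto_nhds_unique (LIM_tendsto w h i) ?_
  have : (fun N => ces w N i) = fun _ => 0 := by
    funext N
    have h1 : Supp R (ces w N) := Supp.smul _ (Supp.sum _ _ fun j _ => hw j)
    exact h1 i hi
  rw [this]
  exact tendsto_const_nhds

/-! ### permutation operators -/

/-- The operator induced by a bijection of the index set. -/
def act (g : ι ≃ ι) : L1 ι →L[ℝ] L1 ι := opOf fun i => dl (g i)

lemma act_dl (g : ι ≃ ι) (i : ι) : act g (dl i) = dl (g i) :=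
  opOf_dl _ ⟨1, fun i => (norm_dl (g i)).le⟩ i

lemma act_apply (g : ι ≃ ι) (v : L1 ι) (i : ι) : act g v (g i) = v i := by
  have : (ev (g i)).comp (act g) = ev i := by
    refine ext_dl fun j => ?_
    rw [ContinuousLinearMap.comp_apply, act_dl, ev_apply, ev_apply, dl_apply, dl_apply]
    simp [g.injective.eq_iff]
  exact congrArg (fun A : L1 ι →L[ℝ] ℝ => A v) this

lemma act_apply' (g : ι ≃ ι) (v : L1 ι) (i : ι) : act g v i = v (g.symm i) := by
  conv_lhs => rw [← g.apply_symm_apply i]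
  exact act_apply g v _

lemma act_ces (g : ι ≃ ι) (w : ℕ → L1 ι) (N : ℕ) : act g (ces w N) = ces (fun i => act g (w i)) N := by
  unfold ces
  rw [map_smul, map_sum]

lemma act_LIM (g : ι ≃ ι) {w : ℕ → L1 ι} (h : Bdd w) :
    act g (LIM w) = LIM (fun i => act g (w i)) := by
  symm
  refine LIM_eq _ (h.map (act g)) _ fun i => ?_
  rw [act_apply']
  have h1 := LIM_tendsto w h (g.symm i)
  have h2 : (fun N => ces (fun i => act g (w i)) N i) = fun N => ces w N (g.symm i) := by
    funext N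
    rw [← act_ces, act_apply']
  rw [h2]
  exact h1

end

end Pool.Agent.Helper43.SP
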