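import Pool.Agent.Helper43.SP.Smith

/-!
Lefschetz argument on finite subsets and the descent along the p-part of the order.
-/

set_option autoImplicit false

namespace Pool.Agent.Helper43.SP.FK

open scoped Classical
open Matrix

noncomputable section

variable {k : Type*} [Field k]

section mat

variable {ι : Type*} (R : ι → Prop) [Fintype {i // R i}]

lemma eq_sum_of_supp (v : ι →₀ k) (hv : Supp R v) : v = ∑ b : {i // R i}, v b.1 • dl k b.1 := by
  ext i
  rw [Finsupp.finsetSum_apply]
  by_cases hi : R i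
  · rw [Finset.sum_eq_single ⟨i, hi⟩]
    · rw [Finsupp.smul_apply, dl_self, smul_eq_mul, mul_one]
    · intro b _ hb
      rw [Finsupp.smul_apply, dl_ne, smul_zero]
      rintro rfl
      exact hb rfl
    · intro h
      exact absurd (Finset.mem_univ _) h
  · rw [hv i hi, Finset.sum_eq_zero]
    intro b _
    rw [Finsupp.smul_apply, dl_ne, smul_zero]
    rintro rfl
    exact hi b.2

/-- matrix of an operator on a finite set of coordinates -/
def mat (A : (ι →₀ k) →ₗ[k] (ι →₀ k)) : Matrix {i // R i} {i // R i} k :=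
  fun a b => A (dl k b.1) a.1

lemma mat_mul (A B : (ι →₀ k) →ₗ[k] (ι →₀ k)) (hB : ∀ b, R b → Supp R (B (dl k b))) :
    mat R A * mat R B = mat R (A.comp B) := by
  ext a c
  rw [Matrix.mul_apply]
  unfold mat
  rw [LinearMap.comp_apply]
  conv_rhs => rw [eq_sum_of_supp R (B (dl k c.1)) (hB c.1 c.2), map_sum]
  rw [Finsupp.finsetSum_apply]
  refine Finset.sum_congr rfl fun b _ => ?_
  rw [map_smul, Finsupp.smul_apply, smul_eq_mul, mul_comm]

end mat

variable {X : Type*} [PartialOrder X]

theorem exists_fixed (F : X ≃o X) (U : Set X) (hU : U.Finite) (hFU : ∀ x ∈ U, F x ∈ U)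
    (M : (Ch X →₀ k) →ₗ[k] (Ch X →₀ k))
    (hM1 : ∀ S : Ch X, InU U S → bd k X (M (dl k S)) + M (bd k X (dl k S)) = dl k S)
    (hMs : ∀ S : Ch X, InU U S → Supp (InU U) (M (dl k S))) :
    ∃ x ∈ U, F x = x := by
  have hfin : Finite {S : Ch X // InU U S} := by
    have : Finite (↥(hU.toFinset.powerset)) := inferInstance
    refine Finite.of_injective (β := ↥(hU.toFinset.powerset))
      (fun S => ⟨S.1.1, ?_⟩) ?_
    · rw [Finset.mem_powerset]
      intro x hx
      rw [Set.Finite.mem_toFinset]
      exact S.2 hx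
    · intro S T h
      have : S.1.1 = T.1.1 := Subtype.mk.inj h
      exact Subtype.ext (Subtype.ext this)
  have : Fintype {S : Ch X // InU U S} := Fintype.ofFinite _
  have hbs : ∀ b, InU U b → Supp (InU U) (bd k X (dl k b)) := fun b hb => supp_bd (Supp.dl hb)
  have has : ∀ b, InU U b → Supp (InU U) (act (mapCh F) (dl k b)) := by
    intro b hb
    rw [act_dl]
    refine Supp.dl ?_
    intro y hy
    rw [Finset.mem_coe, mapCh_coe, Finset.mem_map] at hy
    obtain ⟨z, hz, rfl⟩ := hy
    exact hFU z (hb hz)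
  set D := mat (InU U) (bd k X) with hD
  set N := mat (InU U) M with hN
  set Φ := mat (k := k) (InU U) (act (mapCh F)) with hΦ
  set ep : {S : Ch X // InU U S} → k := fun S => (-1) ^ S.1.1.card with hep
  set Ep : Matrix {S : Ch X // InU U S} {S : Ch X // InU U S} k := Matrix.diagonal ep with hEp
  have e1 : D * N + N * D = 1 := by
    rw [hD, hN, mat_mul (InU U) _ _ hMs, mat_mul (InU U) _ _ hbs]
    ext a b
    rw [Matrix.add_apply]
    unfold mat
    rw [LinearMap.comp_apply, LinearMap.comp_apply]
    have h1 : (bd k X (M (dl k b.1)) + M (bd k X (dl k b.1))) a.1 = dl k b.1 a.1 := by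
      rw [hM1 b.1 b.2]
    rw [Finsupp.add_apply] at h1
    rw [h1, dl_apply, Matrix.one_apply]
    by_cases hab : a = b
    · rw [if_pos hab, if_pos (by rw [hab])]
    · rw [if_neg hab, if_neg (fun h => hab (Subtype.ext h))]
  have e2 : Φ * D = D * Φ := by
    rw [hD, hΦ, mat_mul (InU U) _ _ hbs, mat_mul (InU U) _ _ has]
    ext a b
    unfold mat
    rw [LinearMap.comp_apply, LinearMap.comp_apply, act_bd]
  have e3 : Ep * D = - (D * Ep) := by
    ext a b
    rw [hEp, Matrix.diagonal_mul, Matrix.neg_apply, Matrix.mul_diagonal]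
    by_cases hab : b.1.1.card = a.1.1.card + 1
    · simp only [hep]
      rw [hab, pow_succ]
      ring
    · have h0 : D a b = 0 := by
        rw [hD]
        unfold mat
        rw [bd_dl, Finsupp.finsetSum_apply]
        refine Finset.sum_eq_zero fun x hx => ?_
        rw [Finsupp.smul_apply, dl_ne, smul_zero]
        intro h
        apply hab
        rw [h, er_coe, Finset.card_erase_of_mem hx]
        have := Finset.card_pos.mpr ⟨x, hx⟩
        omega
      rw [h0]
      ring
  have tr0 : Matrix.trace (Ep * Φ) = 0 := by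
    have h1 : Ep * Φ = Ep * Φ * D * N + Ep * Φ * N * D := by
      have : Ep * Φ = Ep * Φ * (D * N + N * D) := by rw [e1, mul_one]
      rw [mul_add, ← mul_assoc, ← mul_assoc] at this
      exact this
    have h2 : Matrix.trace (Ep * Φ * N * D) = - Matrix.trace (Ep * Φ * D * N) := by
      rw [Matrix.trace_mul_comm]
      have : D * (Ep * Φ * N) = - (Ep * Φ * D * N) := by
        have h3 : D * Ep = - (Ep * D) := by rw [e3, neg_neg]
        calc D * (Ep * Φ * N) = (D * Ep) * Φ * N := by simp only [mul_assoc]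
          _ = - (Ep * (D * Φ) * N) := by rw [h3]; simp only [neg_mul, mul_assoc]
          _ = - (Ep * Φ * D * N) := by rw [← e2]; simp only [mul_assoc]
      rw [this, Matrix.trace_neg]
    rw [h1, Matrix.trace_add, h2, add_neg_cancel]
  by_contra hno
  push Not at hno
  have hone : Matrix.trace (Ep * Φ) = 1 := by
    rw [Matrix.trace]
    have hemp : InU U (emp : Ch X) := by
      intro x hx
      simp [emp] at hx
    rw [Finset.sum_eq_single (⟨emp, hemp⟩ : {S : Ch X // InU U S})]
    · rw [Matrix.diag_apply, hEp, Matrix.diagonal_mul]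
      simp only [hep, hΦ]
      unfold mat
      rw [act_dl]
      have h1 : mapCh F (emp : Ch X) = emp := by
        apply Subtype.ext
        rw [mapCh_coe]
        simp [emp]
      rw [h1, dl_self]
      simp [emp]
    · intro a _ ha
      rw [Matrix.diag_apply, hEp, Matrix.diagonal_mul]
      have h1 : Φ a a = 0 := by
        rw [hΦ]
        unfold mat
        rw [act_dl]
        refine dl_ne ?_
        intro h
        have hne : a.1.1.Nonempty := by
          rw [Finset.nonempty_iff_ne_empty]
          intro h'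
          exact ha (Subtype.ext (Subtype.ext h'))
        obtain ⟨x, hx, hleast⟩ := exists_least a.1 hne
        have h2 : F x ∈ a.1.1 := by
          rw [h, mem_mapCh]
          exact hx
        have h3 : F.symm x ∈ a.1.1 := by
          rw [← mem_mapCh F, ← h, OrderIso.apply_symm_apply]
          exact hx
        have h4 := hleast _ h2
        have h5 := hleast _ h3
        have h6 : F x ≤ x := by
          have := F.monotone h5
          rwa [OrderIso.apply_symm_apply] at this
        exact hno x (a.2 hx) (le_antisymm h6 h4)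
      rw [h1, mul_zero]
    · intro h
      exact absurd (Finset.mem_univ _) h
  rw [tr0] at hone
  exact zero_ne_one hone

lemma abs_contraction {V : Type*} [AddCommGroup V] [Module k V] (T : V →ₗ[k] V)
    (hTT : ∀ v, T (T v) = 0) (hexT : ∀ v, T v = 0 → ∃ w, T w = v) :
    ∃ M0 : V →ₗ[k] V, ∀ v, T (M0 v) + M0 (T v) = v := by
  -- projection onto the kernel
  obtain ⟨π, hπ⟩ := (LinearMap.ker T).subtype.exists_leftInverse_of_injective
    (LinearMap.ker T).ker_subtype
  set T' : V →ₗ[k] LinearMap.ker T := T.codRestrict (LinearMap.ker T)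
    (fun v => LinearMap.mem_ker.mpr (hTT v)) with hT'
  have hsurj : LinearMap.range T' = ⊤ := by
    rw [LinearMap.range_eq_top]
    intro z
    obtain ⟨w, hw⟩ := hexT z.1 (LinearMap.mem_ker.mp z.2)
    exact ⟨w, Subtype.ext hw⟩
  obtain ⟨ρ, hρ⟩ := LinearMap.exists_rightInverse_of_surjective T' hsurj
  set σ : V →ₗ[k] V := ρ.comp π with hσ
  have hσT : ∀ z, T z = 0 → T (σ z) = z := by
    intro z hz
    have h1 : π z = ⟨z, LinearMap.mem_ker.mpr hz⟩ := by
      have := congrArg (fun A : LinearMap.ker T →ₗ[k] LinearMap.ker T =>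
        A ⟨z, LinearMap.mem_ker.mpr hz⟩) hπ
      exact this
    have h2 := congrArg (fun A : LinearMap.ker T →ₗ[k] LinearMap.ker T => (A (π z)).1) hρ
    have h3 : T (ρ (π z)) = (π z).1 := h2
    rw [hσ, LinearMap.comp_apply, h3, h1]
  refine ⟨σ.comp (LinearMap.id - σ.comp T), fun v => ?_⟩
  have h1 : (σ.comp (LinearMap.id - σ.comp T)) v = σ (v - σ (T v)) := rfl
  have h2 : (σ.comp (LinearMap.id - σ.comp T)) (T v) = σ (T v - σ (T (T v))) := rfl
  have h3 : T (v - σ (T v)) = 0 := by
    rw [map_sub, hσT _ (hTT v), sub_self]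
  rw [h1, h2, hσT _ h3, hTT v, map_zero, sub_zero]
  abel

lemma abs_contraction' {V : Type*} [AddCommGroup V] [Module k V] (T : V →ₗ[k] V)
    (W : Submodule k V) (hTW : ∀ v ∈ W, T v ∈ W)
    (hTT : ∀ v, T (T v) = 0) (hexT : ∀ v ∈ W, T v = 0 → ∃ w ∈ W, T w = v) :
    ∃ M : V →ₗ[k] V, ∀ v ∈ W, T (M v) + M (T v) = v ∧ M v ∈ W := by
  obtain ⟨M0, hM0⟩ := abs_contraction (V := W) (T.restrict hTW)
    (fun v => Subtype.ext (hTT v.1)) (fun v hv => by
      obtain ⟨w, hw, hbw⟩ := hexT v.1 v.2 (congrArg Subtype.val hv)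
      exact ⟨⟨w, hw⟩, Subtype.ext hbw⟩)
  obtain ⟨P, hP⟩ := W.subtype.exists_leftInverse_of_injective W.ker_subtype
  have hP' : ∀ v : W, P v.1 = v := fun v =>
    congrArg (fun A : W →ₗ[k] W => A v) hP
  refine ⟨W.subtype.comp (M0.comp P), fun v hv => ⟨?_, (M0 (P v)).2⟩⟩
  have h1 : P v = ⟨v, hv⟩ := hP' ⟨v, hv⟩
  have h2 : P (T v) = (T.restrict hTW) ⟨v, hv⟩ := hP' ⟨T v, hTW v hv⟩
  rw [LinearMap.comp_apply, LinearMap.comp_apply, LinearMap.comp_apply, LinearMap.comp_apply,
    h1, h2]
  exact congrArg Subtype.val (hM0 ⟨v, hv⟩)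

/-- Exactness gives a linear contraction. -/
lemma exists_contraction (U : Set X) (h : ExOn k U) :
    ∃ M : (Ch X →₀ k) →ₗ[k] (Ch X →₀ k),
      (∀ S : Ch X, InU U S → bd k X (M (dl k S)) + M (bd k X (dl k S)) = dl k S) ∧
      (∀ S : Ch X, InU U S → Supp (InU U) (M (dl k S))) := by
  obtain ⟨M, hM⟩ := abs_contraction' (bd k X) (suppSub k (InU U)) (fun v hv => supp_bd hv)
    bd_bd (fun v hv hv0 => h v hv hv0)
  exact ⟨M, fun S hS => (hM _ (Supp.dl hS)).1, fun S hS => (hM _ (Supp.dl hS)).2⟩

/-- iterates of an order automorphism -/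
def itIso (F : X ≃o X) (n : ℕ) : X ≃o X where
  toFun := F^[n]
  invFun := F.symm^[n]
  left_inv := Function.LeftInverse.iterate F.symm_apply_apply n
  right_inv := Function.LeftInverse.iterate F.apply_symm_apply n
  map_rel_iff' := by
    intro x y
    change F^[n] x ≤ F^[n] y ↔ x ≤ y
    induction n generalizing x y with
    | zero => rfl
    | succ n ih =>
      rw [Function.iterate_succ_apply, Function.iterate_succ_apply, ih]
      exact F.le_iff_le

lemma itIso_apply (F : X ≃o X) (n : ℕ) (x : X) : itIso F n x = F^[n] x := rfl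

theorem descend (hn : FinLen X) (F : X ≃o X) {p : ℕ} (hp : p.Prime) [CharP k p] (b a : ℕ)
    (h : GEx k {x : X | F^[p ^ a * b] x = x}) : GEx k {x : X | F^[b] x = x} := by
  induction a with
  | zero => simpa using h
  | succ a ih =>
    apply ih
    have h1 := smith hn {x : X | F^[p ^ (a + 1) * b] x = x} (itIso F (p ^ a * b)) hp
      (fun x hx => by
        rw [Set.mem_ofPred_eq] at hx ⊢
        rw [itIso_apply, ← Function.iterate_add_apply, add_comm, Function.iterate_add_apply, hx])
      (fun x hx => by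
        rw [Set.mem_ofPred_eq] at hx
        have : (itIso F (p ^ a * b))^[p] x = F^[p ^ (a + 1) * b] x := by
          have h2 : ((itIso F (p ^ a * b) : X → X))^[p] = F^[p ^ (a + 1) * b] := by
            have h3 : (itIso F (p ^ a * b) : X → X) = F^[p ^ a * b] := rfl
            rw [h3, ← Function.iterate_mul]
            congr 1
            rw [pow_succ]
            ring
          rw [h2]
        rw [this, hx])
      h
    have h2 : {x : X | x ∈ {x : X | F^[p ^ (a + 1) * b] x = x} ∧
        (itIso F (p ^ a * b)) x = x} = {x : X | F^[p ^ a * b] x = x} := by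
      ext x
      simp only [Set.mem_ofPred_eq, itIso_apply]
      constructor
      · exact fun h => h.2
      · intro hx
        refine ⟨?_, hx⟩
        have h3 : p ^ (a + 1) * b = (p ^ a * b) * p := by rw [pow_succ]; ring
        rw [h3, Function.iterate_mul]
        exact Function.iterate_fixed hx p
    rw [h2] at h1
    exact h1

/-- An order automorphism of finite order of an acyclic poset of bounded length has a fixed point
if its points of period prime to `p` are finitely many. -/
theorem final_stage (hn : FinLen X) (F : X ≃o X) {p : ℕ} (hp : p.Prime) [CharP k p] (m : ℕ)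
    (hm0 : 0 < m) (hm : ∀ x, F^[m] x = x) (hex : GEx k (Set.univ : Set X))
    (hfin : {x : X | ∃ j, ¬ p ∣ j ∧ F^[j] x = x}.Finite) : ∃ x, F x = x := by
  obtain ⟨a, b, hb, hmab⟩ := Nat.exists_eq_pow_mul_and_not_dvd hm0.ne' p hp.ne_one
  have h1 : GEx k {x : X | F^[b] x = x} := by
    refine descend hn F hp b a ?_
    have : {x : X | F^[p ^ a * b] x = x} = Set.univ := by
      ext x
      simp only [Set.mem_ofPred_eq, Set.mem_univ, iff_true]
      rw [← hmab]
      exact hm x
    rw [this]
    exact hex
  obtain ⟨M, hM1, hM2⟩ := exists_contraction _ (h1.exOn hn)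
  obtain ⟨x, _, hx⟩ := exists_fixed F {x : X | F^[b] x = x}
    (hfin.subset fun x hx => ⟨b, hb, hx⟩)
    (fun x hx => by
      rw [Set.mem_ofPred_eq] at hx ⊢
      rw [← Function.iterate_succ_apply, Function.iterate_succ_apply', hx]) M hM1 hM2
  exact ⟨x, hx⟩

end

end Pool.Agent.Helper43.SP.FK
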