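import Pool.Agent.Helper43.SP.Ultra
import Pool.Agent.Helper43.SP.Push

/-!
Local carriers give acyclicity; application to the ultrapower of the direct limit of a special
poset.
-/

set_option autoImplicit false

namespace Pool.Agent.Helper43.SP.FK

open Filter
open scoped Classical

noncomputable section

variable {k : Type*} [Field k] {Q : Type*} [PartialOrder Q]

/-- Local carriers on the finite chains of a poset give acyclicity. -/
theorem exact_of_local (hloc : ∀ Y : Finset Q, ∃ (s : Q) (R Pi : Ch Q → Q),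
    (∀ T T' : Ch Q, T.1 ⊆ Y → T'.1 ⊆ T.1 → T'.1.Nonempty → R T ≤ R T') ∧
    (∀ T T' : Ch Q, T.1 ⊆ Y → T'.1 ⊆ T.1 → T'.1.Nonempty → Pi T ≤ Pi T') ∧
    (∀ T : Ch Q, T.1 ⊆ Y → T.1.Nonempty → Pi T ≤ R T) ∧
    (∀ T : Ch Q, T.1 ⊆ Y → T.1.Nonempty → Pi T ≤ s) ∧
    (∀ T : Ch Q, T.1 ⊆ Y → T.1.Nonempty → ∀ m ∈ T.1, (∀ x ∈ T.1, m ≤ x) → m ≤ R T)) :
    Exact k Q := by
  intro v hv
  obtain ⟨s, R, Pi, hR, hPi, hPR, hPs, hM⟩ := hloc (vts v)
  set Y := vts v with hY
  -- least elements
  have hML : ∀ T : Ch Q, T.1.Nonempty → lst s T.1 ∈ T.1 ∧ ∀ x ∈ T.1, lst s T.1 ≤ x :=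
    fun T hne' => lst_spec s T.2 hne'
  set Su : Ch Q → Ch Q →₀ k := fill 1 R (fun _ => 0) (dl k emp) with hSudef
  set E1 : Ch Q → Ch Q →₀ k := fill (-1) Pi Su (dl k (sg s)) with hE1def
  set E2 : Ch Q → Ch Q →₀ k := fill (-1) (fun T => lst s T.1) (fun T => Su T - dl k T) 0
    with hE2def
  have hSuE : Su emp = dl k emp := fill_empty _ _ _ _ rfl
  have key : ∀ S : Ch Q, S.1 ⊆ Y →
      bd k Q (E1 S - E2 S) + ∑ x ∈ S.1, sgn k S x • (E1 (er S x) - E2 (er S x)) = dl k S := by
    intro S hSY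
    have hSu := fill_main 1 R (fun _ => 0) (dl k emp) S
      (fun T hT T' hT' hne' => hR T T' (hT.trans hSY) hT' hne')
      (fun T _ _ => Supp.zero _)
      (fun T _ _ => Supp.dl (R := fun S : Ch Q => ∀ x ∈ S.1, R T ≤ x)
        (by intro x hx; simp [emp] at hx))
      bd_emp (fun T _ _ => by simp)
    change ∀ T : Ch Q, T.1 ⊆ S.1 → (T.1.Nonempty → Up (R T) (Su T)) ∧
        bd k Q (Su T) = 0 + (1 : k) • ∑ x ∈ T.1, sgn k T x • Su (er T x) at hSu
    have hSu2 : ∀ T : Ch Q, T.1 ⊆ S.1 →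
        bd k Q (Su T) = ∑ x ∈ T.1, sgn k T x • Su (er T x) := by
      intro T hT
      rw [(hSu T hT).2, zero_add, one_smul]
    have hE1 := fill_main (-1) Pi Su (dl k (sg s)) S
      (fun T hT T' hT' hne' => hPi T T' (hT.trans hSY) hT' hne')
      (fun T hT hne' => Up.mono (hPR T (hT.trans hSY) hne') ((hSu T hT).1 hne'))
      (fun T hT hne' => Supp.dl (R := fun S : Ch Q => ∀ x ∈ S.1, Pi T ≤ x)
        (by
          intro x hx
          have : x = s := by simpa [sg] using hx
          rw [this]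
          exact hPs T (hT.trans hSY) hne'))
      (by rw [bd_sg, hSuE])
      (fun T hT _ => by rw [hSu2 T hT, neg_smul, one_smul, add_neg_cancel])
    have hE2 := fill_main (-1) (fun T => lst s T.1) (fun T => Su T - dl k T) 0 S
      (fun T _ T' hT' hne' => (hML T (hne'.mono hT')).2 _ (hT' (hML T' hne').1))
      (fun T hT hne' => Supp.sub
        (Up.mono (hM T (hT.trans hSY) hne' _ (hML T hne').1 (hML T hne').2)
          ((hSu T hT).1 hne'))
        (Supp.dl (R := fun S : Ch Q => ∀ x ∈ S.1, lst s T.1 ≤ x) (hML T hne').2))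
      (fun T _ _ => Supp.zero _)
      (by rw [hSuE, sub_self, map_zero])
      (fun T hT _ => by
        rw [map_sub, hSu2 T hT, bd_dl, neg_smul, one_smul]
        simp only [smul_sub, Finset.sum_sub_distrib]
        exact add_neg_cancel _)
    have e1 := (hE1 S (Finset.Subset.refl _)).2
    have e2 := (hE2 S (Finset.Subset.refl _)).2
    change bd k Q (E1 S) = Su S + (-1 : k) • ∑ x ∈ S.1, sgn k S x • E1 (er S x) at e1
    change bd k Q (E2 S) =
      Su S - dl k S + (-1 : k) • ∑ x ∈ S.1, sgn k S x • E2 (er S x) at e2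
    rw [map_sub, e1, e2]
    simp only [smul_sub, Finset.sum_sub_distrib]
    rw [neg_smul, neg_smul, one_smul, one_smul]
    abel
  set H : (Ch Q →₀ k) →ₗ[k] (Ch Q →₀ k) := opOf fun S => E1 S - E2 S with hH
  have hid : (bd k Q).comp H v + H.comp (bd k Q) v = v := by
    have := Supp.eq (A := (bd k Q).comp H + H.comp (bd k Q)) (B := LinearMap.id)
      (R := InU (Y : Set Q)) (fun S hS => ?_) (supp_vts v)
    · exact this
    · rw [LinearMap.add_apply, LinearMap.comp_apply, LinearMap.comp_apply, LinearMap.id_apply,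
        bd_dl, map_sum]
      simp only [hH, opOf_dl, map_smul]
      exact key S (by exact_mod_cast hS)
  refine ⟨H v, ?_⟩
  simp only [LinearMap.comp_apply, hv, map_zero, add_zero] at hid
  exact hid

section special

variable {P : Type*} [PartialOrder P] (s : P) (f : P → P)
variable (h1 : ∀ x : P, (∃ z : P, IsLUB ({s, x} : Set P) z) ∨ (∃ z : P, IsGLB ({s, x} : Set P) z))
  (h2 : ∀ x y : P, x < y → (¬ ∃ z : P, IsGLB ({s, x} : Set P) z) →
    ∀ m : P, IsGLB ({s, y} : Set P) m → ∃ z : P, IsLUB ({m, x} : Set P) z)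

include h1 h2 in
/-- The ultrapower of the direct limit is acyclic. -/
theorem exact_UP (hf : Monotone f) : Exact k (UP (DL f)) := by
  apply exact_of_local
  intro Y
  -- a good level for each index
  have hlev : ∀ i : ℕ, ∃ l : ℕ, (∀ x ∈ Y, ∀ y ∈ Y,
      (rp x i ≤ rp y i ↔ rep (rp x i) l ≤ rep (rp y i) l)) ∧
      ∀ x ∈ Y, em f l (rep (rp x i) l) = rp x i := by
    intro i
    have e1 : ∀ᶠ l in atTop, ∀ x ∈ Y, ∀ y ∈ Y,
        (rp x i ≤ rp y i ↔ rep (rp x i) l ≤ rep (rp y i) l) := by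
      rw [Filter.eventually_all_finset]
      intro x _
      rw [Filter.eventually_all_finset]
      intro y _
      exact le_iff_ev hf _ _
    have e2 : ∀ᶠ l in atTop, ∀ x ∈ Y, em f l (rep (rp x i) l) = rp x i := by
      rw [Filter.eventually_all_finset]
      intro x _
      exact em_rep _
    exact (e1.and e2).exists
  choose l hl1 hl2 using hlev
  -- representatives of chains
  set q : ℕ → Finset (UP (DL f)) → Finset P :=
    fun i T => T.image fun y => rep (rp y i) (l i) with hq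
  have hqc : ∀ᶠ i in UU, ∀ T : Ch (UP (DL f)), T.1 ⊆ Y →
      IsChain (· ≤ ·) ((q i T.1 : Finset P) : Set P) := by
    filter_upwards [ufin Y] with i hi T hT
    intro a ha b hb hab
    rw [hq, Finset.mem_coe, Finset.mem_image] at ha hb
    obtain ⟨x, hx, rfl⟩ := ha
    obtain ⟨y, hy, rfl⟩ := hb
    have hxy : x ≠ y := by rintro rfl; exact hab rfl
    rcases T.2 hx hy hxy with h' | h'
    · exact Or.inl ((hl1 i x (hT hx) y (hT hy)).mp ((hi x (hT hx) y (hT hy)).mp h'))
    · exact Or.inr ((hl1 i y (hT hy) x (hT hx)).mp ((hi y (hT hy) x (hT hx)).mp h'))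
  have hqn : ∀ i, ∀ T : Finset (UP (DL f)), T.Nonempty → (q i T).Nonempty :=
    fun i T hT => hT.image _
  have hqs : ∀ i, ∀ T T' : Finset (UP (DL f)), T' ⊆ T → q i T' ⊆ q i T :=
    fun i T T' h => Finset.image_subset_image h
  refine ⟨umk fun i => em f (l i) s, fun T => umk fun i => em f (l i) (rr s (q i T.1)),
    fun T => umk fun i => em f (l i) (mt s (rr s (q i T.1))), ?_, ?_, ?_, ?_, ?_⟩
  · intro T T' hT hT' hne
    rw [umk_le]
    filter_upwards [hqc] with i hi
    exact em_mono hf _ (rr_anti s h1 h2 (hi T hT) (hqn i _ hne) (hqs i _ _ hT'))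
  · intro T T' hT hT' hne
    rw [umk_le]
    filter_upwards [hqc] with i hi
    exact em_mono hf _ (mt_mono s (hasM_rr s h1 h2 (hi T hT) (hqn i _ (hne.mono hT')))
      (hasM_rr s h1 h2 (hi T' (hT'.trans hT)) (hqn i _ hne))
      (rr_anti s h1 h2 (hi T hT) (hqn i _ hne) (hqs i _ _ hT')))
  · intro T hT hne
    rw [umk_le]
    filter_upwards [hqc] with i hi
    exact em_mono hf _ (mt_le_self s (hasM_rr s h1 h2 (hi T hT) (hqn i _ hne)))
  · intro T hT hne
    rw [umk_le]
    filter_upwards [hqc] with i hi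
    exact em_mono hf _ (mt_le_s s (hasM_rr s h1 h2 (hi T hT) (hqn i _ hne)))
  · intro T hT hne m hm hmin
    conv_lhs => rw [← umk_rp m]
    rw [umk_le]
    filter_upwards [hqc, ufin Y] with i hi hi2
    have h3 := lst_le_rr s h1 h2 (hi T hT) (hqn i _ hne)
    obtain ⟨h4, _⟩ := lst_spec s (hi T hT) (hqn i _ hne)
    rw [hq] at h4
    dsimp only at h4
    rw [Finset.mem_image] at h4
    obtain ⟨x, hx, hxe⟩ := h4
    calc rp m i ≤ rp x i := (hi2 m (hT hm) x (hT hx)).mp (hmin x hx)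
      _ = em f (l i) (lst s (q i T.1)) := by rw [← hl2 i x (hT hx), hxe]
      _ ≤ em f (l i) (rr s (q i T.1)) := em_mono hf _ h3

end special

end

end Pool.Agent.Helper43.SP.FK
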