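import Pool.Agent.Helper43.SP.Adic
import Pool.Agent.Helper43.SP.Local

/-!
Fixed points of order-preserving maps with few periodic points of period prime to `p` on special
posets of bounded length.
-/

set_option autoImplicit false

namespace Pool.Agent.Helper43.SP.FK

open Filter
open scoped Classical

noncomputable section

variable {P : Type*} [PartialOrder P] {f : P → P}

lemma prime_finite {p : ℕ} (hf : {x : P | ∃ j, ¬ p ∣ j ∧ f^[j] x = x}.Finite) :
    {y : DL f | ∃ j, ¬ p ∣ j ∧ (FF f)^[j] y = y}.Finite := by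
  refine (hf.image (em f 0)).subset ?_
  rintro y ⟨k, hk1, hk⟩
  have hk0 : 0 < k := Nat.pos_of_ne_zero (by rintro rfl; exact hk1 (dvd_zero p))
  obtain ⟨n, hn⟩ := eventually_atTop.mp (((rep_FF_iter y k).and (rep_add y k)).and (em_rep y))
  -- choose a large multiple of `k`
  have hi : n ≤ k * n := Nat.le_mul_of_pos_left n hk0
  obtain ⟨⟨h1, h2⟩, h3⟩ := hn (k * n) hi
  rw [hk] at h1
  have h4 : f^[k] (rep y (k * n)) = rep y (k * n) := by rw [← h2, ← h1]
  refine ⟨rep y (k * n), ⟨k, hk1, h4⟩, Eq.trans ?_ h3⟩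
  unfold em
  apply mk_eq_mk
  refine eventually_atTop.mpr ⟨k * n, fun j hj => ?_⟩
  change f^[j - 0] _ = f^[j - k * n] _
  have h5 : f^[k * n] (rep y (k * n)) = rep y (k * n) := by
    rw [Function.iterate_mul]
    exact Function.iterate_fixed h4 n
  have h6 : j - 0 = (j - k * n) + k * n := by omega
  rw [h6, Function.iterate_add_apply, h5]

variable (s : P) (f)
variable (h1 : ∀ x : P, (∃ z : P, IsLUB ({s, x} : Set P) z) ∨ (∃ z : P, IsGLB ({s, x} : Set P) z))
  (h2 : ∀ x y : P, x < y → (¬ ∃ z : P, IsGLB ({s, x} : Set P) z) →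
    ∀ m : P, IsGLB ({s, y} : Set P) m → ∃ z : P, IsLUB ({m, x} : Set P) z)

include h1 h2 in
theorem mainE (hn : ∃ n : ℕ, ∀ c : Finset P, IsChain (· ≤ ·) (c : Set P) → c.card ≤ n)
    (hf : Monotone f) (p : ℕ) (hp : p.Prime)
    (hper : {x : P | ∃ j, ¬ p ∣ j ∧ f^[j] x = x}.Finite) : ∃ x, f x = x := by
  have : Fact p.Prime := ⟨hp⟩
  obtain ⟨y, hy⟩ := fixed_of_finite (FF f) hp (ZMod p) (finLen_DL hf hn)
    (exact_UP s f h1 h2 hf) (prime_finite hper)
  exact fixed_of_fixed hy

end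

end Pool.Agent.Helper43.SP.FK
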