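import Pool.Agent.Helper43.SP.Smith

/-!
Permutations all of whose orbits have `p`-power size: norm operators.
-/

set_option autoImplicit false

namespace Pool.Agent.Helper43.SP.FK

open scoped Classical

noncomputable section

section perm

variable {k : Type*} [Field k] {Y : Type*} (γ : Equiv.Perm Y) (p : ℕ)

/-- all orbits have `p`-power size -/
def PPer : Prop := ∀ y, ∃ a, (γ ^ (p ^ a)) y = y

/-- exponent of the orbit size -/
def al (y : Y) : ℕ := if h : ∃ a, (γ ^ (p ^ a)) y = y then Nat.find h else 0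

variable {p} (hp : p.Prime) (hper : PPer γ p)

include hper in
lemma al_self (y : Y) : (γ ^ (p ^ al γ p y)) y = y := by
  unfold al
  rw [dif_pos (hper y)]
  exact Nat.find_spec (hper y)

include hper in
lemma al_le {y : Y} {a : ℕ} (h : (γ ^ (p ^ a)) y = y) : al γ p y ≤ a := by
  unfold al
  rw [dif_pos (hper y)]
  exact Nat.find_min' _ h

lemma isPer_iff (b : ℕ) (y : Y) : Function.IsPeriodicPt γ b y ↔ (γ ^ b) y = y := by
  rw [← Equiv.Perm.iterate_eq_pow]
  rfl

include hp hper in
lemma al_spec (y : Y) (b : ℕ) : (γ ^ b) y = y ↔ p ^ al γ p y ∣ b := by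
  have h1 : Function.IsPeriodicPt γ (p ^ al γ p y) y := (isPer_iff γ _ y).mpr (al_self γ hper y)
  have h2 : Function.minimalPeriod γ y ∣ p ^ al γ p y := h1.minimalPeriod_dvd
  obtain ⟨c, hc, hc2⟩ := (Nat.dvd_prime_pow hp).mp h2
  have h3 : (γ ^ (p ^ c)) y = y := by
    rw [← isPer_iff, ← hc2]
    exact Function.isPeriodicPt_minimalPeriod _ _
  have h4 := al_le γ hper h3
  have h5 : c = al γ p y := le_antisymm hc h4
  rw [← isPer_iff, Function.isPeriodicPt_iff_minimalPeriod_dvd, hc2, h5]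

include hp hper in
lemma al_congr {y y' : Y} (h : ∀ b : ℕ, (γ ^ b) y = y ↔ (γ ^ b) y' = y') :
    al γ p y = al γ p y' := by
  have h1 : p ^ al γ p y ∣ p ^ al γ p y' := by
    rw [← al_spec γ hp hper y, h, al_spec γ hp hper y']
  have h2 : p ^ al γ p y' ∣ p ^ al γ p y := by
    rw [← al_spec γ hp hper y', ← h, al_spec γ hp hper y]
  exact Nat.pow_right_injective hp.two_le (Nat.dvd_antisymm h1 h2)

include hp hper in
lemma al_zpow (i : ℤ) (y : Y) : al γ p ((γ ^ i) y) = al γ p y := by
  refine al_congr γ hp hper fun b => ?_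
  have h1 : (γ ^ b) ((γ ^ i) y) = (γ ^ i) ((γ ^ b) y) := by
    rw [← Equiv.Perm.mul_apply, ← Equiv.Perm.mul_apply, ← zpow_natCast, ← zpow_add, ← zpow_add,
      add_comm]
  rw [h1]
  exact (γ ^ i).injective.eq_iff

include hp hper in
lemma al_pow (b : ℕ) (y : Y) : al γ p ((γ ^ b) y) = al γ p y := by
  have := al_zpow γ hp hper (b : ℤ) y
  rwa [zpow_natCast] at this

include hp hper in
lemma al_app (y : Y) : al γ p (γ y) = al γ p y := by
  have := al_pow γ hp hper 1 y
  rwa [pow_one] at this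

include hp hper in
lemma al_same {y y' : Y} (h : γ.SameCycle y y') : al γ p y' = al γ p y := by
  obtain ⟨i, rfl⟩ := h
  exact al_zpow γ hp hper i y

include hp hper in
lemma same_pow {y y' : Y} (h : γ.SameCycle y y') : ∃ b < p ^ al γ p y, (γ ^ b) y = y' := by
  obtain ⟨i, hi⟩ := h
  have hp0 : (0 : ℤ) < ((p ^ al γ p y : ℕ) : ℤ) := by exact_mod_cast pow_pos hp.pos _
  obtain ⟨a, ha⟩ : ∃ a : ℕ, (a : ℤ) = i % ((p ^ al γ p y : ℕ) : ℤ) :=
    ⟨(i % ((p ^ al γ p y : ℕ) : ℤ)).toNat, Int.toNat_of_nonneg (Int.emod_nonneg _ hp0.ne')⟩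
  have hap : a < p ^ al γ p y := by
    have := Int.emod_lt_of_pos i hp0
    rw [← ha] at this
    exact_mod_cast this
  refine ⟨a, hap, ?_⟩
  rw [← zpow_natCast, ha, zpow_mod γ (al_self γ hper y), hi]

include hp hper in
lemma pow_inj {y : Y} {b c : ℕ} (hb : b < p ^ al γ p y) (hc : c < p ^ al γ p y)
    (h : (γ ^ b) y = (γ ^ c) y) : b = c := by
  wlog hbc : b ≤ c generalizing b c
  · exact (this hc hb h.symm (by omega)).symm
  have h1 : (γ ^ (c - b)) y = y := by
    have h2 : (γ ^ c) y = (γ ^ b) ((γ ^ (c - b)) y) := by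
      rw [← Equiv.Perm.mul_apply, ← pow_add]
      congr 2
      omega
    rw [h2] at h
    exact ((γ ^ b).injective h).symm
  rw [al_spec γ hp hper] at h1
  have := Nat.eq_zero_of_dvd_of_lt h1 (by omega)
  omega

lemma orep_eq_iff (y y' : Y) : orep γ y = orep γ y' ↔ γ.SameCycle y y' := by
  constructor
  · intro h
    have h1 := orep_same γ y
    have h2 := orep_same γ y'
    rw [h] at h1
    exact h1.symm.trans h2
  · intro h
    unfold orep
    congr 1
    exact Quotient.sound h

lemma orep_orep (y : Y) : orep γ (orep γ y) = orep γ y := by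
  rw [orep_eq_iff]
  exact orep_same γ y

lemma orep_pow (b : ℕ) (y : Y) : orep γ ((γ ^ b) y) = orep γ y := by
  rw [orep_eq_iff]
  exact Equiv.Perm.SameCycle.symm ⟨b, by rw [zpow_natCast]⟩

lemma orep_app (y : Y) : orep γ (γ y) = orep γ y := by
  have := orep_pow γ 1 y
  rwa [pow_one] at this

/-- norm operator -/
def Nm (k : Type*) [Field k] {Y : Type*} (γ : Equiv.Perm Y) (p : ℕ) :
    (Y →₀ k) →ₗ[k] (Y →₀ k) :=
  opOf fun y => ∑ b ∈ Finset.range (p ^ al γ p y), dl k ((γ ^ b) y)

lemma Nm_dl (y : Y) : Nm k γ p (dl k y) =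
    ∑ b ∈ Finset.range (p ^ al γ p y), dl k ((γ ^ b) y) := opOf_dl _ y

/-- replace every element by its orbit representative -/
def RR (k : Type*) [Field k] {Y : Type*} (γ : Equiv.Perm Y) : (Y →₀ k) →ₗ[k] (Y →₀ k) :=
  opOf fun y => dl k (orep γ y)

lemma RR_dl (y : Y) : RR k γ (dl k y) = dl k (orep γ y) := opOf_dl _ y

lemma EE_dl (y : Y) : EE k γ (dl k y) = if orep γ y = y then dl k y else 0 := opOf_dl _ y

include hp hper in
lemma EE_Nm (v : Y →₀ k) : EE k γ (Nm k γ p v) = RR k γ v := by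
  have : (EE k γ).comp (Nm k γ p) = RR k γ := by
    refine ext_dl fun y => ?_
    rw [LinearMap.comp_apply, Nm_dl, RR_dl, map_sum]
    obtain ⟨b0, hb0, he⟩ := same_pow γ hp hper (orep_same γ y).symm
    rw [Finset.sum_eq_single b0]
    · rw [EE_dl, he, if_pos (orep_orep γ y)]
    · intro b hb hne
      rw [EE_dl, if_neg]
      rw [orep_pow, ← he]
      intro h
      exact hne (pow_inj γ hp hper (Finset.mem_range.mp hb) hb0 h.symm)
    · intro h
      exact absurd (Finset.mem_range.mpr hb0) h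
  exact congrArg (fun A : (Y →₀ k) →ₗ[k] (Y →₀ k) => A v) this

include hp hper in
lemma Nm_apply (r y : Y) (hr : orep γ r = r) :
    Nm k γ p (dl k r) y = if orep γ y = r then 1 else 0 := by
  rw [Nm_dl, Finsupp.finsetSum_apply]
  by_cases h : orep γ y = r
  · rw [if_pos h]
    have h1 : γ.SameCycle r y := by
      rw [← orep_eq_iff, hr, h]
    obtain ⟨b0, hb0, he⟩ := same_pow γ hp hper h1
    rw [Finset.sum_eq_single b0]
    · rw [he, dl_self]
    · intro b hb hne
      refine dl_ne ?_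
      rw [← he]
      intro h
      exact hne (pow_inj γ hp hper (Finset.mem_range.mp hb) hb0 h.symm)
    · intro h
      exact absurd (Finset.mem_range.mpr hb0) h
  · rw [if_neg h]
    refine Finset.sum_eq_zero fun b _ => ?_
    refine dl_ne ?_
    rintro rfl
    apply h
    rw [orep_pow, hr]

include hp hper in
lemma Nm_EE (v : Y →₀ k) (hv : act γ v = v) : Nm k γ p (EE k γ v) = v := by
  have key : ∀ y, Nm k γ p (EE k γ v) y = v (orep γ y) := by
    intro y
    have : (Finsupp.lapply y).comp ((Nm k γ p).comp (EE k γ)) =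
        (Finsupp.lapply (orep γ y) : (Y →₀ k) →ₗ[k] k) := by
      refine ext_dl fun z => ?_
      rw [LinearMap.comp_apply, LinearMap.comp_apply, EE_dl, Finsupp.lapply_apply,
        Finsupp.lapply_apply, dl_apply]
      split_ifs with h1 h2 h2
      · rw [Nm_apply γ hp hper z y h1, if_pos h2]
      · rw [Nm_apply γ hp hper z y h1, if_neg h2]
      · exfalso
        apply h1
        rw [← h2, orep_orep]
      · simp
    exact congrArg (fun A : (Y →₀ k) →ₗ[k] k => A v) this
  have hinv : ∀ (b : ℕ) (y : Y), v ((γ ^ b) y) = v y := by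
    intro b
    induction b with
    | zero => intro y; rfl
    | succ b ih =>
      intro y
      rw [pow_succ, Equiv.Perm.mul_apply, ih]
      conv_lhs => rw [← hv]
      exact act_apply γ v y
  ext y
  rw [key]
  obtain ⟨b0, _, he⟩ := same_pow γ hp hper (orep_same γ y)
  have := hinv b0 (orep γ y)
  rw [he] at this
  exact this.symm

include hp hper in
lemma act_Nm (v : Y →₀ k) : act γ (Nm k γ p v) = Nm k γ p v := by
  have : (act γ).comp (Nm k γ p) = Nm k γ p := by
    refine ext_dl fun y => ?_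
    rw [LinearMap.comp_apply, Nm_dl, map_sum]
    have h1 := al_self γ hper y
    obtain ⟨n, hn⟩ : ∃ n, p ^ al γ p y = n + 1 :=
      ⟨p ^ al γ p y - 1, (Nat.succ_pred_eq_of_pos (pow_pos hp.pos _)).symm⟩
    rw [hn] at h1 ⊢
    rw [Finset.sum_range_succ, Finset.sum_range_succ' (fun b => dl k ((γ ^ b) y))]
    have h2 : ∀ b : ℕ, act γ (dl k ((γ ^ b) y)) = dl k ((γ ^ (b + 1)) y) := by
      intro b
      rw [act_dl, pow_succ', Equiv.Perm.mul_apply]
    simp only [h2]
    rw [h1, pow_zero, Equiv.Perm.one_apply]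
  exact congrArg (fun A : (Y →₀ k) →ₗ[k] (Y →₀ k) => A v) this

include hp hper in
lemma Nm_act (v : Y →₀ k) : Nm k γ p (act γ v) = Nm k γ p v := by
  have : (Nm k γ p).comp (act γ) = Nm k γ p := by
    refine ext_dl fun y => ?_
    conv_rhs => rw [← act_Nm γ hp hper, Nm_dl, map_sum]
    rw [LinearMap.comp_apply, act_dl, Nm_dl, al_app γ hp hper]
    refine Finset.sum_congr rfl fun b _ => ?_
    rw [act_dl, ← Equiv.Perm.mul_apply, ← Equiv.Perm.mul_apply, ← pow_succ, pow_succ']
  exact congrArg (fun A : (Y →₀ k) →ₗ[k] (Y →₀ k) => A v) this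

include hp hper in
/-- `v - RR v` is in the image of `act γ - 1` -/
lemma sub_RR (R : Y → Prop) (hR : ∀ y, R y → R (γ y)) {v : Y →₀ k} (hv : Supp R v) :
    ∃ y, Supp R y ∧ v - RR k γ v = act γ y - y := by
  have h1 : ∀ y, ∃ u : Y →₀ k, (R y → Supp R u) ∧
      dl k y - dl k (orep γ y) = act γ u - u := by
    intro y
    obtain ⟨b0, _, he⟩ := same_pow γ hp hper (orep_same γ y).symm
    refine ⟨- ∑ b ∈ Finset.range b0, act (γ ^ b) (dl k y), fun hy => ?_, ?_⟩
    · refine Supp.neg (Supp.sum _ _ fun b _ => ?_)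
      rw [act_dl]
      exact Supp.dl (D_pow γ hR b y hy)
    · have h2 := sum_telescope γ (dl k y) b0
      rw [act_dl (γ ^ b0), he] at h2
      rw [← h2, map_neg]
      abel
  choose u hu1 hu2 using h1
  refine ⟨opOf u v, ?_, ?_⟩
  · refine Supp.map (fun y hy => ?_) hv
    rw [opOf_dl]
    exact hu1 y hy
  · have : LinearMap.id - RR k γ = (act γ).comp (opOf u) - opOf u := by
      refine ext_dl fun y => ?_
      rw [LinearMap.sub_apply, LinearMap.sub_apply, LinearMap.id_apply, RR_dl,
        LinearMap.comp_apply, opOf_dl]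
      exact hu2 y
    exact congrArg (fun A : (Y →₀ k) →ₗ[k] (Y →₀ k) => A v) this

/-- projection to the elements of exponent `a` -/
def PA (k : Type*) [Field k] {Y : Type*} (γ : Equiv.Perm Y) (p a : ℕ) :
    (Y →₀ k) →ₗ[k] (Y →₀ k) := opOf fun y => if al γ p y = a then dl k y else 0

lemma PA_dl (a : ℕ) (y : Y) : PA k γ p a (dl k y) = if al γ p y = a then dl k y else 0 :=
  opOf_dl _ y

lemma supp_PA {R : Y → Prop} (a : ℕ) {v : Y →₀ k} (hv : Supp R v) : Supp R (PA k γ p a v) := by
  refine Supp.map (fun y hy => ?_) hv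
  rw [PA_dl]
  split_ifs
  · exact Supp.dl hy
  · exact Supp.zero _

lemma al_PA (a : ℕ) (v : Y →₀ k) : Supp (fun y => al γ p y = a) (PA k γ p a v) := by
  refine Supp.map (R := fun _ => True) (fun y _ => ?_) (fun y hy => absurd trivial hy)
  rw [PA_dl]
  split_ifs with h
  · exact Supp.dl h
  · exact Supp.zero _

lemma PA_of_supp {a : ℕ} {v : Y →₀ k} (hv : Supp (fun y => al γ p y = a) v) :
    PA k γ p a v = v := by
  have := Supp.eq (A := PA k γ p a) (B := LinearMap.id) (fun y hy => by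
    rw [PA_dl, if_pos hy]; rfl) hv
  exact this

lemma PA_of_ne {a b : ℕ} (hab : a ≠ b) {v : Y →₀ k} (hv : Supp (fun y => al γ p y = b) v) :
    PA k γ p a v = 0 := by
  have := Supp.eq (A := PA k γ p a) (B := 0) (R := fun y => al γ p y = b) (fun y hy => by
    rw [PA_dl, if_neg (by rw [hy]; exact Ne.symm hab)]; rfl) hv
  exact this

include hp hper in
lemma PA_act (a : ℕ) (v : Y →₀ k) : PA k γ p a (act γ v) = act γ (PA k γ p a v) := by
  have : (PA k γ p a).comp (act γ) = (act γ).comp (PA k γ p a) := by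
    refine ext_dl fun y => ?_
    rw [LinearMap.comp_apply, LinearMap.comp_apply, act_dl, PA_dl, PA_dl, al_app γ hp hper]
    split_ifs
    · rw [act_dl]
    · rw [map_zero]
  exact congrArg (fun A : (Y →₀ k) →ₗ[k] (Y →₀ k) => A v) this

include hp hper in
lemma PA_RR (a : ℕ) (v : Y →₀ k) : PA k γ p a (RR k γ v) = RR k γ (PA k γ p a v) := by
  have : (PA k γ p a).comp (RR k γ) = (RR k γ).comp (PA k γ p a) := by
    refine ext_dl fun y => ?_
    rw [LinearMap.comp_apply, LinearMap.comp_apply, RR_dl, PA_dl, PA_dl,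
      al_same γ hp hper (orep_same γ y)]
    split_ifs
    · rw [RR_dl]
    · rw [map_zero]
  exact congrArg (fun A : (Y →₀ k) →ₗ[k] (Y →₀ k) => A v) this

include hp hper in
lemma PA_Nm (a : ℕ) (v : Y →₀ k) : PA k γ p a (Nm k γ p v) = Nm k γ p (PA k γ p a v) := by
  have : (PA k γ p a).comp (Nm k γ p) = (Nm k γ p).comp (PA k γ p a) := by
    refine ext_dl fun y => ?_
    rw [LinearMap.comp_apply, LinearMap.comp_apply, Nm_dl, PA_dl, map_sum]
    have h1 : ∀ b, PA k γ p a (dl k ((γ ^ b) y)) =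
        if al γ p y = a then dl k ((γ ^ b) y) else 0 := by
      intro b
      rw [PA_dl, al_pow γ hp hper]
    simp only [h1]
    split_ifs
    · rw [Nm_dl]
    · simp
  exact congrArg (fun A : (Y →₀ k) →ₗ[k] (Y →₀ k) => A v) this

include hp hper in
/-- the sum over a multiple of the period -/
lemma sum_per [CharP k p] (a : ℕ) (y : Y) (ha : al γ p y ≤ a) :
    ∑ b ∈ Finset.range (p ^ a), dl k ((γ ^ b) y) =
      if al γ p y = a then Nm k γ p (dl k y) else 0 := by
  have h1 : ∀ m : ℕ, ∑ b ∈ Finset.range (p ^ al γ p y * m), dl k ((γ ^ b) y) =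
      m • Nm k γ p (dl k y) := by
    intro m
    induction m with
    | zero => simp
    | succ m ih =>
      rw [Nat.mul_succ, Finset.sum_range_add, ih, succ_nsmul, Nm_dl]
      congr 1
      refine Finset.sum_congr rfl fun b _ => ?_
      congr 1
      have h2 : (γ ^ (p ^ al γ p y * m)) y = y := (al_spec γ hp hper y _).mpr (dvd_mul_right _ _)
      rw [add_comm, pow_add, Equiv.Perm.mul_apply, h2]
  have h2 := h1 (p ^ (a - al γ p y))
  rw [← pow_add, Nat.add_sub_cancel' ha] at h2
  rw [h2]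
  split_ifs with h
  · rw [h, Nat.sub_self, pow_zero, one_smul]
  · have h3 : a - al γ p y ≠ 0 := by omega
    rw [← Nat.cast_smul_eq_nsmul k, Nat.cast_pow, CharP.cast_eq_zero, zero_pow h3, zero_smul]

end perm

end

end Pool.Agent.Helper43.SP.FK
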