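import Pool.Agent.Helper43.SP.Lef
import Pool.Agent.Helper43.SP.Koszul

/-!
Commuting order automorphisms acting freely outside a stable subset: invariant cycles of the
subset bound in the subset.
-/

set_option autoImplicit false

namespace Pool.Agent.Helper43.SP.FK

open scoped Classical

noncomputable section

variable {k : Type*} [Field k] {X : Type*} [PartialOrder X]

/-- `act - 1` -/
def xop (k : Type*) [Field k] {X : Type*} [PartialOrder X] (t : ℕ → X ≃o X) (a : ℕ) :
    (Ch X →₀ k) →ₗ[k] (Ch X →₀ k) := act (mapCh (t a)) - LinearMap.id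

/-- the submodules `N j` -/
def NJ (k : Type*) [Field k] {X : Type*} [PartialOrder X] (t : ℕ → X ≃o X) (X0 : Set X) :
    ℕ → Submodule k (Ch X →₀ k)
  | 0 => suppSub k (InU X0)
  | j + 1 => NJ k t X0 j ⊔ LinearMap.range (xop k t j)

variable (t : ℕ → X ≃o X) (X0 : Set X)

lemma xop_apply (a : ℕ) (v : Ch X →₀ k) : xop k t a v = act (mapCh (t a)) v - v := rfl

lemma mem_NJ_succ {j : ℕ} {v : Ch X →₀ k} :
    v ∈ NJ k t X0 (j + 1) ↔ ∃ m ∈ NJ k t X0 j, ∃ u, v = m + xop k t j u := by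
  change v ∈ NJ k t X0 j ⊔ LinearMap.range (xop k t j) ↔ _
  rw [Submodule.mem_sup]
  constructor
  · rintro ⟨m, hm, z, ⟨u, rfl⟩, rfl⟩
    exact ⟨m, hm, u, rfl⟩
  · rintro ⟨m, hm, u, rfl⟩
    exact ⟨m, hm, _, ⟨u, rfl⟩, rfl⟩

lemma pr_act (g : X ≃o X) (i : ℕ) (v : Ch X →₀ k) :
    pr k i (act (mapCh g) v) = act (mapCh g) (pr k i v) := by
  have : (pr k i).comp (act (mapCh g)) = (act (mapCh g)).comp (pr k i) := by
    refine ext_dl fun S => ?_
    rw [LinearMap.comp_apply, LinearMap.comp_apply, act_dl]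
    have h1 : pr k i (dl k S) = if S.1.card = i then dl k S else 0 := opOf_dl _ S
    have h2 : pr k i (dl k (mapCh g S)) = if (mapCh g S).1.card = i then dl k (mapCh g S) else 0 :=
      opOf_dl _ _
    rw [h1, h2, mapCh_card]
    split_ifs
    · rw [act_dl]
    · rw [map_zero]
  exact congrArg (fun A : (Ch X →₀ k) →ₗ[k] (Ch X →₀ k) => A v) this

variable (hcomm : ∀ a b, mapCh (t a) * mapCh (t b) = mapCh (t b) * mapCh (t a))
  (hst : ∀ x ∈ X0, ∀ a, t a x ∈ X0)

omit hst

include hcomm in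
lemma xop_comm (a b : ℕ) (v : Ch X →₀ k) :
    xop k t a (xop k t b v) = xop k t b (xop k t a v) := by
  simp only [xop_apply, map_sub]
  rw [← act_mul, ← act_mul, hcomm a b]
  abel

include hst in
lemma st_chain {S : Ch X} (hS : InU X0 S) (a : ℕ) : InU X0 (mapCh (t a) S) := by
  intro y hy
  rw [mapCh_coe, Finset.mem_coe, Finset.mem_map] at hy
  obtain ⟨x, hx, rfl⟩ := hy
  exact hst x (hS hx) a

include hst in
lemma xop_N0 (a : ℕ) {v : Ch X →₀ k} (hv : Supp (InU X0) v) :
    Supp (InU X0) (xop k t a v) := by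
  rw [xop_apply]
  exact Supp.sub (supp_act (D := InU X0) _ (fun S hS => st_chain t X0 hst hS a) hv) hv

lemma bd_xop (a : ℕ) (v : Ch X →₀ k) : bd k X (xop k t a v) = xop k t a (bd k X v) := by
  rw [xop_apply, xop_apply, map_sub, act_bd]

lemma bd_NJ (j : ℕ) : ∀ v ∈ NJ k t X0 j, bd k X v ∈ NJ k t X0 j := by
  induction j with
  | zero => intro v hv; exact supp_bd hv
  | succ j ih =>
    intro v hv
    obtain ⟨m, hm, u, rfl⟩ := (mem_NJ_succ t X0).mp hv
    exact (mem_NJ_succ t X0).mpr ⟨_, ih m hm, bd k X u, by rw [map_add, bd_xop]⟩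

include hcomm hst in
lemma xop_NJ (a j : ℕ) : ∀ v ∈ NJ k t X0 j, xop k t a v ∈ NJ k t X0 j := by
  induction j with
  | zero =>
    intro v hv
    exact xop_N0 t X0 hst a hv
  | succ j ih =>
    intro v hv
    obtain ⟨m, hm, u, rfl⟩ := (mem_NJ_succ t X0).mp hv
    exact (mem_NJ_succ t X0).mpr ⟨_, ih m hm, xop k t a u, by
      rw [map_add, xop_comm t hcomm a j]⟩

include hcomm hst in
lemma act_NJ (a j : ℕ) : ∀ v ∈ NJ k t X0 j, act (mapCh (t a)) v ∈ NJ k t X0 j := by
  intro v hv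
  have h1 := xop_NJ t X0 hcomm hst a j v hv
  have : act (mapCh (t a)) v = xop k t a v + v := by rw [xop_apply]; abel
  rw [this]
  exact (NJ k t X0 j).add_mem h1 hv

lemma xop_mem_NJ {a j : ℕ} (h : a < j) (v : Ch X →₀ k) : xop k t a v ∈ NJ k t X0 j := by
  induction j with
  | zero => omega
  | succ j ih =>
    rcases Nat.lt_succ_iff_lt_or_eq.mp h with h' | rfl
    · exact (mem_NJ_succ t X0).mpr ⟨_, ih h', 0, by rw [map_zero, add_zero]⟩
    · exact (mem_NJ_succ t X0).mpr ⟨0, (NJ k t X0 a).zero_mem, v, by rw [zero_add]⟩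

lemma N0_le_NJ (j : ℕ) {v : Ch X →₀ k} (hv : Supp (InU X0) v) : v ∈ NJ k t X0 j := by
  induction j with
  | zero => exact hv
  | succ j ih => exact (mem_NJ_succ t X0).mpr ⟨_, ih, 0, by rw [map_zero, add_zero]⟩

/-- the group generated by the first `j` automorphisms -/
def GJ (j : ℕ) : Subgroup (Equiv.Perm (Ch X)) :=
  Subgroup.closure {g | ∃ a < j, g = mapCh (t a)}

variable (hfree : ∀ j, ∀ S : Ch X, ¬ InU X0 S → ∀ M : ℕ, 0 < M → ∀ g ∈ GJ t j,
  (mapCh (t j) ^ M) S ≠ g S)

include hcomm in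
lemma GJ_comm (j : ℕ) (g : Equiv.Perm (Ch X)) (hg : g ∈ GJ t j) (a : ℕ) :
    mapCh (t a) * g = g * mapCh (t a) := by
  unfold GJ at hg
  induction hg using Subgroup.closure_induction with
  | mem x hx =>
    obtain ⟨b, _, rfl⟩ := hx
    exact hcomm a b
  | one => rw [mul_one, one_mul]
  | mul x y _ _ hx hy => rw [← mul_assoc, hx, mul_assoc, hy, mul_assoc]
  | inv x _ hx =>
    rw [mul_inv_eq_iff_eq_mul, mul_assoc, hx, inv_mul_cancel_left]

/-- a functional vanishing on `N j` vanishes on the subset and is invariant -/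
lemma phi_inv {j : ℕ} (φ : (Ch X →₀ k) →ₗ[k] k) (hφ : NJ k t X0 j ≤ LinearMap.ker φ) {a : ℕ}
    (ha : a < j) (S : Ch X) : φ (dl k (mapCh (t a) S)) = φ (dl k S) := by
  have h1 := hφ (xop_mem_NJ t X0 ha (dl k S))
  rw [LinearMap.mem_ker, xop_apply, act_dl, map_sub, sub_eq_zero] at h1
  exact h1

include hcomm hst hfree in
lemma reg_NJ (j : ℕ) (v : Ch X →₀ k) (hv : xop k t j v ∈ NJ k t X0 j) : v ∈ NJ k t X0 j := by
  by_contra hnot
  obtain ⟨φ, hφ0, hφ⟩ := Submodule.exists_le_ker_of_notMem hnot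
  set τ : Equiv.Perm (Ch X) := mapCh (t j) with hτ
  -- free chains in the support
  set B : Finset (Ch X) := v.support.filter (fun S => ¬ InU X0 S) with hB
  set O : Set (Ch X) := {S | ∃ g ∈ GJ t j, ∃ S' ∈ B, S = g S'} with hO
  have hBO : ∀ S ∈ B, S ∈ O := fun S hS => ⟨1, Subgroup.one_mem _, S, hS, rfl⟩
  -- for each pair at most one power
  have hpair : ∀ S ∈ B, ∀ S' ∈ B, ∃ M0 : ℕ, ∀ M, M0 < M → ∀ g ∈ GJ t j, (τ ^ M) S ≠ g S' := by
    intro S hS S' hS'
    by_cases hex : ∃ M : ℕ, ∃ g ∈ GJ t j, (τ ^ M) S = g S'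
    · obtain ⟨M0, g0, hg0, he0⟩ := hex
      refine ⟨M0, fun M hM g hg he => ?_⟩
      have hfr := hfree j S (Finset.mem_filter.mp hS).2 (M - M0) (by omega) (g * g0⁻¹)
        (Subgroup.mul_mem _ hg (Subgroup.inv_mem _ hg0))
      apply hfr
      -- τ^M S = g S' = g g0⁻¹ τ^M0 S
      have h1 : (τ ^ M) S = (g * g0⁻¹) ((τ ^ M0) S) := by
        rw [he, he0, Equiv.Perm.mul_apply]
        congr 1
        exact (g0.symm_apply_apply S').symm
      have hcg : ∀ b : ℕ, τ ^ b * (g * g0⁻¹) = (g * g0⁻¹) * τ ^ b := by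
        intro b
        induction b with
        | zero => rw [pow_zero, one_mul, mul_one]
        | succ b ih =>
          rw [pow_succ, mul_assoc, GJ_comm t hcomm j (g * g0⁻¹)
            (Subgroup.mul_mem _ hg (Subgroup.inv_mem _ hg0)) j, ← mul_assoc, ih, mul_assoc]
      have h2 : (τ ^ M0) ((τ ^ (M - M0)) S) = (τ ^ M0) ((g * g0⁻¹) S) := by
        rw [← Equiv.Perm.mul_apply, ← pow_add, Nat.add_sub_cancel' hM.le, h1,
          ← Equiv.Perm.mul_apply, ← Equiv.Perm.mul_apply, hcg]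
      exact (τ ^ M0).injective h2
    · push Not at hex
      exact ⟨0, fun M _ g hg => hex M g hg⟩
  choose! M0 hM0 using hpair
  obtain ⟨M, hM⟩ : ∃ M : ℕ, ∀ S ∈ B, ∀ S' ∈ B, M0 S S' < M := by
    refine ⟨(B.sup fun S => B.sup fun S' => M0 S S') + 1, fun S hS S' hS' => ?_⟩
    have h1 : M0 S S' ≤ B.sup fun S' => M0 S S' := Finset.le_sup (f := fun S' => M0 S S') hS'
    have h2 : (B.sup fun S' => M0 S S') ≤ B.sup fun S => B.sup fun S' => M0 S S' :=
      Finset.le_sup (f := fun S => B.sup fun S' => M0 S S') hS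
    omega
  have hout : ∀ S ∈ B, (τ ^ M) S ∉ O := by
    rintro S hS ⟨g, hg, S', hS', he⟩
    exact hM0 S hS S' hS' M (hM S hS S' hS') g hg he
  -- truncated functional
  set φ' : (Ch X →₀ k) →ₗ[k] k := opOf fun S => if S ∈ O then φ (dl k S) else 0 with hφ'
  have hφ'd : ∀ S, φ' (dl k S) = if S ∈ O then φ (dl k S) else 0 := fun S => opOf_dl _ S
  have hφN0 : ∀ S, InU X0 S → φ (dl k S) = 0 := fun S hS =>
    hφ (N0_le_NJ t X0 j (Supp.dl hS))
  have hOinv : ∀ a, a < j → ∀ S, mapCh (t a) S ∈ O ↔ S ∈ O := by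
    intro a ha S
    have hmem : mapCh (t a) ∈ GJ t j := Subgroup.subset_closure ⟨a, ha, rfl⟩
    constructor
    · rintro ⟨g, hg, S', hS', he⟩
      refine ⟨(mapCh (t a))⁻¹ * g, Subgroup.mul_mem _ (Subgroup.inv_mem _ hmem) hg, S', hS', ?_⟩
      rw [Equiv.Perm.mul_apply, ← he]
      exact ((mapCh (t a)).symm_apply_apply S).symm
    · rintro ⟨g, hg, S', hS', rfl⟩
      exact ⟨mapCh (t a) * g, Subgroup.mul_mem _ hmem hg, S', hS', rfl⟩
  have hφ'N : ∀ i, i ≤ j → ∀ m ∈ NJ k t X0 i, φ' m = 0 := by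
    intro i
    induction i with
    | zero =>
      intro _ m hm
      have := Supp.eq (A := φ') (B := 0) (R := InU X0)
        (fun S hS => by rw [hφ'd, hφN0 S hS]; simp) hm
      exact this
    | succ i ih =>
      intro hi m hm
      obtain ⟨m', hm', u, rfl⟩ := (mem_NJ_succ t X0).mp hm
      rw [map_add, ih (by omega) m' hm', zero_add]
      have : φ'.comp (xop k t i) = 0 := by
        refine ext_dl fun S => ?_
        rw [LinearMap.comp_apply, xop_apply, act_dl, map_sub, hφ'd, hφ'd]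
        have h1 := hOinv i (by omega) S
        by_cases hS : S ∈ O
        · rw [if_pos hS, if_pos (h1.mpr hS), phi_inv t X0 φ hφ (by omega), sub_self]
          rfl
        · rw [if_neg hS, if_neg (fun h => hS (h1.mp h)), sub_self]
          rfl
      exact congrArg (fun A : (Ch X →₀ k) →ₗ[k] k => A u) this
  have hval : φ' v = φ v := by
    rw [map_eq_sum φ', map_eq_sum φ]
    refine Finset.sum_congr rfl fun S hS => ?_
    congr 1
    rw [hφ'd]
    by_cases hSU : InU X0 S
    · rw [hφN0 S hSU]; simp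
    · rw [if_pos (hBO S (Finset.mem_filter.mpr ⟨hS, hSU⟩))]
  have hval2 : φ' (act (τ ^ M) v) = 0 := by
    have h1 : φ' (act (τ ^ M) v) = (φ'.comp (act (τ ^ M))) v := rfl
    rw [h1, map_eq_sum]
    refine Finset.sum_eq_zero fun S hS => ?_
    rw [LinearMap.comp_apply, act_dl, hφ'd]
    by_cases hSU : InU X0 S
    · have h2 : InU X0 ((τ ^ M) S) :=
        D_pow τ (D := InU X0) (fun S hS => st_chain t X0 hst hS j) M S hSU
      rw [hφN0 _ h2]
      simp
    · rw [if_neg (hout S (Finset.mem_filter.mpr ⟨hS, hSU⟩)), smul_zero]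
  have hdiff : act (τ ^ M) v - v ∈ NJ k t X0 j := by
    have h1 := sum_telescope τ v M
    have h2 : act (τ ^ M) v - v = ∑ b ∈ Finset.range M, act (τ ^ b) (xop k t j v) := by
      have h3 : ∀ b ∈ Finset.range M, act (τ ^ b) (xop k t j v) =
          act (τ ^ (b + 1)) v - act (τ ^ b) v := by
        intro b _
        rw [xop_apply, map_sub, ← act_mul, ← pow_succ]
      rw [Finset.sum_congr rfl h3, Finset.sum_range_sub (fun b => act (τ ^ b) v), pow_zero,
        act_one]
    rw [h2]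
    refine Submodule.sum_mem _ fun b _ => ?_
    have h4 : ∀ b : ℕ, ∀ w ∈ NJ k t X0 j, act (τ ^ b) w ∈ NJ k t X0 j := by
      intro b
      induction b with
      | zero => intro w hw; rw [pow_zero, act_one]; exact hw
      | succ b ih =>
        intro w hw
        rw [pow_succ, act_mul]
        exact ih _ (act_NJ t X0 hcomm hst j j w hw)
    exact h4 b _ hv
  have h5 := hφ'N j le_rfl _ hdiff
  rw [map_sub, hval2, hval, zero_sub, neg_eq_zero] at h5
  exact hφ0 h5

include hcomm hst hfree in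
theorem rank_theorem (hn : FinLen X) (hex : Exact k X) (z : Ch X →₀ k)
    (hfixz : ∀ a, act (mapCh (t a)) z = z) (i : ℕ) (hzi : Hom i z)
    (hdz : bd k X z = 0) : ∃ w : Ch X →₀ k, Supp (InU X0) w ∧ bd k X w = z := by
  obtain ⟨n, hn'⟩ := id hn
  have data : KD (bd k X) (xop k t) (NJ k t X0) :=
    { dd := bd_bd
      dx := fun a v => bd_xop t a v
      xx := fun a b v => xop_comm t hcomm a b v
      dN := fun j => bd_NJ t X0 j
      le := fun j => le_sup_left
      xm := fun j v => xop_mem_NJ t X0 (Nat.lt_succ_self j) v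
      dec := fun j v hv => (mem_NJ_succ t X0).mp hv
      reg := fun j v hv => reg_NJ t X0 hcomm hst hfree j v hv
      ex := hex }
  obtain ⟨w, hw, hbw⟩ := data.main (n + 1) (fun t => pr k t) i z
    (fun t v => (bd_pr t v).symm)
    (fun a j v => by rw [xop_apply, xop_apply, map_sub, pr_act])
    (fun v => by
      have h1 : pr k (i + 1 + (n + 1)) v = 0 := by
        ext S
        refine hom_pr (i + 1 + (n + 1)) v S fun h => ?_
        have := hn' S
        omega
      rw [h1]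
      exact (NJ k t X0 (n + 1)).zero_mem)
    (pr_of_hom hzi) hdz
    (fun a => by rw [xop_apply, hfixz, sub_self])
  exact ⟨w, hw, hbw⟩

end

end Pool.Agent.Helper43.SP.FK
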