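import Mathlib

/-!
Abstract form of the theorem of P. A. Smith for an action of a group of prime order.
-/

set_option autoImplicit false

namespace Pool.Agent.Helper43.SP.FK

section

variable {k : Type*} [Field k] {V : Type*} [AddCommGroup V] [Module k V]

/-- Abstract data. -/
structure SmithData (d τ σ : V →ₗ[k] V) (W N : Submodule k V) (H : ℕ → Submodule k V)
    (n : ℕ) : Prop where
  dd : ∀ v, d (d v) = 0
  dW : ∀ v ∈ W, d v ∈ W
  tW : ∀ v ∈ W, τ v ∈ W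
  sW : ∀ v ∈ W, σ v ∈ W
  dt : ∀ v, d (τ v) = τ (d v)
  ds : ∀ v, d (σ v) = σ (d v)
  st : ∀ v ∈ W, σ (τ v) = 0
  ts : ∀ v ∈ W, τ (σ v) = 0
  dN : ∀ v ∈ N, d v ∈ N
  NW : N ≤ W
  tN : ∀ v ∈ N, τ v = 0
  kt : ∀ v ∈ W, τ v = 0 → ∃ m ∈ N, ∃ u ∈ W, v = m + σ u
  ks : ∀ v ∈ W, σ v = 0 → ∃ m ∈ N, ∃ u ∈ W, v = m + τ u
  it : ∀ u ∈ W, τ u ∈ N → τ u = 0
  is : ∀ u ∈ W, σ u ∈ N → σ u = 0
  tH : ∀ i, ∀ v ∈ H i, τ v ∈ H i
  sH : ∀ i, ∀ v ∈ H i, σ v ∈ H i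
  Hn : ∀ i, n < i → ∀ v ∈ H i, v = 0
  ex : ∀ i, ∀ v ∈ W, v ∈ H i → d v = 0 → ∃ w ∈ W, w ∈ H (i + 1) ∧ d w = v

variable {d τ σ : V →ₗ[k] V} {W N : Submodule k V} {H : ℕ → Submodule k V} {n : ℕ}

/-- The claim of the descending induction. -/
def Cl (d ρ : V →ₗ[k] V) (W N : Submodule k V) (H : ℕ → Submodule k V) (i : ℕ) : Prop :=
  ∀ v ∈ W, v ∈ H i → (∃ v' ∈ W, d v = ρ v') → ∃ m ∈ N, ∃ u ∈ W, ∃ y ∈ W, v = m + ρ u + d y

lemma SmithData.claims (h : SmithData d τ σ W N H n) (j : ℕ) : ∀ i, n < i + j →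
    Cl d τ W N H i ∧ Cl d σ W N H i := by
  induction j with
  | zero =>
    intro i hi
    have h0 : ∀ v ∈ H i, v = 0 := h.Hn i (by simpa using hi)
    constructor
    · intro v _ hv _
      exact ⟨0, N.zero_mem, 0, W.zero_mem, 0, W.zero_mem, by rw [h0 v hv]; simp⟩
    · intro v _ hv _
      exact ⟨0, N.zero_mem, 0, W.zero_mem, 0, W.zero_mem, by rw [h0 v hv]; simp⟩
  | succ j ih =>
    intro i hi
    obtain ⟨ht, hs⟩ := ih (i + 1) (by omega)
    constructor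
    · rintro v hvW hvH ⟨v', hv', hdv⟩
      have h1 : d (σ v) = 0 := by rw [h.ds, hdv, h.st v' hv']
      obtain ⟨w, hwW, hwH, hw⟩ := h.ex i (σ v) (h.sW v hvW) (h.sH i v hvH) h1
      obtain ⟨m, hm, u, hu, y, hy, hwe⟩ := hs w hwW hwH ⟨v, hvW, hw⟩
      have h2 : σ (v - d u) = d m := by
        have : σ v = d m + σ (d u) := by
          rw [← hw, hwe, map_add, map_add, h.ds, h.dd, add_zero]
        rw [map_sub, this]
        abel
      have h3 : σ (v - d u) = 0 :=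
        h.is _ (W.sub_mem hvW (h.dW u hu)) (by rw [h2]; exact h.dN m hm)
      obtain ⟨m', hm', u', hu', he⟩ := h.ks _ (W.sub_mem hvW (h.dW u hu)) h3
      exact ⟨m', hm', u', hu', u, hu, by rw [← he]; abel⟩
    · rintro v hvW hvH ⟨v', hv', hdv⟩
      have h1 : d (τ v) = 0 := by rw [h.dt, hdv, h.ts v' hv']
      obtain ⟨w, hwW, hwH, hw⟩ := h.ex i (τ v) (h.tW v hvW) (h.tH i v hvH) h1
      obtain ⟨m, hm, u, hu, y, hy, hwe⟩ := ht w hwW hwH ⟨v, hvW, hw⟩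
      have h2 : τ (v - d u) = d m := by
        have : τ v = d m + τ (d u) := by
          rw [← hw, hwe, map_add, map_add, h.dt, h.dd, add_zero]
        rw [map_sub, this]
        abel
      have h3 : τ (v - d u) = 0 :=
        h.it _ (W.sub_mem hvW (h.dW u hu)) (by rw [h2]; exact h.dN m hm)
      obtain ⟨m', hm', u', hu', he⟩ := h.kt _ (W.sub_mem hvW (h.dW u hu)) h3
      exact ⟨m', hm', u', hu', u, hu, by rw [← he]; abel⟩

theorem SmithData.exact (h : SmithData d τ σ W N H n) (i : ℕ) (z : V) (hz : z ∈ N)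
    (hzH : z ∈ H i) (hdz : d z = 0) : ∃ c ∈ N, d c = z := by
  obtain ⟨v, hvW, hvH, hv⟩ := h.ex i z (h.NW hz) hzH hdz
  have h1 : d (τ v) = 0 := by rw [h.dt, hv, h.tN z hz]
  obtain ⟨w, hwW, hwH, hw⟩ := h.ex (i + 1) (τ v) (h.tW v hvW) (h.tH _ v hvH) h1
  obtain ⟨m, hm, u, hu, y, hy, hwe⟩ := (h.claims (n + 1) (i + 2) (by omega)).1 w hwW hwH
    ⟨v, hvW, hw⟩
  have h2 : τ (v - d u) = d m := by
    have : τ v = d m + τ (d u) := by
      rw [← hw, hwe, map_add, map_add, h.dt, h.dd, add_zero]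
    rw [map_sub, this]
    abel
  have h3 : τ (v - d u) = 0 :=
    h.it _ (W.sub_mem hvW (h.dW u hu)) (by rw [h2]; exact h.dN m hm)
  obtain ⟨m', hm', u', hu', he⟩ := h.kt _ (W.sub_mem hvW (h.dW u hu)) h3
  have h4 : z = d m' + σ (d u') := by
    have h5 : v = m' + σ u' + d u := by rw [← he]; abel
    rw [← hv, h5, map_add, map_add, h.ds, h.dd, add_zero]
  have h6 : σ (d u') ∈ N := by
    have : σ (d u') = z - d m' := by rw [h4]; abel
    rw [this]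
    exact N.sub_mem hz (h.dN m' hm')
  have h7 := h.is _ (h.dW u' hu') h6
  exact ⟨m', hm', by rw [h4, h7, add_zero]⟩

end

end Pool.Agent.Helper43.SP.FK
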