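import Pool.Agent.Helper43.SP.KChain
import Pool.Agent.Helper43.SP.SmithAlg

/-!
The theorem of P. A. Smith for order automorphisms of posets of bounded length.
-/

set_option autoImplicit false

namespace Pool.Agent.Helper43.SP.FK

open scoped Classical

noncomputable section

section perm

variable {k : Type*} [Field k] {Y : Type*}

lemma act_mul (g h : Equiv.Perm Y) (v : Y →₀ k) : act (g * h) v = act g (act h v) := by
  have : act (k := k) (g * h) = (act g).comp (act h) := by
    refine ext_dl fun i => ?_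
    rw [LinearMap.comp_apply, act_dl, act_dl, act_dl]
    rfl
  rw [this]
  rfl

lemma act_one (v : Y →₀ k) : act (1 : Equiv.Perm Y) v = v := by
  have : act (k := k) (1 : Equiv.Perm Y) = LinearMap.id := by
    refine ext_dl fun i => ?_
    rw [act_dl]
    rfl
  rw [this]
  rfl

/-- supported functions as a submodule -/
def suppSub (k : Type*) [Field k] {Y : Type*} (R : Y → Prop) : Submodule k (Y →₀ k) where
  carrier := {v | Supp R v}
  add_mem' := fun ha hb => Supp.add ha hb
  zero_mem' := Supp.zero R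
  smul_mem' := fun r _ hv => Supp.smul r hv

lemma mem_suppSub {R : Y → Prop} {v : Y →₀ k} : v ∈ suppSub k R ↔ Supp R v := Iff.rfl

variable (γ : Equiv.Perm Y)

/-- orbit representative -/
def orep (y : Y) : Y := Quotient.out (Quotient.mk (Equiv.Perm.SameCycle.setoid γ) y)

lemma orep_same (y : Y) : γ.SameCycle (orep γ y) y :=
  Quotient.exact (Quotient.out_eq (Quotient.mk (Equiv.Perm.SameCycle.setoid γ) y))

lemma pow_apply_inv (a : ℕ) (y : Y) : (γ ^ a) ((γ ^ a)⁻¹ y) = y := (γ ^ a).apply_symm_apply y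

lemma inv_apply_pow (a : ℕ) (y : Y) : (γ ^ a)⁻¹ ((γ ^ a) y) = y := (γ ^ a).symm_apply_apply y

lemma orep_pow_inv (a : ℕ) (y : Y) : orep γ ((γ ^ a)⁻¹ y) = orep γ y := by
  unfold orep
  congr 1
  apply Quotient.sound
  change γ.SameCycle ((γ ^ a)⁻¹ y) y
  exact ⟨a, by
    rw [zpow_natCast]
    exact pow_apply_inv γ a y⟩

lemma fixed_of_periods {p : ℕ} (hp : p.Prime) {r : Y} (hr : (γ ^ p) r = r) {a : ℕ}
    (ha0 : 0 < a) (hap : a < p) (ha : (γ ^ a) r = r) : γ r = r := by
  have h1 : Function.IsPeriodicPt γ p r := by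
    change γ^[p] r = r
    rw [Equiv.Perm.iterate_eq_pow]; exact hr
  have h2 : Function.IsPeriodicPt γ a r := by
    change γ^[a] r = r
    rw [Equiv.Perm.iterate_eq_pow]; exact ha
  have h3 := h1.gcd h2
  have h4 : Nat.gcd p a = 1 := Nat.coprime_of_lt_prime ha0.ne' hap hp
  rw [h4] at h3
  exact h3

lemma zpow_mod {p : ℕ} {r : Y} (hr : (γ ^ p) r = r) (i : ℤ) : (γ ^ (i % p)) r = (γ ^ i) r := by
  have h1 : ∀ j : ℤ, (γ ^ ((p : ℤ) * j)) r = r := by
    intro j
    rw [zpow_mul, zpow_natCast]
    exact Equiv.Perm.zpow_apply_eq_self_of_apply_eq_self hr j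
  have h2 : γ ^ i = γ ^ (i % p) * γ ^ ((p : ℤ) * (i / p)) := by
    rw [← zpow_add, Int.emod_add_mul_ediv]
  rw [h2, Equiv.Perm.mul_apply, h1]

lemma count_ne {p : ℕ} (hp : p.Prime) {y : Y} (hy : (γ ^ p) y = y) (hne : γ y ≠ y) :
    ∑ a ∈ Finset.range p, (if orep γ ((γ ^ a)⁻¹ y) = (γ ^ a)⁻¹ y then (1 : k) else 0) = 1 := by
  set r := orep γ y with hr
  obtain ⟨i, hi⟩ := orep_same γ y
  rw [← hr] at hi
  have hpr : (γ ^ p) r = r := by
    have h1 : (γ ^ i) ((γ ^ p) r) = (γ ^ i) r := by
      rw [hi, ← Equiv.Perm.mul_apply]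
      have : γ ^ i * γ ^ p = γ ^ p * γ ^ i := by
        rw [← zpow_natCast, ← zpow_add, ← zpow_add, add_comm]
      rw [this, Equiv.Perm.mul_apply, hi, hy]
    exact (γ ^ i).injective h1
  have hnr : γ r ≠ r := by
    intro h
    apply hne
    have : (γ ^ i) r = r := Equiv.Perm.zpow_apply_eq_self_of_apply_eq_self h i
    rw [this] at hi
    rw [← hi]
    exact h
  have hp0 : (0 : ℤ) < p := by exact_mod_cast hp.pos
  obtain ⟨a, ha⟩ : ∃ a : ℕ, (a : ℤ) = i % p :=
    ⟨(i % p).toNat, Int.toNat_of_nonneg (Int.emod_nonneg _ hp0.ne')⟩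
  have hap : a < p := by
    have := Int.emod_lt_of_pos i hp0
    omega
  have hay : (γ ^ a) r = y := by
    rw [← zpow_natCast, ha, zpow_mod γ hpr, hi]
  rw [Finset.sum_eq_single a]
  · rw [if_pos]
    rw [orep_pow_inv, ← hr, ← hay]
    exact (inv_apply_pow γ a r).symm
  · intro b hb hba
    rw [if_neg]
    intro h
    rw [orep_pow_inv, ← hr] at h
    have hby : (γ ^ b) r = y := by rw [h]; exact pow_apply_inv γ b y
    have hbp := Finset.mem_range.mp hb
    have hab : (γ ^ a) r = (γ ^ b) r := by rw [hay, hby]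
    rcases lt_or_gt_of_ne hba with h' | h'
    · -- b < a
      have h1 : (γ ^ (a - b)) r = r := by
        have h2 : (γ ^ a) r = (γ ^ b) ((γ ^ (a - b)) r) := by
          rw [← Equiv.Perm.mul_apply, ← pow_add]
          congr 2
          omega
        rw [h2] at hab
        exact (γ ^ b).injective hab
      exact hnr (fixed_of_periods γ hp hpr (by omega) (by omega) h1)
    · have h1 : (γ ^ (b - a)) r = r := by
        have h2 : (γ ^ b) r = (γ ^ a) ((γ ^ (b - a)) r) := by
          rw [← Equiv.Perm.mul_apply, ← pow_add]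
          congr 2
          omega
        rw [h2] at hab
        exact ((γ ^ a).injective hab).symm
      exact hnr (fixed_of_periods γ hp hpr (by omega) (by omega) h1)
  · intro h
    exact absurd (Finset.mem_range.mpr hap) h

/-- projection to the orbit representatives -/
def EE (k : Type*) [Field k] {Y : Type*} (γ : Equiv.Perm Y) : (Y →₀ k) →ₗ[k] (Y →₀ k) :=
  opOf fun y => if orep γ y = y then dl k y else 0

/-- projection to the fixed elements -/
def FX (k : Type*) [Field k] {Y : Type*} (γ : Equiv.Perm Y) : (Y →₀ k) →ₗ[k] (Y →₀ k) :=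
  opOf fun y => if γ y = y then dl k y else 0

/-- norm operator -/
def NN (k : Type*) [Field k] {Y : Type*} (γ : Equiv.Perm Y) (p : ℕ) :
    (Y →₀ k) →ₗ[k] (Y →₀ k) := ∑ a ∈ Finset.range p, act (γ ^ a)

lemma NN_apply (p : ℕ) (v : Y →₀ k) : NN k γ p v = ∑ a ∈ Finset.range p, act (γ ^ a) v := by
  unfold NN
  rw [LinearMap.sum_apply]

lemma resolution {p : ℕ} [CharP k p] (hp : p.Prime) {D : Y → Prop}
    (hD : ∀ y, D y → (γ ^ p) y = y) {v : Y →₀ k} (hv : Supp D v) :
    v = FX k γ v + ∑ a ∈ Finset.range p, act (γ ^ a) (EE k γ (act (γ ^ a)⁻¹ v)) := by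
  have := Supp.eq (A := LinearMap.id)
    (B := FX k γ + ∑ a ∈ Finset.range p, (act (γ ^ a)).comp ((EE k γ).comp (act (γ ^ a)⁻¹)))
    (R := D) ?_ hv
  · rw [LinearMap.id_apply, LinearMap.add_apply, LinearMap.sum_apply] at this
    exact this
  · intro y hy
    rw [LinearMap.id_apply, LinearMap.add_apply, LinearMap.sum_apply]
    have h1 : ∀ a ∈ Finset.range p, ((act (γ ^ a)).comp ((EE k γ).comp (act (γ ^ a)⁻¹))) (dl k y)
        = (if orep γ ((γ ^ a)⁻¹ y) = (γ ^ a)⁻¹ y then (1 : k) else 0) • dl k y := by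
      intro a _
      rw [LinearMap.comp_apply, LinearMap.comp_apply, act_dl]
      unfold EE
      rw [opOf_dl]
      split_ifs with h
      · rw [act_dl, one_smul]
        congr 1
        exact pow_apply_inv γ a y
      · rw [map_zero, zero_smul]
    rw [Finset.sum_congr rfl h1, ← Finset.sum_smul]
    unfold FX
    rw [opOf_dl]
    by_cases hfix : γ y = y
    · rw [if_pos hfix]
      have h2 : ∀ a ∈ Finset.range p,
          (if orep γ ((γ ^ a)⁻¹ y) = (γ ^ a)⁻¹ y then (1 : k) else 0) = 1 := by
        intro a _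
        rw [if_pos]
        have h3 : (γ ^ a)⁻¹ y = y := by
          have : (γ ^ a) y = y := Equiv.Perm.pow_apply_eq_self_of_apply_eq_self hfix a
          conv_lhs => rw [← this]
          exact inv_apply_pow γ a y
        rw [h3]
        obtain ⟨i, hi⟩ := orep_same γ y
        have h4 : (γ ^ i)⁻¹ y = orep γ y := by
          conv_lhs => rw [← hi]
          exact (γ ^ i).symm_apply_apply _
        rw [← h4, ← zpow_neg]
        exact Equiv.Perm.zpow_apply_eq_self_of_apply_eq_self hfix _
      rw [Finset.sum_congr rfl h2, Finset.sum_const, Finset.card_range, nsmul_eq_mul, mul_one,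
        CharP.cast_eq_zero, zero_smul, add_zero]
    · rw [if_neg hfix, count_ne γ hp (hD y hy) hfix, one_smul, zero_add]

lemma supp_EE {D : Y → Prop} {v : Y →₀ k} (hv : Supp D v) : Supp D (EE k γ v) := by
  refine Supp.map (fun y hy => ?_) hv
  unfold EE
  rw [opOf_dl]
  split_ifs
  · exact Supp.dl hy
  · exact Supp.zero _

lemma supp_FX {D D0 : Y → Prop} (h : ∀ y, D y → γ y = y → D0 y) {v : Y →₀ k} (hv : Supp D v) :
    Supp D0 (FX k γ v) := by
  refine Supp.map (fun y hy => ?_) hv
  unfold FX
  rw [opOf_dl]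
  split_ifs with h'
  · exact Supp.dl (h y hy h')
  · exact Supp.zero _

lemma supp_act {D : Y → Prop} (g : Equiv.Perm Y) (h : ∀ y, D y → D (g y)) {v : Y →₀ k}
    (hv : Supp D v) : Supp D (act g v) := by
  refine Supp.map (fun y hy => ?_) hv
  rw [act_dl]
  exact Supp.dl (h y hy)

lemma D_pow {D : Y → Prop} (h : ∀ y, D y → D (γ y)) (a : ℕ) (y : Y) (hy : D y) :
    D ((γ ^ a) y) := by
  induction a with
  | zero => exact hy
  | succ a ih =>
    rw [pow_succ', Equiv.Perm.mul_apply]
    exact h _ ih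

lemma D_inv {D : Y → Prop} {p : ℕ} (hp0 : 0 < p) (h : ∀ y, D y → D (γ y))
    (hD : ∀ y, D y → (γ ^ p) y = y) (a : ℕ) (y : Y) (hy : D y) : D ((γ ^ a)⁻¹ y) := by
  have h1 : (γ ^ a)⁻¹ y = (γ ^ (p * a - a)) y := by
    apply (γ ^ a).injective
    rw [pow_apply_inv, ← Equiv.Perm.mul_apply, ← pow_add]
    have h2 : a + (p * a - a) = p * a := by
      have : a ≤ p * a := Nat.le_mul_of_pos_left a hp0
      omega
    rw [h2, pow_mul]
    exact (Equiv.Perm.pow_apply_eq_self_of_apply_eq_self (hD y hy) a).symm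
  rw [h1]
  exact D_pow γ h _ y hy

lemma act_p {D : Y → Prop} {p : ℕ} (hD : ∀ y, D y → (γ ^ p) y = y) {v : Y →₀ k}
    (hv : Supp D v) : act (γ ^ p) v = v := by
  have := Supp.eq (A := act (γ ^ p)) (B := LinearMap.id) (R := D)
    (fun y hy => by rw [act_dl, hD y hy]; rfl) hv
  exact this

lemma sum_telescope (v : Y →₀ k) (a : ℕ) :
    ∑ b ∈ Finset.range a, act (γ ^ b) v - act γ (∑ b ∈ Finset.range a, act (γ ^ b) v) =
      v - act (γ ^ a) v := by
  rw [map_sum, ← Finset.sum_sub_distrib]
  have h1 : ∀ b ∈ Finset.range a, act (γ ^ b) v - act γ (act (γ ^ b) v) =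
      act (γ ^ b) v - act (γ ^ (b + 1)) v := by
    intro b _
    rw [pow_succ', act_mul]
  rw [Finset.sum_congr rfl h1, Finset.sum_range_sub', pow_zero, act_one]

end perm

section smith

variable {k : Type*} [Field k] {X : Type*} [PartialOrder X]

/-- the chain lies in `U` -/
def InU (U : Set X) (S : Ch X) : Prop := (S.1 : Set X) ⊆ U

/-- graded exactness of the chain complex of a subset -/
def GEx (k : Type*) [Field k] {X : Type*} [PartialOrder X] (U : Set X) : Prop :=
  ∀ (i : ℕ) (v : Ch X →₀ k), Supp (InU U) v → Hom i v → bd k X v = 0 →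
    ∃ w : Ch X →₀ k, Supp (InU U) w ∧ Hom (i + 1) w ∧ bd k X w = v

/-- graded pieces -/
def pr (k : Type*) [Field k] {X : Type*} [PartialOrder X] (i : ℕ) :
    (Ch X →₀ k) →ₗ[k] (Ch X →₀ k) := opOf fun S => if S.1.card = i then dl k S else 0

lemma hom_pr (i : ℕ) (v : Ch X →₀ k) : Hom i (pr k i v) := by
  refine Supp.map (R := fun _ => True) (fun S _ => ?_) (fun S hS => absurd trivial hS)
  unfold pr
  rw [opOf_dl]
  split_ifs with h
  · exact Supp.dl h
  · exact Supp.zero _

lemma supp_pr {R : Ch X → Prop} (i : ℕ) {v : Ch X →₀ k} (hv : Supp R v) :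
    Supp R (pr k i v) := by
  refine Supp.map (fun S hS => ?_) hv
  unfold pr
  rw [opOf_dl]
  split_ifs with h
  · exact Supp.dl hS
  · exact Supp.zero _

lemma pr_of_hom {i : ℕ} {v : Ch X →₀ k} (hv : Hom i v) : pr k i v = v := by
  have := Supp.eq (A := pr k i) (B := LinearMap.id) (R := fun S : Ch X => S.1.card = i)
    (fun S hS => by unfold pr; rw [opOf_dl, if_pos hS]; rfl) hv
  exact this

lemma bd_pr (i : ℕ) (v : Ch X →₀ k) : bd k X (pr k (i + 1) v) = pr k i (bd k X v) := by
  have : (bd k X).comp (pr k (i + 1)) = (pr k i).comp (bd k X) := by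
    refine ext_dl fun S => ?_
    rw [LinearMap.comp_apply, LinearMap.comp_apply, bd_dl, map_sum]
    have h1 : pr k (i + 1) (dl k S) = if S.1.card = i + 1 then dl k S else 0 := opOf_dl _ S
    rw [h1]
    split_ifs with h
    · rw [bd_dl]
      refine Finset.sum_congr rfl fun x hx => ?_
      rw [map_smul]
      congr 1
      have h2 : pr k i (dl k (er S x)) = if (er S x).1.card = i then dl k (er S x) else 0 :=
        opOf_dl _ _
      rw [h2, if_pos]
      rw [er_coe, Finset.card_erase_of_mem hx, h]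
      rfl
    · rw [map_zero]
      symm
      refine Finset.sum_eq_zero fun x hx => ?_
      rw [map_smul]
      have h2 : pr k i (dl k (er S x)) = if (er S x).1.card = i then dl k (er S x) else 0 :=
        opOf_dl _ _
      rw [h2, if_neg, smul_zero]
      rw [er_coe, Finset.card_erase_of_mem hx]
      have := Finset.card_pos.mpr ⟨x, hx⟩
      omega
  exact congrArg (fun A : (Ch X →₀ k) →ₗ[k] (Ch X →₀ k) => A v) this

lemma bd_pr_zero (v : Ch X →₀ k) : bd k X (pr k 0 v) = 0 := by
  have : (bd k X).comp (pr k 0) = 0 := by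
    refine ext_dl fun S => ?_
    rw [LinearMap.comp_apply]
    have h1 : pr k 0 (dl k S) = if S.1.card = 0 then dl k S else 0 := opOf_dl _ S
    rw [h1]
    split_ifs with h
    · rw [bd_dl, Finset.card_eq_zero.mp h]
      simp
    · simp
  exact congrArg (fun A : (Ch X →₀ k) →ₗ[k] (Ch X →₀ k) => A v) this

/-- ungraded exactness of the chain complex of a subset -/
def ExOn (k : Type*) [Field k] {X : Type*} [PartialOrder X] (U : Set X) : Prop :=
  ∀ v : Ch X →₀ k, Supp (InU U) v → bd k X v = 0 → ∃ w : Ch X →₀ k, Supp (InU U) w ∧ bd k X w = v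

lemma GEx.of_exOn {U : Set X} (h : ExOn k U) : GEx k U := by
  intro i v hv hvi hbd
  obtain ⟨w, hw, hbw⟩ := h v hv hbd
  refine ⟨pr k (i + 1) w, supp_pr _ hw, hom_pr _ _, ?_⟩
  rw [bd_pr, hbw, pr_of_hom hvi]

lemma sum_pr (hn : FinLen X) : ∃ n, ∀ v : Ch X →₀ k, ∑ i ∈ Finset.range n, pr k i v = v := by
  obtain ⟨n, hn⟩ := hn
  refine ⟨n + 1, fun v => ?_⟩
  have : ∑ i ∈ Finset.range (n + 1), pr k (X := X) i = LinearMap.id := by
    refine ext_dl fun S => ?_
    rw [LinearMap.sum_apply, Finset.sum_eq_single S.1.card]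
    · have h1 : pr k S.1.card (dl k S) = if S.1.card = S.1.card then dl k S else 0 := opOf_dl _ S
      rw [h1, if_pos rfl]
      rfl
    · intro i _ hi
      have h1 : pr k i (dl k S) = if S.1.card = i then dl k S else 0 := opOf_dl _ S
      rw [h1, if_neg (Ne.symm hi)]
    · intro h
      exact absurd (Finset.mem_range.mpr (Nat.lt_succ_of_le (hn S))) h
  have h2 := congrArg (fun A : (Ch X →₀ k) →ₗ[k] (Ch X →₀ k) => A v) this
  simp only [LinearMap.sum_apply, LinearMap.id_apply] at h2
  exact h2

lemma GEx.exOn (hn : FinLen X) {U : Set X} (h : GEx k U) : ExOn k U := by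
  intro v hv hbd
  obtain ⟨n, hs⟩ := sum_pr (k := k) hn
  have h1 : ∀ i, ∃ w : Ch X →₀ k, Supp (InU U) w ∧ bd k X w = pr k i v := by
    intro i
    have h2 : bd k X (pr k i v) = 0 := by
      cases i with
      | zero => exact bd_pr_zero v
      | succ i => rw [bd_pr, hbd, map_zero]
    obtain ⟨w, hw1, _, hw2⟩ := h i (pr k i v) (supp_pr _ hv) (hom_pr _ _) h2
    exact ⟨w, hw1, hw2⟩
  choose w hw1 hw2 using h1
  refine ⟨∑ i ∈ Finset.range n, w i, Supp.sum _ _ fun i _ => hw1 i, ?_⟩
  rw [map_sum, Finset.sum_congr rfl fun i _ => hw2 i, hs]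

lemma GEx.of_exact (h : Exact k X) : GEx k (Set.univ : Set X) := by
  refine GEx.of_exOn fun v _ hbd => ?_
  obtain ⟨w, hw⟩ := h v hbd
  exact ⟨w, fun S hS => absurd (Set.subset_univ _) hS, hw⟩

lemma inU_of_fixed {U : Set X} (g : X ≃o X) {p : ℕ} (hp0 : 0 < p) (hgp : ∀ x ∈ U, g^[p] x = x)
    {S : Ch X} (hS : InU U S) (hfix : mapCh g S = S) : InU {x ∈ U | g x = x} S := by
  intro x hx
  refine ⟨hS hx, ?_⟩
  by_contra hne
  have hgx : g x ∈ S.1 := by
    rw [← hfix, mem_mapCh]
    exact hx
  have hpx := hgp x (hS hx)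
  rcases S.2 hx hgx (Ne.symm hne) with h | h
  · have hlt : x < g x := lt_of_le_of_ne h (Ne.symm hne)
    have h1 : ∀ j : ℕ, x < g^[j + 1] x := by
      intro j
      induction j with
      | zero => exact hlt
      | succ j ih =>
        rw [Function.iterate_succ_apply']
        exact hlt.trans (g.strictMono ih)
    have h2 := h1 (p - 1)
    rw [Nat.sub_add_cancel hp0, hpx] at h2
    exact lt_irrefl _ h2
  · have hlt : g x < x := lt_of_le_of_ne h hne
    have h1 : ∀ j : ℕ, g^[j + 1] x < x := by
      intro j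
      induction j with
      | zero => exact hlt
      | succ j ih =>
        rw [Function.iterate_succ_apply']
        exact (g.strictMono ih).trans hlt
    have h2 := h1 (p - 1)
    rw [Nat.sub_add_cancel hp0, hpx] at h2
    exact lt_irrefl _ h2

lemma act_bd (g : X ≃o X) (v : Ch X →₀ k) :
    act (mapCh g) (bd k X v) = bd k X (act (mapCh g) v) := by
  have : (act (mapCh g)).comp (bd k X) = (bd k X).comp (act (mapCh g)) := by
    refine ext_dl fun S => ?_
    rw [LinearMap.comp_apply, LinearMap.comp_apply, act_dl, bd_dl, bd_dl, map_sum, sum_mapCh]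
    refine Finset.sum_congr rfl fun x _ => ?_
    rw [map_smul, act_dl, er_mapCh]
    congr 1
    unfold sgn
    have : (mapCh g S).1.filter (· < g x) = (S.1.filter (· < x)).map g.toEquiv.toEmbedding := by
      ext y
      simp only [mapCh_coe, Finset.mem_filter, Finset.mem_map]
      constructor
      · rintro ⟨⟨z, hz, rfl⟩, h⟩
        exact ⟨z, ⟨hz, g.lt_iff_lt.mp h⟩, rfl⟩
      · rintro ⟨z, ⟨hz, h⟩, rfl⟩
        exact ⟨⟨z, hz, rfl⟩, g.lt_iff_lt.mpr h⟩
    rw [this, Finset.card_map]
  exact congrArg (fun A : (Ch X →₀ k) →ₗ[k] (Ch X →₀ k) => A v) this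

lemma act_pow_bd (g : X ≃o X) (a : ℕ) (v : Ch X →₀ k) :
    act (mapCh g ^ a) (bd k X v) = bd k X (act (mapCh g ^ a) v) := by
  induction a generalizing v with
  | zero => rw [pow_zero, act_one, act_one]
  | succ a ih => rw [pow_succ, act_mul, act_mul, act_bd, ih]

lemma supp_bd {U : Set X} {v : Ch X →₀ k} (hv : Supp (InU U) v) : Supp (InU U) (bd k X v) := by
  refine Supp.map (fun S hS => ?_) hv
  rw [bd_dl]
  refine Supp.sum _ _ fun x _ => Supp.smul _ (Supp.dl ?_)
  intro y hy
  exact hS (Finset.mem_of_mem_erase hy)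

lemma hom_act (g : X ≃o X) (a : ℕ) {i : ℕ} {v : Ch X →₀ k} (hv : Hom i v) :
    Hom i (act (mapCh g ^ a) v) := by
  refine supp_act _ (fun S hS => ?_) hv
  refine D_pow (mapCh g) (D := fun S : Ch X => S.1.card = i) (fun S hS => ?_) a S hS
  rw [mapCh_card]
  exact hS

/-- Smith's theorem for an order automorphism of prime order. -/
theorem smith (hn : FinLen X) (U : Set X) (g : X ≃o X) {p : ℕ} (hp : p.Prime) [CharP k p]
    (hgU : ∀ x ∈ U, g x ∈ U) (hgp : ∀ x ∈ U, g^[p] x = x) (hU : GEx k U) :
    GEx k {x ∈ U | g x = x} := by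
  obtain ⟨n, hn'⟩ := id hn
  set γ : Equiv.Perm (Ch X) := mapCh g with hγ
  have hDγ : ∀ S : Ch X, InU U S → InU U (γ S) := by
    intro S hS y hy
    rw [hγ, Finset.mem_coe, mapCh_coe, Finset.mem_map] at hy
    obtain ⟨z, hz, rfl⟩ := hy
    exact hgU z (hS hz)
  have hDp : ∀ S : Ch X, InU U S → (γ ^ p) S = S := by
    intro S hS
    apply Subtype.ext
    rw [hγ, mapCh_pow_coe]
    ext x
    rw [Finset.mem_image]
    constructor
    · rintro ⟨y, hy, rfl⟩
      rw [hgp y (hS hy)]
      exact hy
    · intro hx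
      exact ⟨x, hx, hgp x (hS hx)⟩
  have hfixN : ∀ S : Ch X, InU U S → γ S = S → InU {x ∈ U | g x = x} S :=
    fun S hS hf => inU_of_fixed g hp.pos hgp hS hf
  have hNfix : ∀ S : Ch X, InU {x ∈ U | g x = x} S → γ S = S := by
    intro S hS
    apply Subtype.ext
    rw [hγ, mapCh_coe]
    ext x
    rw [Finset.mem_map]
    constructor
    · rintro ⟨y, hy, rfl⟩
      have : g y = y := (hS hy).2
      change g y ∈ S.1
      rw [this]
      exact hy
    · intro hx
      exact ⟨x, hx, (hS hx).2⟩
  have hNU : ∀ S : Ch X, InU {x ∈ U | g x = x} S → InU U S := fun S hS x hx => (hS hx).1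
  set τ : (Ch X →₀ k) →ₗ[k] (Ch X →₀ k) := LinearMap.id - act γ with hτ
  have hτa : ∀ v, τ v = v - act γ v := fun v => rfl
  set σ : (Ch X →₀ k) →ₗ[k] (Ch X →₀ k) := NN k γ p with hσ
  have hσa : ∀ v, σ v = ∑ a ∈ Finset.range p, act (γ ^ a) v := fun v => NN_apply γ p v
  have hW : ∀ a : ℕ, ∀ v : Ch X →₀ k, Supp (InU U) v → Supp (InU U) (act (γ ^ a) v) :=
    fun a v hv => supp_act _ (D_pow γ hDγ a) hv
  have hW1 : ∀ v : Ch X →₀ k, Supp (InU U) v → Supp (InU U) (act γ v) :=
    fun v hv => supp_act _ hDγ hv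
  have hWi : ∀ a : ℕ, ∀ v : Ch X →₀ k, Supp (InU U) v → Supp (InU U) (act (γ ^ a)⁻¹ v) :=
    fun a v hv => supp_act _ (D_inv γ hp.pos hDγ hDp a) hv
  have hst : ∀ v : Ch X →₀ k, Supp (InU U) v → ∑ a ∈ Finset.range p, act (γ ^ a) v -
      act γ (∑ a ∈ Finset.range p, act (γ ^ a) v) = 0 := by
    intro v hv
    rw [sum_telescope, act_p γ hDp hv, sub_self]
  have hcomm : ∀ v : Ch X →₀ k, ∑ a ∈ Finset.range p, act (γ ^ a) (act γ v) =
      act γ (∑ a ∈ Finset.range p, act (γ ^ a) v) := by
    intro v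
    rw [map_sum]
    refine Finset.sum_congr rfl fun a _ => ?_
    rw [← act_mul, ← act_mul, ← pow_succ, ← pow_succ']
  have data : SmithData (bd k X) τ σ (suppSub k (InU U)) (suppSub k (InU {x ∈ U | g x = x}))
      (fun i => suppSub k (fun S : Ch X => S.1.card = i)) n := by
    refine
      { dd := bd_bd
        dW := fun v hv => supp_bd hv
        tW := fun v hv => Supp.sub hv (hW1 v hv)
        sW := fun v hv => by
          rw [hσa]
          exact Supp.sum _ _ fun a _ => hW a v hv
        dt := fun v => by rw [hτa, hτa, map_sub, act_bd]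
        ds := fun v => by
          rw [hσa, hσa, map_sum]
          exact Finset.sum_congr rfl fun a _ => (act_pow_bd g a v).symm
        st := fun v hv => by
          rw [hσa, hτa]
          simp only [map_sub]
          rw [Finset.sum_sub_distrib, hcomm]
          exact hst v hv
        ts := fun v hv => by
          rw [hσa, hτa]
          exact hst v hv
        dN := fun v hv => supp_bd hv
        NW := fun v hv => Supp.mono hNU hv
        tN := fun v hv => by
          have := Supp.eq (A := τ) (B := 0) (R := InU {x ∈ U | g x = x})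
            (fun S hS => by rw [hτa, act_dl, hNfix S hS, sub_self]; rfl) hv
          exact this
        kt := ?_
        ks := ?_
        it := ?_
        is := ?_
        tH := fun i v hv => by
          have := hom_act g 1 hv
          rw [pow_one] at this
          exact Supp.sub hv this
        sH := fun i v hv => by
          rw [hσa]
          exact Supp.sum _ _ fun a _ => hom_act g a hv
        Hn := fun i hi v hv => by
          ext S
          exact hv S (fun h => by
            have := hn' S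
            omega)
        ex := fun i v hv hvi hbd => by
          obtain ⟨w, hw1, hw2, hw3⟩ := hU i v hv hvi hbd
          exact ⟨w, hw1, hw2, hw3⟩ }
    · -- kernel of τ
      intro v hv h0
      have hfix : act γ v = v := by
        rw [hτa, sub_eq_zero] at h0
        exact h0.symm
      have hinv : ∀ a : ℕ, act (γ ^ a)⁻¹ v = v := by
        intro a
        have h1 : act (γ ^ a) v = v := by
          induction a with
          | zero => rw [pow_zero, act_one]
          | succ a ih => rw [pow_succ, act_mul, hfix, ih]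
        conv_lhs => rw [← h1]
        rw [← act_mul, inv_mul_cancel, act_one]
      refine ⟨FX k γ v, supp_FX γ hfixN hv, EE k γ v, supp_EE γ hv, ?_⟩
      rw [hσa]
      have h2 := resolution γ hp hDp hv
      simp only [hinv] at h2
      exact h2
    · -- kernel of σ
      intro v hv h0
      rw [hσa] at h0
      set w : ℕ → (Ch X →₀ k) := fun a => EE k γ (act (γ ^ a)⁻¹ v) with hw
      have hsw : ∑ a ∈ Finset.range p, w a = 0 := by
        have h1 : ∑ a ∈ Finset.range p, act (γ ^ a)⁻¹ v = 0 := by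
          have h2 : act (γ ^ (p - 1))⁻¹ (∑ a ∈ Finset.range p, act (γ ^ a) v) = 0 := by
            rw [h0, map_zero]
          rw [map_sum] at h2
          rw [← Finset.sum_range_reflect] at h2
          rw [← h2]
          refine Finset.sum_congr rfl fun a ha => ?_
          rw [← act_mul]
          congr 2
          have hap := Finset.mem_range.mp ha
          rw [eq_comm, inv_mul_eq_iff_eq_mul, ← mul_inv_eq_iff_eq_mul, inv_inv, ← pow_add]
          congr 1
          omega
        simp only [hw]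
        rw [← map_sum, h1, map_zero]
      refine ⟨FX k γ v, supp_FX γ hfixN hv,
        -∑ a ∈ Finset.range p, ∑ b ∈ Finset.range a, act (γ ^ b) (w a), ?_, ?_⟩
      · refine Supp.neg (Supp.sum _ _ fun a _ => Supp.sum _ _ fun b _ => hW b _ ?_)
        exact supp_EE γ (hWi a v hv)
      · have h2 := resolution γ hp hDp hv
        have h3 : τ (-∑ a ∈ Finset.range p, ∑ b ∈ Finset.range a, act (γ ^ b) (w a)) =
            ∑ a ∈ Finset.range p, act (γ ^ a) (w a) := by
          rw [map_neg, map_sum]
          have h4 : ∀ a ∈ Finset.range p, τ (∑ b ∈ Finset.range a, act (γ ^ b) (w a)) =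
              w a - act (γ ^ a) (w a) := by
            intro a _
            rw [hτa, sum_telescope]
          rw [Finset.sum_congr rfl h4, Finset.sum_sub_distrib, hsw]
          simp
        rw [h3]
        exact h2
    · -- image of τ
      intro u hu hN
      ext S
      by_cases hS : InU {x ∈ U | g x = x} S
      · rw [hτa, Finsupp.sub_apply, act_apply']
        have h1 : γ.symm S = S := by
          rw [Equiv.symm_apply_eq]
          exact (hNfix S hS).symm
        rw [h1, sub_self]
        rfl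
      · exact hN S hS
    · -- image of σ
      intro u hu hN
      ext S
      by_cases hS : InU {x ∈ U | g x = x} S
      · rw [hσa, Finsupp.finsetSum_apply]
        have h1 : ∀ a ∈ Finset.range p, (act (γ ^ a) u) S = u S := by
          intro a _
          rw [act_apply']
          congr 1
          rw [Equiv.symm_apply_eq]
          exact (Equiv.Perm.pow_apply_eq_self_of_apply_eq_self (hNfix S hS) a).symm
        rw [Finset.sum_congr rfl h1, Finset.sum_const, Finset.card_range, nsmul_eq_mul,
          CharP.cast_eq_zero, zero_mul]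
        rfl
      · exact hN S hS
  intro i z hz hzi hbd
  obtain ⟨c, hc, hbc⟩ := data.exact i z hz hzi hbd
  refine ⟨pr k (i + 1) c, supp_pr _ hc, hom_pr _ _, ?_⟩
  rw [bd_pr, hbc, pr_of_hom hzi]

end smith

end

end Pool.Agent.Helper43.SP.FK
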