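import Pool.Agent.Helper43.SP.Reg

/-!
Ultrapowers of posets of bounded length, and the action of sequences of iterates of an order
automorphism.
-/

set_option autoImplicit false

namespace Pool.Agent.Helper43.SP.FK

open Filter
open scoped Classical

noncomputable section

/-- the ultrafilter -/
abbrev UU : Filter ℕ := ((hyperfilter ℕ : Ultrafilter ℕ) : Filter ℕ)

/-- sequences -/
def US (Q : Type*) := ℕ → Q

instance (Q : Type*) [PartialOrder Q] : Preorder (US Q) where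
  le a b := ∀ᶠ i in UU, a i ≤ b i
  le_refl a := Eventually.of_forall fun _ => le_rfl
  le_trans a b c h h' := by
    filter_upwards [h, h'] with i h1 h2
    exact h1.trans h2

/-- ultrapower -/
abbrev UP (Q : Type*) [PartialOrder Q] := Antisymmetrization (US Q) (· ≤ ·)

variable {Q : Type*} [PartialOrder Q]

/-- class of a sequence -/
def umk (a : ℕ → Q) : UP Q := toAntisymmetrization (α := US Q) (· ≤ ·) a

/-- representative -/
def rp (y : UP Q) (i : ℕ) : Q := (ofAntisymmetrization (α := US Q) (· ≤ ·) y) i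

lemma umk_le (a b : ℕ → Q) : umk a ≤ umk b ↔ ∀ᶠ i in UU, a i ≤ b i := Iff.rfl

lemma umk_eq {a b : ℕ → Q} (h : ∀ᶠ i in UU, a i = b i) : umk a = umk b := by
  apply le_antisymm
  · rw [umk_le]
    filter_upwards [h] with i hi
    exact hi.le
  · rw [umk_le]
    filter_upwards [h] with i hi
    exact hi.ge

lemma umk_rp (y : UP Q) : umk (rp y) = y :=
  toAntisymmetrization_ofAntisymmetrization (α := US Q) _ _

lemma rp_umk (a : ℕ → Q) : ∀ᶠ i in UU, rp (umk a) i = a i := by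
  have h := umk_rp (umk a)
  have h1 : umk (rp (umk a)) ≤ umk a := h.le
  have h2 : umk a ≤ umk (rp (umk a)) := h.ge
  rw [umk_le] at h1 h2
  filter_upwards [h1, h2] with i h3 h4
  exact le_antisymm h3 h4

lemma ule_iff (y z : UP Q) : y ≤ z ↔ ∀ᶠ i in UU, rp y i ≤ rp z i := by
  conv_lhs => rw [← umk_rp y, ← umk_rp z]
  exact umk_le _ _

lemma uext {y z : UP Q} (h : ∀ᶠ i in UU, rp y i = rp z i) : y = z := by
  rw [← umk_rp y, ← umk_rp z]
  exact umk_eq h

lemma eq_umk {y : UP Q} {a : ℕ → Q} (h : ∀ᶠ i in UU, rp y i = a i) : y = umk a := by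
  conv_lhs => rw [← umk_rp y]
  exact umk_eq h

lemma ule_iff_ev (y z : UP Q) : ∀ᶠ i in UU, (y ≤ z ↔ rp y i ≤ rp z i) := by
  by_cases h : y ≤ z
  · have := (ule_iff y z).mp h
    filter_upwards [this] with i hi
    exact ⟨fun _ => hi, fun _ => h⟩
  · have h1 : ¬ ∀ᶠ i in UU, rp y i ≤ rp z i := fun h' => h ((ule_iff y z).mpr h')
    have h2 : ∀ᶠ i in UU, ¬ rp y i ≤ rp z i := Ultrafilter.eventually_not.mpr h1
    filter_upwards [h2] with i hi
    exact ⟨fun h' => absurd h' h, fun h' => absurd h' hi⟩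

lemma ufin (Y : Finset (UP Q)) : ∀ᶠ i in UU, ∀ x ∈ Y, ∀ y ∈ Y, (x ≤ y ↔ rp x i ≤ rp y i) := by
  rw [Filter.eventually_all_finset]
  intro x _
  rw [Filter.eventually_all_finset]
  intro y _
  exact ule_iff_ev x y

lemma image_chain {Y : Finset (UP Q)} {i : ℕ} (h : ∀ x ∈ Y, ∀ y ∈ Y, (x ≤ y ↔ rp x i ≤ rp y i))
    (hY : IsChain (· ≤ ·) (Y : Set (UP Q))) :
    IsChain (· ≤ ·) ((Y.image (fun y => rp y i) : Finset Q) : Set Q) := by
  intro a ha b hb hab
  rw [Finset.mem_coe, Finset.mem_image] at ha hb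
  obtain ⟨x, hx, rfl⟩ := ha
  obtain ⟨y, hy, rfl⟩ := hb
  have hxy : x ≠ y := by rintro rfl; exact hab rfl
  rcases hY hx hy hxy with h' | h'
  · exact Or.inl ((h x hx y hy).mp h')
  · exact Or.inr ((h y hy x hx).mp h')

lemma image_inj {Y : Finset (UP Q)} {i : ℕ} (h : ∀ x ∈ Y, ∀ y ∈ Y, (x ≤ y ↔ rp x i ≤ rp y i)) :
    Set.InjOn (fun y : UP Q => rp y i) (Y : Set (UP Q)) := by
  intro x hx y hy hxy
  dsimp only at hxy
  exact le_antisymm ((h x hx y hy).mpr hxy.le) ((h y hy x hx).mpr hxy.ge)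

lemma finLen_UP (hn : FinLen Q) : FinLen (UP Q) := by
  obtain ⟨n, hn⟩ := hn
  refine ⟨n, fun S => ?_⟩
  obtain ⟨i, hi⟩ := (ufin S.1).exists
  have h1 := hn ⟨_, image_chain hi S.2⟩
  have h2 := Finset.card_image_of_injOn (image_inj hi)
  rw [← h2]
  exact h1

/-- order automorphisms of the ultrapower -/
def UT (F : Q ≃o Q) (N : ℕ → ℕ) : UP Q ≃o UP Q where
  toFun y := umk fun i => F^[N i] (rp y i)
  invFun y := umk fun i => F.symm^[N i] (rp y i)
  left_inv := by
    intro y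
    symm
    apply eq_umk
    filter_upwards [rp_umk fun i => F^[N i] (rp y i)] with i hi
    rw [hi]
    exact ((itIso F (N i)).symm_apply_apply (rp y i)).symm
  right_inv := by
    intro y
    symm
    apply eq_umk
    filter_upwards [rp_umk fun i => F.symm^[N i] (rp y i)] with i hi
    rw [hi]
    exact ((itIso F (N i)).apply_symm_apply (rp y i)).symm
  map_rel_iff' := by
    intro y z
    change umk (fun i => F^[N i] (rp y i)) ≤ umk (fun i => F^[N i] (rp z i)) ↔ y ≤ z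
    rw [umk_le, ule_iff]
    refine eventually_congr (Eventually.of_forall fun i => ?_)
    exact (itIso F (N i)).le_iff_le

lemma rp_UT (F : Q ≃o Q) (N : ℕ → ℕ) (y : UP Q) :
    ∀ᶠ i in UU, rp (UT F N y) i = F^[N i] (rp y i) := rp_umk _

lemma UT_UT (F : Q ≃o Q) (N N' : ℕ → ℕ) (y : UP Q) :
    UT F N (UT F N' y) = UT F (fun i => N i + N' i) y := by
  apply uext
  filter_upwards [rp_UT F N (UT F N' y), rp_UT F N' y, rp_UT F (fun i => N i + N' i) y] with
    i h1 h2 h3
  rw [h1, h2, h3, Function.iterate_add_apply]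

lemma mapCh_congr {X : Type*} [PartialOrder X] {g g' : X → X} {S T : Finset X}
    (h : S.image g = T) (h' : S.image g' = T) : S.image g = S.image g' := by rw [h, h']

lemma mapCh_comp_congr {X : Type*} [PartialOrder X] (g h g' h' : X ≃o X) (S : Ch X)
    (he : ∀ x, g (h x) = g' (h' x)) : mapCh g (mapCh h S) = mapCh g' (mapCh h' S) := by
  apply Subtype.ext
  rw [mapCh_coe, mapCh_coe, mapCh_coe, mapCh_coe]
  ext x
  simp only [Finset.mem_map]
  constructor
  · rintro ⟨y, ⟨z, hz, rfl⟩, rfl⟩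
    exact ⟨h' z, ⟨z, hz, rfl⟩, (he z).symm⟩
  · rintro ⟨y, ⟨z, hz, rfl⟩, rfl⟩
    exact ⟨h z, ⟨z, hz, rfl⟩, he z⟩

lemma mapCh_comp_eq {X : Type*} [PartialOrder X] (g h g' : X ≃o X) (S : Ch X)
    (he : ∀ x, g (h x) = g' x) : mapCh g (mapCh h S) = mapCh g' S := by
  apply Subtype.ext
  rw [mapCh_coe, mapCh_coe, mapCh_coe]
  ext x
  simp only [Finset.mem_map]
  constructor
  · rintro ⟨y, ⟨z, hz, rfl⟩, rfl⟩
    exact ⟨z, hz, (he z).symm⟩
  · rintro ⟨z, hz, rfl⟩
    exact ⟨h z, ⟨z, hz, rfl⟩, he z⟩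

/-- chain maps are rigid -/
lemma rigid {X : Type*} [PartialOrder X] (g1 g2 : X ≃o X) (S : Ch X)
    (h : mapCh g1 S = mapCh g2 S) : ∀ x ∈ S.1, g1 x = g2 x := by
  intro x hx
  have hcount : ∀ g : X ≃o X, ((mapCh g S).1.filter (· < g x)).card =
      (S.1.filter (· < x)).card := by
    intro g
    have : (mapCh g S).1.filter (· < g x) = (S.1.filter (· < x)).map g.toEquiv.toEmbedding := by
      ext y
      simp only [mapCh_coe, Finset.mem_filter, Finset.mem_map]
      constructor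
      · rintro ⟨⟨z, hz, rfl⟩, h⟩
        exact ⟨z, ⟨hz, g.lt_iff_lt.mp h⟩, rfl⟩
      · rintro ⟨z, ⟨hz, h⟩, rfl⟩
        exact ⟨⟨z, hz, rfl⟩, g.lt_iff_lt.mpr h⟩
    rw [this, Finset.card_map]
  have h1 := hcount g1
  have h2 := hcount g2
  rw [← h] at h2
  have m1 : g1 x ∈ (mapCh g1 S).1 := (mem_mapCh g1 S x).mpr hx
  have m2 : g2 x ∈ (mapCh g1 S).1 := by rw [h]; exact (mem_mapCh g2 S x).mpr hx
  by_contra hne
  have key : ∀ a b : X, a ∈ (mapCh g1 S).1 → a < b →
      ((mapCh g1 S).1.filter (· < a)).card < ((mapCh g1 S).1.filter (· < b)).card := by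
    intro a b ha hab
    apply Finset.card_lt_card
    rw [Finset.ssubset_iff_of_subset]
    · exact ⟨a, Finset.mem_filter.mpr ⟨ha, hab⟩, fun h' =>
        lt_irrefl _ (Finset.mem_filter.mp h').2⟩
    · intro z hz
      rw [Finset.mem_filter] at hz ⊢
      exact ⟨hz.1, hz.2.trans hab⟩
  rcases (mapCh g1 S).2 m1 m2 hne with h' | h'
  · have := key _ _ m1 (lt_of_le_of_ne h' hne)
    omega
  · have := key _ _ m2 (lt_of_le_of_ne h' (Ne.symm hne))
    omega

section action

variable (F : Q ≃o Q) (m : ℕ)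

/-- the sequences of exponents -/
def Nseq (m a : ℕ) (i : ℕ) : ℕ := m * i ^ (a + 1)

/-- the commuting automorphisms -/
def tt (a : ℕ) : UP Q ≃o UP Q := UT F (Nseq m a)

/-- the periodic part -/
def X0 : Set (UP Q) := {y | ∀ᶠ i in UU, ∃ e, 0 < e ∧ F^[e] (rp y i) = rp y i}

lemma tt_comm (a b : ℕ) : mapCh (tt F m a) * mapCh (tt F m b) =
    mapCh (tt F m b) * mapCh (tt F m a) := by
  ext1 S
  rw [Equiv.Perm.mul_apply, Equiv.Perm.mul_apply]
  refine mapCh_comp_congr _ _ _ _ S fun x => ?_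
  unfold tt
  rw [UT_UT, UT_UT]
  congr 2
  funext i
  exact add_comm _ _

lemma UT_st (N : ℕ → ℕ) : ∀ x ∈ X0 F, UT F N x ∈ X0 F := by
  intro x hx
  change ∀ᶠ i in UU, ∃ e, 0 < e ∧ F^[e] (rp (UT F N x) i) = rp (UT F N x) i
  filter_upwards [hx, rp_UT F N x] with i h1 h2
  obtain ⟨e, he, h1⟩ := h1
  refine ⟨e, he, ?_⟩
  rw [h2, ← Function.iterate_add_apply, add_comm, Function.iterate_add_apply, h1]

lemma tt_st : ∀ x ∈ X0 F, ∀ a, tt F m a x ∈ X0 F := fun x hx _ => UT_st F _ x hx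

/-- description of the elements of the group generated by the first automorphisms -/
lemma GJ_desc (j : ℕ) (g : Equiv.Perm (Ch (UP Q))) (hg : g ∈ GJ (tt F m) j) :
    ∃ c d : ℕ → ℕ, (∃ C, ∀ i, 1 ≤ i → c i ≤ C * i ^ j ∧ d i ≤ C * i ^ j) ∧
      ∀ S, g (mapCh (UT F d) S) = mapCh (UT F c) S := by
  unfold GJ at hg
  have hz : ∀ (N : ℕ → ℕ) (S : Ch (UP Q)), mapCh (UT F N) (mapCh (UT F fun _ => 0) S) =
      mapCh (UT F N) S := by
    intro N S
    refine mapCh_comp_eq _ _ _ S fun x => ?_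
    rw [UT_UT]
    rfl
  induction hg using Subgroup.closure_induction with
  | mem x hx =>
    obtain ⟨a, ha, rfl⟩ := hx
    refine ⟨Nseq m a, fun _ => 0, ⟨m, fun i hi => ⟨?_, Nat.zero_le _⟩⟩, fun S => hz _ S⟩
    unfold Nseq
    exact Nat.mul_le_mul_left _ (Nat.pow_le_pow_right hi ha)
  | one =>
    exact ⟨fun _ => 0, fun _ => 0, ⟨0, fun i _ => by simp⟩, fun S => rfl⟩
  | mul x y _ _ hx hy =>
    obtain ⟨c1, d1, ⟨C1, hC1⟩, h1⟩ := hx
    obtain ⟨c2, d2, ⟨C2, hC2⟩, h2⟩ := hy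
    refine ⟨fun i => c1 i + c2 i, fun i => d2 i + d1 i,
      ⟨C1 + C2, fun i hi => ⟨?_, ?_⟩⟩, fun S => ?_⟩
    · rw [add_mul]
      exact add_le_add (hC1 i hi).1 (hC2 i hi).1
    · rw [add_mul, add_comm (C1 * _)]
      exact add_le_add (hC2 i hi).2 (hC1 i hi).2
    · rw [Equiv.Perm.mul_apply]
      have e1 : mapCh (UT F fun i => d2 i + d1 i) S = mapCh (UT F d2) (mapCh (UT F d1) S) :=
        (mapCh_comp_eq _ _ _ S fun x => UT_UT F d2 d1 x).symm
      have e2 : mapCh (UT F c2) (mapCh (UT F d1) S) = mapCh (UT F d1) (mapCh (UT F c2) S) := by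
        refine mapCh_comp_congr _ _ _ _ S fun x => ?_
        rw [UT_UT, UT_UT]
        congr 2
        funext i
        exact add_comm _ _
      have e3 : mapCh (UT F c1) (mapCh (UT F c2) S) = mapCh (UT F fun i => c1 i + c2 i) S :=
        mapCh_comp_eq _ _ _ S fun x => UT_UT F c1 c2 x
      rw [e1, h2, e2, h1, e3]
  | inv x _ hx =>
    obtain ⟨c1, d1, ⟨C, hC⟩, h1⟩ := hx
    refine ⟨d1, c1, ⟨C, fun i hi => (hC i hi).symm⟩, fun S => ?_⟩
    rw [← h1 S]
    exact x.symm_apply_apply _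

lemma tt_iter (a M : ℕ) (S : Ch (UP Q)) : (mapCh (tt F m a) ^ M) S =
    mapCh (UT F fun i => M * Nseq m a i) S := by
  induction M generalizing S with
  | zero =>
    apply Subtype.ext
    rw [mapCh_coe]
    ext x
    simp only [Finset.mem_map]
    constructor
    · intro hx
      refine ⟨x, hx, ?_⟩
      apply uext
      filter_upwards [rp_UT F (fun i => 0 * Nseq m a i) x] with i hi
      simp only [zero_mul, Function.iterate_zero, id_eq] at hi
      rw [← hi]
      simp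
    · rintro ⟨z, hz, rfl⟩
      have : (UT F fun i => 0 * Nseq m a i) z = z := by
        apply uext
        filter_upwards [rp_UT F (fun i => 0 * Nseq m a i) z] with i hi
        rw [hi]
        simp
      change (UT F fun i => 0 * Nseq m a i) z ∈ _
      rw [this]
      exact hz
  | succ M ih =>
    rw [pow_succ, Equiv.Perm.mul_apply, ih]
    refine mapCh_comp_eq _ _ _ S fun x => ?_
    unfold tt
    rw [UT_UT]
    congr 2
    funext i
    ring

/-- freeness off the periodic part -/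
lemma tt_free (hm : 0 < m)
    (j : ℕ) (S : Ch (UP Q)) (hS : ¬ InU (X0 F) S) (M : ℕ) (hM : 0 < M)
    (g : Equiv.Perm (Ch (UP Q))) (hg : g ∈ GJ (tt F m) j) :
    (mapCh (tt F m j) ^ M) S ≠ g S := by
  intro he
  obtain ⟨c, d, ⟨C, hC⟩, h1⟩ := GJ_desc F m j g hg
  apply hS
  set S' : Ch (UP Q) := (mapCh (UT F d)).symm S with hS'
  have hSS : mapCh (UT F d) S' = S := (mapCh (UT F d)).apply_symm_apply S
  have h2 : mapCh (UT F fun i => M * Nseq m j i + d i) S' = mapCh (UT F c) S' := by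
    rw [← h1 S', hSS, ← he, tt_iter]
    conv_rhs => rw [← hSS]
    symm
    exact mapCh_comp_eq _ _ _ S' fun x => UT_UT F _ _ x
  have h3 := rigid _ _ _ h2
  have hco : ∀ᶠ i in UU, C + 1 ≤ i := hyper_le (eventually_ge_atTop (C + 1))
  intro y hy
  rw [← hSS, mapCh_coe, Finset.mem_coe, Finset.mem_map] at hy
  obtain ⟨x, hx, rfl⟩ := hy
  have h4 := h3 x hx
  change UT F d x ∈ X0 F
  apply UT_st
  have h5 : ∀ᶠ i in UU, rp ((UT F fun i => M * Nseq m j i + d i) x) i = rp (UT F c x) i :=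
    Eventually.of_forall fun i => by rw [h4]
  change ∀ᶠ i in UU, ∃ e, 0 < e ∧ F^[e] (rp x i) = rp x i
  filter_upwards [hco, h5, rp_UT F (fun i => M * Nseq m j i + d i) x, rp_UT F c x] with
    i hi h5 h6 h7
  rw [h6, h7] at h5
  have hlt : c i < M * Nseq m j i + d i := by
    have hi1 : 1 ≤ i := by omega
    have := (hC i hi1).1
    have h9 : C * i ^ j < i * i ^ j :=
      Nat.mul_lt_mul_of_pos_right (by omega) (pow_pos (by omega) _)
    have h10 : i * i ^ j ≤ M * Nseq m j i := by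
      unfold Nseq
      calc i * i ^ j = 1 * (1 * i ^ (j + 1)) := by rw [one_mul, one_mul, pow_succ, mul_comm]
        _ ≤ M * (m * i ^ (j + 1)) := Nat.mul_le_mul hM (Nat.mul_le_mul_right _ hm)
    omega
  obtain ⟨e, he⟩ := Nat.exists_eq_add_of_lt hlt
  refine ⟨e + 1, Nat.succ_pos _, ?_⟩
  rw [he, add_assoc, Function.iterate_add_apply] at h5
  exact (itIso F (c i)).injective h5

end action

end

end Pool.Agent.Helper43.SP.FK
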