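import Pool.Agent.Helper43.SP.Orb
import Pool.Agent.Helper43.SP.Ultra

/-!
Smith's theorem for an order automorphism all of whose orbits are finite of `p`-power size (without
a common bound) acting on an acyclic poset of bounded length.
-/

set_option autoImplicit false

namespace Pool.Agent.Helper43.SP.FK

open scoped Classical

noncomputable section

variable {k : Type*} [Field k] {X : Type*} [PartialOrder X] (g : X ≃o X)

lemma mapCh_pow (n : ℕ) (S : Ch X) : (mapCh g ^ n) S = mapCh (itIso g n) S := by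
  induction n generalizing S with
  | zero =>
    apply Subtype.ext
    rw [mapCh_coe]
    ext x
    simp only [Finset.mem_map]
    constructor
    · intro hx
      exact ⟨x, hx, rfl⟩
    · rintro ⟨z, hz, rfl⟩
      exact hz
  | succ n ih =>
    rw [pow_succ, Equiv.Perm.mul_apply, ih]
    exact mapCh_comp_eq _ _ _ S fun x => (Function.iterate_succ_apply g n x).symm

lemma fix_pt (n : ℕ) (S : Ch X) : (mapCh g ^ n) S = S ↔ ∀ x ∈ S.1, g^[n] x = x := by
  rw [mapCh_pow]
  constructor
  · intro h
    have h1 : mapCh (OrderIso.refl X) S = S := by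
      apply Subtype.ext
      rw [mapCh_coe]
      ext x
      simp
    have h2 := rigid (itIso g n) (OrderIso.refl X) S (by rw [h, h1])
    exact h2
  · intro h
    apply Subtype.ext
    rw [mapCh_coe]
    ext x
    rw [Finset.mem_map]
    constructor
    · rintro ⟨z, hz, rfl⟩
      change g^[n] z ∈ S.1
      rw [h z hz]
      exact hz
    · intro hx
      exact ⟨x, hx, h x hx⟩

lemma fix_er {n : ℕ} {S : Ch X} (h : (mapCh g ^ n) S = S) (x : X) :
    (mapCh g ^ n) (er S x) = er S x := by
  rw [fix_pt] at h ⊢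
  intro y hy
  exact h y (Finset.mem_of_mem_erase hy)

variable {p : ℕ} (hp : p.Prime) (hgp : ∀ x, ∃ a, g^[p ^ a] x = x)

include hgp in
lemma pper_mapCh : PPer (mapCh g) p := by
  intro S
  have key : ∀ s : Finset X, ∃ a, ∀ x ∈ s, g^[p ^ a] x = x := by
    intro s
    induction s using Finset.induction_on with
    | empty => exact ⟨0, by simp⟩
    | insert y s _ ih =>
      obtain ⟨a, ha⟩ := ih
      obtain ⟨b, hb⟩ := hgp y
      refine ⟨a + b, fun x hx => ?_⟩
      rcases Finset.mem_insert.mp hx with rfl | hx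
      · rw [pow_add, mul_comm, Function.iterate_mul]
        exact Function.iterate_fixed hb _
      · rw [pow_add, Function.iterate_mul]
        exact Function.iterate_fixed (ha x hx) _
  obtain ⟨a, ha⟩ := key S.1
  exact ⟨a, (fix_pt g _ S).mpr ha⟩

include hgp in
lemma al_er (S : Ch X) (x : X) : al (mapCh g) p (er S x) ≤ al (mapCh g) p S :=
  al_le _ (pper_mapCh g hgp) (fix_er g (al_self _ (pper_mapCh g hgp) S) x)

include hp hgp in
lemma bd_Nm [CharP k p] {a : ℕ} {w : Ch X →₀ k} (hw : Supp (fun S => al (mapCh g) p S ≤ a) w) :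
    bd k X (Nm k (mapCh g) p (PA k (mapCh g) p a w)) =
      Nm k (mapCh g) p (PA k (mapCh g) p a (bd k X w)) := by
  have hper := pper_mapCh g hgp
  have := Supp.eq (A := (bd k X).comp ((Nm k (mapCh g) p).comp (PA k (mapCh g) p a)))
    (B := (Nm k (mapCh g) p).comp ((PA k (mapCh g) p a).comp (bd k X))) (fun S hS => ?_) hw
  · exact this
  · simp only [LinearMap.comp_apply]
    rw [bd_dl, map_sum, map_sum, PA_dl]
    split_ifs with h
    · rw [Nm_dl, map_sum]
      have h1 : ∀ b : ℕ, bd k X (dl k ((mapCh g ^ b) S)) =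
          ∑ x ∈ S.1, sgn k S x • dl k ((mapCh g ^ b) (er S x)) := by
        intro b
        rw [← act_dl, ← act_pow_bd, bd_dl, map_sum]
        refine Finset.sum_congr rfl fun x _ => ?_
        rw [map_smul, act_dl]
      simp only [h1]
      rw [Finset.sum_comm]
      refine Finset.sum_congr rfl fun x _ => ?_
      rw [← Finset.smul_sum, map_smul, map_smul]
      congr 1
      rw [h, sum_per _ hp hper a (er S x) ((al_er g hgp S x).trans hS), PA_dl]
      split_ifs
      · rfl
      · rw [map_zero]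
    · rw [map_zero, map_zero]
      symm
      refine Finset.sum_eq_zero fun x _ => ?_
      have h2 : al (mapCh g) p (er S x) ≠ a := by
        have := al_er g hgp S x
        intro h3
        apply h
        omega
      rw [map_smul, map_smul, PA_dl, if_neg h2, map_zero, smul_zero]

include hp hgp in
lemma PA_bd_Nm [CharP k p] (a : ℕ) (e : Ch X →₀ k) :
    PA k (mapCh g) p a (bd k X (Nm k (mapCh g) p e)) =
      bd k X (PA k (mapCh g) p a (Nm k (mapCh g) p e)) := by
  have hper := pper_mapCh g hgp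
  have : (PA k (mapCh g) p a).comp ((bd k X).comp (Nm k (mapCh g) p)) =
      (bd k X).comp ((PA k (mapCh g) p a).comp (Nm k (mapCh g) p)) := by
    refine ext_dl fun S => ?_
    simp only [LinearMap.comp_apply]
    rw [PA_Nm _ hp hper, PA_dl]
    have h1 : PA k (mapCh g) p (al (mapCh g) p S) (dl k S) = dl k S := by
      rw [PA_dl, if_pos rfl]
    have h2 := bd_Nm (k := k) g hp hgp (a := al (mapCh g) p S) (w := dl k S)
      (Supp.dl (R := fun T => al (mapCh g) p T ≤ al (mapCh g) p S) le_rfl)
    rw [h1, ← PA_Nm _ hp hper] at h2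
    rw [h2]
    split_ifs with h
    · rw [← h, PA_of_supp _ (al_PA _ _ _), h2]
    · rw [map_zero, map_zero]
      exact PA_of_ne _ (Ne.symm h) (al_PA _ _ _)
  exact congrArg (fun A : (Ch X →₀ k) →ₗ[k] (Ch X →₀ k) => A e) this

include hp hgp in
lemma PA_bd_inv [CharP k p] (a : ℕ) {w : Ch X →₀ k} (hw : act (mapCh g) w = w) :
    PA k (mapCh g) p a (bd k X w) = bd k X (PA k (mapCh g) p a w) := by
  have h := PA_bd_Nm g hp hgp a (EE k (mapCh g) w)
  rwa [Nm_EE _ hp (pper_mapCh g hgp) w hw] at h

lemma card_pow (b : ℕ) (S : Ch X) : ((mapCh g ^ b) S).1.card = S.1.card :=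
  D_pow (mapCh g) (D := fun T : Ch X => T.1.card = S.1.card) (fun T hT => by
    rw [mapCh_card]; exact hT) b S rfl

lemma hom_Nm {j : ℕ} {w : Ch X →₀ k} (hw : Hom j w) : Hom j (Nm k (mapCh g) p w) := by
  refine Supp.map (R := fun S : Ch X => S.1.card = j) (fun S hS => ?_) hw
  rw [Nm_dl]
  refine Supp.sum _ _ fun b _ => Supp.dl ?_
  rw [card_pow]
  exact hS

include hp hgp in
lemma card_orep (S : Ch X) : (orep (mapCh g) S).1.card = S.1.card := by
  obtain ⟨b, _, he⟩ := same_pow _ hp (pper_mapCh g hgp) (orep_same (mapCh g) S)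
  rw [← card_pow g b (orep (mapCh g) S), he]

include hp hgp in
lemma hom_RR {j : ℕ} {w : Ch X →₀ k} (hw : Hom j w) : Hom j (RR k (mapCh g) w) := by
  refine Supp.map (R := fun S : Ch X => S.1.card = j) (fun S hS => ?_) hw
  rw [RR_dl]
  refine Supp.dl ?_
  rw [card_orep g hp hgp]
  exact hS

/-- exactness of the invariants in degree `j` -/
def AJ (k : Type*) [Field k] {X : Type*} [PartialOrder X] (g : X ≃o X) (j : ℕ) : Prop :=
  ∀ v : Ch X →₀ k, Hom j v → act (mapCh g) v = v → bd k X v = 0 →
    ∃ w : Ch X →₀ k, Hom (j + 1) w ∧ act (mapCh g) w = w ∧ bd k X w = v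

lemma PA_apply (a : ℕ) (v : Ch X →₀ k) (S : Ch X) (hS : al (mapCh g) p S = a) :
    PA k (mapCh g) p a v S = v S := by
  have : (Finsupp.lapply S).comp (PA k (mapCh g) p a) =
      (Finsupp.lapply S : (Ch X →₀ k) →ₗ[k] k) := by
    refine ext_dl fun T => ?_
    rw [LinearMap.comp_apply, PA_dl, Finsupp.lapply_apply, Finsupp.lapply_apply]
    split_ifs with h
    · rfl
    · symm
      rw [Finsupp.zero_apply]
      refine dl_ne ?_
      rintro rfl
      exact h hS
  exact congrArg (fun A : (Ch X →₀ k) →ₗ[k] k => A v) this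

include hp hgp in
lemma stepB [CharP k p] {j : ℕ} (hA : AJ k g j) : ∀ a : ℕ, ∀ w : Ch X →₀ k, Hom j w →
    Supp (fun S => al (mapCh g) p S < a) w → (∃ y, bd k X w = act (mapCh g) y - y) →
    ∃ u y : Ch X →₀ k, Hom (j + 1) u ∧ Hom j y ∧ w = bd k X u + (act (mapCh g) y - y) := by
  have hper := pper_mapCh g hgp
  intro a
  induction a with
  | zero =>
    intro w _ hw _
    have : w = 0 := by
      ext S
      exact hw S (Nat.not_lt_zero _)
    exact ⟨0, 0, Supp.zero _, Supp.zero _, by rw [this]; simp⟩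
  | succ a ih =>
    rintro w hwj hwa ⟨y, hy⟩
    have hwa' : Supp (fun S => al (mapCh g) p S ≤ a) w :=
      Supp.mono (fun S hS => Nat.lt_succ_iff.mp hS) hwa
    set v0 := Nm k (mapCh g) p (PA k (mapCh g) p a w) with hv0
    have hv0j : Hom j v0 := hom_Nm g (supp_PA _ a hwj)
    have hv0i : act (mapCh g) v0 = v0 := act_Nm _ hp hper _
    have hv0b : bd k X v0 = 0 := by
      rw [hv0, bd_Nm g hp hgp hwa', hy, map_sub, map_sub, PA_act _ hp hper, Nm_act _ hp hper,
        sub_self]
    obtain ⟨w', hw'j, hw'i, hw'b⟩ := hA v0 hv0j hv0i hv0b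
    set w'' := PA k (mapCh g) p a w' with hw''
    have hw''i : act (mapCh g) w'' = w'' := by
      rw [hw'', ← PA_act _ hp hper, hw'i]
    have hw''b : bd k X w'' = v0 := by
      rw [hw'', ← PA_bd_inv g hp hgp a hw'i, hw'b, hv0, PA_Nm _ hp hper,
        PA_of_supp _ (al_PA _ _ _)]
    set u0 := EE k (mapCh g) w'' with hu0
    have hu0j : Hom (j + 1) u0 := supp_EE _ (supp_PA _ a hw'j)
    have hu0a : Supp (fun S => al (mapCh g) p S = a) u0 := supp_EE _ (al_PA _ _ _)
    have hu0a' : Supp (fun S => al (mapCh g) p S ≤ a) u0 := Supp.mono (fun S hS => hS.le) hu0a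
    have hu0n : Nm k (mapCh g) p u0 = w'' := Nm_EE _ hp hper _ hw''i
    have hv0' : v0 = Nm k (mapCh g) p (PA k (mapCh g) p a (bd k X u0)) := by
      rw [← bd_Nm g hp hgp hu0a', PA_of_supp _ hu0a, hu0n, hw''b]
    set w1 := w - bd k X u0 with hw1
    have hw1j : Hom j w1 := Supp.sub hwj (hom_bd hu0j)
    have hw1a : Supp (fun S => al (mapCh g) p S ≤ a) w1 := by
      refine Supp.sub hwa' (Supp.map (fun S hS => ?_) hu0a')
      rw [bd_dl]
      refine Supp.sum _ _ fun x _ => Supp.smul _ (Supp.dl ?_)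
      exact (al_er g hgp S x).trans hS
    have hw1n : Nm k (mapCh g) p (PA k (mapCh g) p a w1) = 0 := by
      rw [hw1, map_sub, map_sub, ← hv0', ← hv0, sub_self]
    set f := RR k (mapCh g) w1 with hf
    have hfj : Hom j f := hom_RR g hp hgp hw1j
    have hfP : PA k (mapCh g) p a f = 0 := by
      rw [hf, PA_RR _ hp hper, ← EE_Nm _ hp hper, hw1n, map_zero]
    have hfa : Supp (fun S => al (mapCh g) p S < a) f := by
      have h1 : Supp (fun S => al (mapCh g) p S ≤ a) f := by
        refine Supp.map (fun S hS => ?_) hw1a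
        rw [RR_dl]
        refine Supp.dl ?_
        rw [al_same _ hp hper (orep_same (mapCh g) S).symm]
        exact hS
      intro S hS
      by_cases h2 : al (mapCh g) p S = a
      · rw [← PA_apply g a f S h2, hfP]
        rfl
      · exact h1 S (by omega)
    obtain ⟨y1, hy1j, hy1⟩ := sub_RR (mapCh g) hp hper (fun S : Ch X => S.1.card = j)
      (fun S hS => by rw [mapCh_card]; exact hS) hw1j
    have hfe : f = w - bd k X u0 - (act (mapCh g) y1 - y1) := by
      rw [← hy1, hw1, hf]
      abel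
    obtain ⟨u2, y2, hu2, hy2, he⟩ := ih f hfj hfa ⟨y - bd k X y1, by
      rw [hfe, map_sub, map_sub, bd_bd, hy, map_sub, ← act_bd, map_sub]
      abel⟩
    refine ⟨u0 + u2, y1 + y2, Supp.add hu0j hu2, Supp.add hy1j hy2, ?_⟩
    rw [map_add, map_add]
    have h5 : w = f + bd k X u0 + (act (mapCh g) y1 - y1) := by
      rw [hfe]
      abel
    rw [h5, he]
    abel

include hp hgp in
lemma stepA [CharP k p] (hex : GEx k (Set.univ : Set X)) {j : ℕ} (hA : AJ k g (j + 2)) :
    AJ k g j := by
  intro v hvj hvi hvb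
  have hall : ∀ v : Ch X →₀ k, Supp (InU (Set.univ : Set X)) v := fun v S hS =>
    absurd (Set.subset_univ _) hS
  obtain ⟨w1, _, hw1j, hw1b⟩ := hex j v (hall v) hvj hvb
  have h1j : Hom (j + 1) (act (mapCh g) w1 - w1) := by
    have := hom_act g 1 hw1j
    rw [pow_one] at this
    exact Supp.sub this hw1j
  have h1b : bd k X (act (mapCh g) w1 - w1) = 0 := by
    rw [map_sub, ← act_bd, hw1b, hvi, sub_self]
  obtain ⟨w2, _, hw2j, hw2b⟩ := hex (j + 1) _ (hall _) h1j h1b
  have hbound : Supp (fun S => al (mapCh g) p S < w2.support.sup (al (mapCh g) p) + 1) w2 := by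
    intro S hS
    by_contra hne
    apply hS
    exact Nat.lt_succ_of_le (Finset.le_sup (Finsupp.mem_support_iff.mpr hne))
  obtain ⟨u, y, _, hy, he⟩ := stepB g hp hgp hA _ w2 hw2j hbound ⟨w1, hw2b⟩
  have h2 : act (mapCh g) w1 - w1 = act (mapCh g) (bd k X y) - bd k X y := by
    rw [← hw2b, he, map_add, bd_bd, zero_add, map_sub, act_bd]
  refine ⟨w1 - bd k X y, Supp.sub hw1j (hom_bd hy), ?_, ?_⟩
  · rw [map_sub]
    have h3 : act (mapCh g) w1 - act (mapCh g) (bd k X y) =
        (act (mapCh g) w1 - w1) - (act (mapCh g) (bd k X y) - bd k X y) +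
          (w1 - bd k X y) := by abel
    rw [h3, h2, sub_self, zero_add]
  · rw [map_sub, bd_bd, sub_zero, hw1b]

include hp hgp in
lemma AJ_all [CharP k p] (hn : FinLen X) (hex : GEx k (Set.univ : Set X)) (j : ℕ) :
    AJ k g j := by
  obtain ⟨n, hn⟩ := hn
  have key : ∀ c j, n < j + c → AJ k g j := by
    intro c
    induction c with
    | zero =>
      intro j hj v hv _ _
      have : v = 0 := by
        ext S
        refine hv S fun h => ?_
        have := hn S
        omega
      exact ⟨0, Supp.zero _, map_zero _, by rw [this, map_zero]⟩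
    | succ c ih =>
      intro j hj
      exact stepA g hp hgp hex (ih (j + 2) (by omega))
  exact key (n + 1) j (by omega)

include hp hgp in
/-- Smith's theorem, locally finite version. -/
theorem smithLF [CharP k p] (hn : FinLen X) (hex : GEx k (Set.univ : Set X)) :
    GEx k {x : X | g x = x} := by
  have hper := pper_mapCh g hgp
  intro i z hz hzi hdz
  have hfx : ∀ S : Ch X, InU {x : X | g x = x} S ↔ (mapCh g) S = S := by
    intro S
    have := fix_pt g 1 S
    rw [pow_one] at this
    rw [this]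
    exact Iff.rfl
  have hzinv : act (mapCh g) z = z := by
    have := Supp.eq (A := act (mapCh g)) (B := LinearMap.id) (fun S hS => by
      rw [act_dl, (hfx S).mp hS]; rfl) hz
    exact this
  obtain ⟨w, hwj, hwi, hwb⟩ := AJ_all g hp hgp hn hex i z hzi hzinv hdz
  refine ⟨PA k (mapCh g) p 0 w, ?_, supp_PA _ 0 hwj, ?_⟩
  · refine Supp.mono (fun S hS => ?_) (al_PA (mapCh g) 0 w)
    rw [hfx]
    have := al_self (mapCh g) hper S
    rw [hS, pow_zero, pow_one] at this
    exact this
  · rw [← PA_bd_inv g hp hgp 0 hwi, hwb]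
    refine PA_of_supp _ (Supp.mono (fun S hS => ?_) hz)
    have h1 : (mapCh g ^ (p ^ 0)) S = S := by
      rw [pow_zero, pow_one]
      exact (hfx S).mp hS
    have := al_le (mapCh g) hper h1
    omega

end

end Pool.Agent.Helper43.SP.FK
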