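import Pool.Agent.Helper43.SP.Desc

/-!
The trace argument on the finite set of periodic elements.
-/

set_option autoImplicit false

namespace Pool.Agent.Helper43.SP

open Filter Topology Matrix
open scoped ENNReal Classical

noncomputable section

variable {Q : Type*} [PartialOrder Q]

lemma exists_least (S : Ch Q) (h : S.1.Nonempty) : ∃ m ∈ S.1, ∀ x ∈ S.1, m ≤ x := by
  obtain ⟨m, hm⟩ := S.1.exists_minimal h
  refine ⟨m, hm.1, fun x hx => ?_⟩
  rcases eq_or_ne m x with rfl | hne
  · exact le_rfl
  · rcases S.2 hm.1 hx hne with h | h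
    · exact h
    · exact hm.2 hx h

lemma act_mul {ι : Type*} (g h : Equiv.Perm ι) (v : L1 ι) : act (g * h) v = act g (act h v) := by
  have : act (g * h) = (act g).comp (act h) := by
    refine ext_dl fun i => ?_
    rw [ContinuousLinearMap.comp_apply, act_dl, act_dl, act_dl]
    rfl
  rw [this]
  rfl

lemma act_one {ι : Type*} (v : L1 ι) : act (1 : Equiv.Perm ι) v = v := by
  have : act (1 : Equiv.Perm ι) = ContinuousLinearMap.id ℝ _ := by
    refine ext_dl fun i => ?_
    rw [act_dl]
    rfl
  rw [this]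
  rfl

lemma act_pow_comm {ι : Type*} (g : Equiv.Perm ι) (M : L1 ι →L[ℝ] L1 ι)
    (h : ∀ v, act g (M v) = M (act g v)) (k : ℕ) (v : L1 ι) :
    act (g ^ k) (M v) = M (act (g ^ k) v) := by
  induction k generalizing v with
  | zero => rw [pow_zero, act_one, act_one]
  | succ k ih => rw [pow_succ, act_mul, act_mul, h, ih]

lemma periodic_of_fixed {ι : Type*} (g : Equiv.Perm ι) (v : L1 ι) (h : act g v = v) (i : ι)
    (hi : v i ≠ 0) : ∃ k, 0 < k ∧ (g ^ k) i = i := by
  by_contra hcon
  push Not at hcon
  have hinj : Function.Injective (fun k : ℕ => (g ^ k) i) := by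
    intro a b hab
    dsimp only at hab
    wlog hlt : a ≤ b generalizing a b with H
    · exact (H hab.symm (le_of_lt (not_le.mp hlt))).symm
    by_contra hne
    have hlt' : a < b := lt_of_le_of_ne hlt hne
    have h1 : (g ^ (b - a)) i = i := by
      have h2 : (g ^ b) i = (g ^ a) ((g ^ (b - a)) i) := by
        rw [← Equiv.Perm.mul_apply, ← pow_add]
        congr 2
        omega
      rw [h2] at hab
      exact ((g ^ a).injective hab).symm
    exact hcon (b - a) (by omega) h1
  have hconst : ∀ k : ℕ, v ((g ^ k) i) = v i := by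
    intro k
    induction k with
    | zero => rw [pow_zero]; rfl
    | succ k ih =>
      have h1 := act_apply g v ((g ^ k) i)
      rw [h] at h1
      rw [pow_succ', Equiv.Perm.mul_apply, h1, ih]
  have hs := (summable_abs v).comp_injective hinj
  have h2 : ((fun i => |v i|) ∘ fun k : ℕ => (g ^ k) i) = fun _ => |v i| := by
    funext k
    simp only [Function.comp]
    rw [hconst k]
  rw [h2] at hs
  have h3 := hs.tendsto_atTop_zero
  have h4 := tendsto_nhds_unique h3 tendsto_const_nhds
  exact hi (abs_eq_zero.mp h4.symm)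

lemma mapCh_pow_coe (F : Q ≃o Q) (k : ℕ) (S : Ch Q) :
    ((mapCh F ^ k) S).1 = S.1.image (F^[k]) := by
  induction k with
  | zero => simp
  | succ k ih =>
    have h1 : ((mapCh F ^ (k + 1)) S) = mapCh F ((mapCh F ^ k) S) := by
      rw [pow_succ', Equiv.Perm.mul_apply]
    rw [h1, mapCh_coe, ih]
    ext x
    simp only [Finset.mem_map, Finset.mem_image, Function.iterate_succ', Function.comp]
    constructor
    · rintro ⟨y, ⟨z, hz, rfl⟩, rfl⟩
      exact ⟨z, hz, rfl⟩
    · rintro ⟨z, hz, rfl⟩
      exact ⟨_, ⟨z, hz, rfl⟩, rfl⟩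

lemma elem_periodic (F : Q ≃o Q) (S : Ch Q) (k : ℕ) (hk : 0 < k) (h : (mapCh F ^ k) S = S)
    (x : Q) (hx : x ∈ S.1) : ∃ t, 0 < t ∧ F^[t] x = x := by
  have hmem : ∀ t : ℕ, (F^[k])^[t] x ∈ S.1 := by
    intro t
    induction t with
    | zero => exact hx
    | succ t ih =>
      rw [Function.iterate_succ', Function.comp]
      have h1 : S.1.image (F^[k]) = S.1 := by
        rw [← mapCh_pow_coe, h]
      rw [← h1]
      exact Finset.mem_image_of_mem _ ih
  have hfin : ∃ a b : ℕ, a < b ∧ (F^[k])^[a] x = (F^[k])^[b] x := by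
    by_contra hcon
    push Not at hcon
    have hinj : Function.Injective (fun t : ℕ => (⟨(F^[k])^[t] x, hmem t⟩ : S.1)) := by
      intro a b hab
      have hab' : (F^[k])^[a] x = (F^[k])^[b] x := congrArg Subtype.val hab
      rcases lt_trichotomy a b with h' | h' | h'
      · exact absurd hab' (hcon a b h')
      · exact h'
      · exact absurd hab'.symm (hcon b a h')
    exact not_injective_infinite_finite _ hinj
  obtain ⟨a, b, hab, he⟩ := hfin
  refine ⟨k * (b - a), Nat.mul_pos hk (by omega), ?_⟩
  rw [Function.iterate_mul]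
  have hinj : Function.Injective ((F^[k])^[a]) := (F.injective.iterate k).iterate a
  apply hinj
  rw [← Function.iterate_add_apply, he]
  congr 2
  omega

section mat

variable {ι : Type*} (R : ι → Prop) [Fintype {i // R i}]

lemma eq_sum_of_supp (v : L1 ι) (hv : Supp R v) : v = ∑ b : {i // R i}, v b.1 • dl b.1 := by
  ext i
  rw [lp.coeFn_sum, Finset.sum_apply]
  by_cases hi : R i
  · rw [Finset.sum_eq_single ⟨i, hi⟩]
    · rw [lp.coeFn_smul, Pi.smul_apply, dl_self, smul_eq_mul, mul_one]
    · intro b _ hb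
      rw [lp.coeFn_smul, Pi.smul_apply, dl_ne, smul_zero]
      rintro rfl
      exact hb rfl
    · intro h
      exact absurd (Finset.mem_univ _) h
  · rw [hv i hi, Finset.sum_eq_zero]
    intro b _
    rw [lp.coeFn_smul, Pi.smul_apply, dl_ne, smul_zero]
    rintro rfl
    exact hi b.2

/-- matrix of an operator on a finite set of coordinates -/
def mat (A : L1 ι →L[ℝ] L1 ι) : Matrix {i // R i} {i // R i} ℝ := fun a b => A (dl b.1) a.1

lemma mat_mul (A B : L1 ι →L[ℝ] L1 ι) (hB : ∀ b, R b → Supp R (B (dl b))) :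
    mat R A * mat R B = mat R (A.comp B) := by
  ext a c
  rw [Matrix.mul_apply]
  unfold mat
  rw [ContinuousLinearMap.comp_apply]
  conv_rhs => rw [eq_sum_of_supp R (B (dl c.1)) (hB c.1 c.2), map_sum]
  rw [lp.coeFn_sum, Finset.sum_apply]
  refine Finset.sum_congr rfl fun b _ => ?_
  rw [map_smul, lp.coeFn_smul, Pi.smul_apply, smul_eq_mul, mul_comm]

end mat

theorem exists_fixed (hn : FinLen Q) (F : Q ≃o Q)
    (M : L1 (Ch Q) →L[ℝ] L1 (Ch Q))
    (hM1 : ∀ S : Ch Q, bd (M (dl S)) + M (bd (dl S)) = dl S)
    (hM2 : ∀ v, act (mapCh F) (M v) = M (act (mapCh F) v))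
    (hK : {y : Q | ∃ k, 0 < k ∧ F^[k] y = y}.Finite) :
    ∃ y, F y = y := by
  set K : Set Q := {y : Q | ∃ k, 0 < k ∧ F^[k] y = y} with hKdef
  -- common period
  obtain ⟨m, hm0, hm⟩ : ∃ m, 0 < m ∧ ∀ y ∈ K, F^[m] y = y := by
    refine Set.Finite.induction_on_subset (motive := fun s _ => ∃ m, 0 < m ∧ ∀ y ∈ s, F^[m] y = y)
      K hK ⟨1, one_pos, by simp⟩ ?_
    rintro a s ha hs _ ⟨m, hm0, hm⟩
    obtain ⟨k, hk0, hk⟩ := ha
    refine ⟨m * k, Nat.mul_pos hm0 hk0, ?_⟩
    intro y hy
    rcases Set.mem_insert_iff.mp hy with rfl | hy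
    · rw [mul_comm, Function.iterate_mul]
      exact Function.iterate_fixed hk m
    · rw [Function.iterate_mul]
      exact Function.iterate_fixed (hm y hy) k
  have hFK : ∀ y, y ∈ K → F y ∈ K := by
    rintro y ⟨k, hk0, hk⟩
    refine ⟨k, hk0, ?_⟩
    rw [← Function.iterate_succ_apply, Function.iterate_succ_apply', hk]
  set R : Ch Q → Prop := fun S => (S.1 : Set Q) ⊆ K with hR
  have hfin : Finite {S : Ch Q // R S} := by
    have : Finite (↥(hK.toFinset.powerset)) := inferInstance
    refine Finite.of_injective (β := ↥(hK.toFinset.powerset))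
      (fun S => ⟨S.1.1, ?_⟩) ?_
    · rw [Finset.mem_powerset]
      intro x hx
      rw [Set.Finite.mem_toFinset]
      exact S.2 hx
    · intro S T h
      have : S.1.1 = T.1.1 := Subtype.mk.inj h
      exact Subtype.ext (Subtype.ext this)
  have : Fintype {S : Ch Q // R S} := Fintype.ofFinite _
  -- supports
  have hfix : ∀ T : Ch Q, R T → (mapCh F ^ m) T = T := by
    intro T hT
    apply Subtype.ext
    rw [mapCh_pow_coe]
    ext x
    rw [Finset.mem_image]
    constructor
    · rintro ⟨y, hy, rfl⟩
      rw [hm y (hT hy)]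
      exact hy
    · intro hx
      exact ⟨x, hx, hm x (hT hx)⟩
  have hsupp : ∀ v : L1 (Ch Q), act (mapCh F ^ m) v = v → Supp R v := by
    intro v hv S hS
    by_contra hne
    obtain ⟨k, hk0, hk⟩ := periodic_of_fixed _ v hv S hne
    apply hS
    intro x hx
    rw [← pow_mul] at hk
    exact elem_periodic F S (m * k) (Nat.mul_pos hm0 hk0) hk x hx
  have hMs : ∀ b, R b → Supp R (M (dl b)) := by
    intro b hb
    refine hsupp _ ?_
    rw [act_pow_comm _ M hM2, act_dl, hfix b hb]
  have hbs : ∀ b, R b → Supp R (bd (dl b)) := by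
    intro b hb
    rw [bd_dl hn]
    refine Supp.sum _ _ fun x _ => Supp.smul _ (Supp.dl ?_)
    intro y hy
    refine hb ?_
    exact Finset.mem_of_mem_erase hy
  have has : ∀ b, R b → Supp R (act (mapCh F) (dl b)) := by
    intro b hb
    rw [act_dl]
    refine Supp.dl ?_
    intro y hy
    rw [Finset.mem_coe, mapCh_coe, Finset.mem_map] at hy
    obtain ⟨z, hz, rfl⟩ := hy
    exact hFK z (hb hz)
  -- matrices
  set D := mat R (bd (Q := Q)) with hD
  set N := mat R M with hN
  set Φ := mat R (act (mapCh F)) with hΦ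
  set ep : {S : Ch Q // R S} → ℝ := fun S => (-1) ^ S.1.1.card with hep
  set Ep : Matrix {S : Ch Q // R S} {S : Ch Q // R S} ℝ := Matrix.diagonal ep with hEp
  have e1 : D * N + N * D = 1 := by
    rw [hD, hN, mat_mul R _ _ hMs, mat_mul R _ _ hbs]
    ext a b
    rw [Matrix.add_apply]
    unfold mat
    rw [ContinuousLinearMap.comp_apply, ContinuousLinearMap.comp_apply]
    have h1 := congrArg (fun v : L1 (Ch Q) => v a.1) (hM1 b.1)
    dsimp only at h1
    rw [lp.coeFn_add, Pi.add_apply] at h1
    rw [h1, dl_apply, Matrix.one_apply]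
    by_cases hab : a = b
    · rw [if_pos hab, if_pos (by rw [hab])]
    · rw [if_neg hab, if_neg (fun h => hab (Subtype.ext h))]
  have e2 : Φ * D = D * Φ := by
    rw [hD, hΦ, mat_mul R _ _ hbs, mat_mul R _ _ has]
    ext a b
    unfold mat
    rw [ContinuousLinearMap.comp_apply, ContinuousLinearMap.comp_apply, act_bd F hn]
  have e3 : Ep * D = - (D * Ep) := by
    ext a b
    rw [hEp, Matrix.diagonal_mul, Matrix.neg_apply, Matrix.mul_diagonal]
    by_cases hab : b.1.1.card = a.1.1.card + 1
    · simp only [hep]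
      rw [hab, pow_succ]
      ring
    · have h0 : D a b = 0 := by
        rw [hD]
        unfold mat
        rw [bd_dl hn, lp.coeFn_sum, Finset.sum_apply]
        refine Finset.sum_eq_zero fun x hx => ?_
        rw [lp.coeFn_smul, Pi.smul_apply, dl_ne, smul_zero]
        intro h
        apply hab
        rw [h, er_coe, Finset.card_erase_of_mem hx]
        have := Finset.card_pos.mpr ⟨x, hx⟩
        omega
      rw [h0]
      ring
  have tr0 : Matrix.trace (Ep * Φ) = 0 := by
    have h1 : Ep * Φ = Ep * Φ * D * N + Ep * Φ * N * D := by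
      have : Ep * Φ = Ep * Φ * (D * N + N * D) := by rw [e1, mul_one]
      rw [mul_add, ← mul_assoc, ← mul_assoc] at this
      exact this
    have h2 : Matrix.trace (Ep * Φ * N * D) = - Matrix.trace (Ep * Φ * D * N) := by
      rw [Matrix.trace_mul_comm]
      have : D * (Ep * Φ * N) = - (Ep * Φ * D * N) := by
        have h3 : D * Ep = - (Ep * D) := by rw [e3, neg_neg]
        calc D * (Ep * Φ * N) = (D * Ep) * Φ * N := by simp only [mul_assoc]
          _ = - (Ep * (D * Φ) * N) := by rw [h3]; simp only [neg_mul, mul_assoc]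
          _ = - (Ep * Φ * D * N) := by rw [← e2]; simp only [mul_assoc]
      rw [this, Matrix.trace_neg]
    rw [h1, Matrix.trace_add, h2, add_neg_cancel]
  by_contra hno
  push Not at hno
  have hone : Matrix.trace (Ep * Φ) = 1 := by
    rw [Matrix.trace]
    have hemp : R (emp : Ch Q) := by
      intro x hx
      simp [emp] at hx
    rw [Finset.sum_eq_single (⟨emp, hemp⟩ : {S : Ch Q // R S})]
    · rw [Matrix.diag_apply, hEp, Matrix.diagonal_mul]
      simp only [hep, hΦ]
      unfold mat
      rw [act_dl]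
      have h1 : mapCh F (emp : Ch Q) = emp := by
        apply Subtype.ext
        rw [mapCh_coe]
        simp [emp]
      rw [h1, dl_self]
      simp [emp]
    · intro a _ ha
      rw [Matrix.diag_apply, hEp, Matrix.diagonal_mul]
      have h1 : Φ a a = 0 := by
        rw [hΦ]
        unfold mat
        rw [act_dl]
        refine dl_ne ?_
        intro h
        have hne : a.1.1.Nonempty := by
          rw [Finset.nonempty_iff_ne_empty]
          intro h'
          exact ha (Subtype.ext (Subtype.ext h'))
        obtain ⟨x, hx, hleast⟩ := exists_least a.1 hne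
        have h2 : F x ∈ a.1.1 := by
          rw [h, mem_mapCh]
          exact hx
        have h3 : F.symm x ∈ a.1.1 := by
          rw [← mem_mapCh F, ← h, OrderIso.apply_symm_apply]
          exact hx
        have h4 := hleast _ h2
        have h5 := hleast _ h3
        have h6 : F x ≤ x := by
          have := F.monotone h5
          rwa [OrderIso.apply_symm_apply] at this
        exact hno x (le_antisymm h6 h4)
      rw [h1, mul_zero]
    · intro h
      exact absurd (Finset.mem_univ _) h
  rw [tr0] at hone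
  exact zero_ne_one hone

end

end Pool.Agent.Helper43.SP
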